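import Mathlib

/-!
Spanning tree parity: a connected re-assignment of tokens to hubs.
-/

namespace Pool.Agent.H10.SF3

open Finset

theorem det_two {C : Type} [Fintype C] [DecidableEq C] (M : Matrix C C (ZMod 2)) :
    M.det = ∑ σ : Equiv.Perm C, ∏ i, M (σ i) i := by
  rw [Matrix.det_apply']
  refine Finset.sum_congr rfl fun σ _ => ?_
  have h : ((Equiv.Perm.sign σ : ℤ) : ZMod 2) = 1 := by
    rcases Int.units_eq_one_or (Equiv.Perm.sign σ) with h | h
    · rw [h]; rfl
    · rw [h]; rfl
  rw [h, one_mul]

theorem even_bij {C H : Type} [Fintype C] [DecidableEq C] [Fintype H] [DecidableEq H] [Nonempty H]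
    (a b : C → H) (hab : ∀ t, b t ≠ a t) :
    ∑ g : C → H, (if (∀ t, g t = a t ∨ g t = b t) ∧ Function.Bijective g then (1 : ZMod 2)
      else 0) = 0 := by
  classical
  by_cases hc : ∃ g : C → H, Function.Bijective g
  · obtain ⟨g0, hg0⟩ := hc
    let e : C ≃ H := Equiv.ofBijective g0 hg0
    have hC : Nonempty C := ⟨e.symm (Classical.arbitrary H)⟩
    let M : Matrix C C (ZMod 2) := fun t t' => if e t' = a t ∨ e t' = b t then 1 else 0
    have hdet : M.det = 0 := by
      apply Matrix.exists_mulVec_eq_zero_iff.mp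
      refine ⟨fun _ => 1, ?_, ?_⟩
      · intro h
        have := congrFun h (Classical.arbitrary C)
        simp at this
      · funext t
        simp only [Matrix.mulVec, dotProduct, mul_one, Pi.zero_apply, M]
        rw [Finset.sum_ite, Finset.sum_const_zero, add_zero, Finset.sum_const, nsmul_eq_mul, mul_one]
        have h2 : (univ.filter (fun t' => e t' = a t ∨ e t' = b t)) = {e.symm (a t), e.symm (b t)} := by
          ext t'
          simp only [Finset.mem_filter, Finset.mem_univ, true_and, Finset.mem_insert,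
            Finset.mem_singleton, Equiv.eq_symm_apply]
        rw [h2, Finset.card_pair (fun h => hab t (e.symm.injective h).symm)]
        rfl
    rw [det_two] at hdet
    have h3 : ∀ σ : Equiv.Perm C, ∏ i, M (σ i) i =
        if ∀ t, (e ∘ σ.symm) t = a t ∨ (e ∘ σ.symm) t = b t then (1 : ZMod 2) else 0 := by
      intro σ
      by_cases h : ∀ t, (e ∘ σ.symm) t = a t ∨ (e ∘ σ.symm) t = b t
      · rw [if_pos h]
        apply Finset.prod_eq_one
        intro i _
        have := h (σ i)
        simp only [Function.comp_apply, Equiv.symm_apply_apply] at this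
        exact if_pos this
      · rw [if_neg h]
        push Not at h
        obtain ⟨t, ht1, ht2⟩ := h
        apply Finset.prod_eq_zero (Finset.mem_univ (σ.symm t))
        simp only [M, Equiv.apply_symm_apply]
        simp only [Function.comp_apply] at ht1 ht2
        exact if_neg (not_or.mpr ⟨ht1, ht2⟩)
    rw [Finset.sum_congr rfl (fun σ _ => h3 σ), ← Finset.sum_filter] at hdet
    rw [← Finset.sum_filter]
    refine Eq.trans ?_ hdet
    symm
    refine Finset.sum_bij (fun σ _ => (e ∘ σ.symm : C → H)) ?_ ?_ ?_ ?_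
    · intro σ hσ
      simp only [Finset.mem_filter, Finset.mem_univ, true_and] at hσ ⊢
      exact ⟨hσ, e.bijective.comp σ.symm.bijective⟩
    · intro σ _ τ _ h
      have h5 : ∀ t, σ.symm t = τ.symm t := fun t => e.injective (congrFun h t)
      have h6 : σ.symm = τ.symm := Equiv.ext h5
      exact Equiv.symm_bijective.injective h6
    · intro g hg
      simp only [Finset.mem_filter, Finset.mem_univ, true_and] at hg
      let u : C ≃ H := Equiv.ofBijective g hg.2
      refine ⟨(u.trans e.symm).symm, ?_, ?_⟩
      · simp only [Finset.mem_filter, Finset.mem_univ, true_and]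
        intro t
        have : (e ∘ ((u.trans e.symm).symm).symm) t = g t := by
          simp [u]
        rw [this]
        exact hg.1 t
      · funext t
        simp [u]
    · intro σ _
      rfl
  · apply Finset.sum_eq_zero
    intro g _
    rw [if_neg]
    intro h
    exact hc ⟨g, h.2⟩

section

variable {I H : Type} [Fintype I] [DecidableEq I] [Fintype H] [DecidableEq H] [Nonempty H]

open Classical in
/-- Weight of a selection. -/
noncomputable def wt (home alt : I → H) (J : Finset ℕ) (lab : I → ℕ) (sh : {j // j ∈ J} → H)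
    (σ : Equiv.Perm {j // j ∈ J}) (τ : {j // j ∈ J} → I) (f : I → H) : ZMod 2 :=
  if (∀ i, lab (τ i) = (σ i : ℕ)) ∧ (∀ i, f (τ i) = sh i) ∧
    (∀ t, f t = home t ∨ f t = alt t) ∧ (∀ w, ∃! t, (∀ j, t ≠ τ j) ∧ f t = w) then 1 else 0

open Classical in
theorem sum_wt (home alt : I → H) (hne : ∀ t, alt t ≠ home t) (J : Finset ℕ) (lab : I → ℕ)
    (sh : {j // j ∈ J} → H) (σ : Equiv.Perm {j // j ∈ J}) (τ : {j // j ∈ J} → I) :
    ∑ f : I → H, wt home alt J lab sh σ τ f = 0 := by
  by_cases hlab : ∀ i, lab (τ i) = (σ i : ℕ)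
  · let p : I → Prop := fun t => ∃ j, t = τ j
    let e := Equiv.piEquivPiSubtypeProd p (fun _ => H)
    rw [← e.symm.sum_comp, Fintype.sum_prod_type]
    apply Finset.sum_eq_zero
    intro f1 _
    have key : ∀ f2 : {x // ¬ p x} → H, wt home alt J lab sh σ τ (e.symm (f1, f2)) =
        (if (∀ i, f1 ⟨τ i, i, rfl⟩ = sh i) ∧
          (∀ t : {x // p x}, f1 t = home t ∨ f1 t = alt t) then (1 : ZMod 2) else 0) *
        (if (∀ t : {x // ¬ p x}, f2 t = home t ∨ f2 t = alt t) ∧ Function.Bijective f2
          then (1 : ZMod 2) else 0) := by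
      intro f2
      have v1 : ∀ t (h : p t), e.symm (f1, f2) t = f1 ⟨t, h⟩ := by
        intro t h
        simp [e, Equiv.piEquivPiSubtypeProd, h]
      have v2 : ∀ t (h : ¬ p t), e.symm (f1, f2) t = f2 ⟨t, h⟩ := by
        intro t h
        simp [e, Equiv.piEquivPiSubtypeProd, h]
      unfold wt
      by_cases hA : (∀ i, f1 ⟨τ i, i, rfl⟩ = sh i) ∧
          (∀ t : {x // p x}, f1 t = home t ∨ f1 t = alt t)
      · by_cases hB : (∀ t : {x // ¬ p x}, f2 t = home t ∨ f2 t = alt t) ∧ Function.Bijective f2
        · rw [if_pos hA, if_pos hB, if_pos, one_mul]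
          refine ⟨hlab, ?_, ?_, ?_⟩
          · intro i
            rw [v1 _ ⟨i, rfl⟩]
            exact hA.1 i
          · intro t
            by_cases ht : p t
            · rw [v1 t ht]
              exact hA.2 ⟨t, ht⟩
            · rw [v2 t ht]
              exact hB.1 ⟨t, ht⟩
          · intro w
            obtain ⟨t, ht⟩ := hB.2.2 w
            refine ⟨t, ⟨fun j hj => t.2 ⟨j, hj⟩, ?_⟩, ?_⟩
            · rw [v2 t t.2]
              exact ht
            · rintro t' ⟨h5, h6⟩
              have h7 : ¬ p t' := fun ⟨j, hj⟩ => h5 j hj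
              rw [v2 t' h7] at h6
              exact congrArg Subtype.val (hB.2.1 (h6.trans ht.symm))
        · rw [if_neg hB, mul_zero, if_neg]
          rintro ⟨_, _, h3, h4⟩
          apply hB
          refine ⟨fun t => ?_, ?_, ?_⟩
          · have := h3 t
            rwa [v2 t t.2] at this
          · intro t t' htt
            obtain ⟨u, _, hu⟩ := h4 (f2 t)
            have h5 := hu t ⟨fun j hj => t.2 ⟨j, hj⟩, by rw [v2 t t.2]⟩
            have h6 := hu t' ⟨fun j hj => t'.2 ⟨j, hj⟩, by rw [v2 t' t'.2]; exact htt.symm⟩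
            exact Subtype.ext (h5.trans h6.symm)
          · intro w
            obtain ⟨u, ⟨hu1, hu2⟩, _⟩ := h4 w
            have h7 : ¬ p u := fun ⟨j, hj⟩ => hu1 j hj
            rw [v2 u h7] at hu2
            exact ⟨⟨u, h7⟩, hu2⟩
      · rw [if_neg hA, zero_mul, if_neg]
        rintro ⟨_, h2, h3, _⟩
        apply hA
        refine ⟨fun i => ?_, fun t => ?_⟩
        · have := h2 i
          rwa [v1 _ ⟨i, rfl⟩] at this
        · have := h3 t
          rwa [v1 t t.2] at this
    rw [Finset.sum_congr rfl (fun f2 _ => key f2), ← Finset.mul_sum]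
    have h9 := even_bij (C := {x // ¬ p x}) (H := H) (fun t => home t) (fun t => alt t)
      (fun t => hne t)
    rw [h9, mul_zero]
  · apply Finset.sum_eq_zero
    intro f _
    unfold wt
    rw [if_neg]
    intro h
    exact hlab h.1

theorem reassign (home alt : I → H) (hne : ∀ t, alt t ≠ home t) (J : Finset ℕ) (hJ : 0 ∉ J)
    (lab : I → ℕ) (h0 : ∀ t, lab t ∈ J ∨ lab t = 0) (ld tl : ℕ → I)
    (h1 : ∀ j ∈ J, lab (ld j) = j) (h2 : ∀ j ∈ J, lab (tl j) < j)
    (h3 : ∀ j ∈ J, home (tl j) = home (ld j))
    (hinj : ∀ i ∈ J, ∀ j ∈ J, home (ld i) = home (ld j) → i = j)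
    (h4 : ∀ w, ∃! t, home t = w ∧ ∀ j ∈ J, t ≠ ld j) :
    ∃ f : I → H, f ≠ home ∧ (∀ t, f t = home t ∨ f t = alt t) ∧
      (∀ w, (univ.filter (fun t => f t = w)).card =
        (univ.filter (fun t => home t = w)).card) ∧
      (∀ U : ℕ → Prop, ¬ U 0 → (∀ t t', f t = f t' → (U (lab t) ↔ U (lab t'))) →
        ∀ j ∈ J, ¬ U j) := by
  classical
  let sh : {j // j ∈ J} → H := fun j => home (ld j)
  have hsh : Function.Injective sh := fun i j h => Subtype.ext (hinj i i.2 j j.2 h)
  let c : (I → H) → ZMod 2 := fun f => ∑ σ : Equiv.Perm {j // j ∈ J}, ∑ τ : {j // j ∈ J} → I,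
    wt home alt J lab sh σ τ f
  have hsum : ∑ f, c f = 0 := by
    show ∑ f, ∑ σ : Equiv.Perm {j // j ∈ J}, ∑ τ : {j // j ∈ J} → I,
      wt home alt J lab sh σ τ f = 0
    rw [Finset.sum_comm]
    apply Finset.sum_eq_zero
    intro σ _
    rw [Finset.sum_comm]
    apply Finset.sum_eq_zero
    intro τ _
    exact sum_wt home alt hne J lab sh σ τ
  have htok : ∀ j ∈ J, ∀ t, home t = home (ld j) → t = ld j ∨ t = tl j := by
    intro j hj t ht
    by_cases h : ∀ i ∈ J, t ≠ ld i
    · right
      obtain ⟨u, _, hu⟩ := h4 (home (ld j))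
      rw [hu t ⟨ht, h⟩]
      symm
      apply hu
      refine ⟨h3 j hj, ?_⟩
      intro i hi h5
      have h6 : home (ld i) = home (ld j) := by rw [← h5]; exact h3 j hj
      have h7 := hinj i hi j hj h6
      subst h7
      have h8 := h2 i hi
      rw [h5, h1 i hi] at h8
      exact lt_irrefl _ h8
    · left
      push Not at h
      obtain ⟨i, hi, h5⟩ := h
      rw [h5] at ht
      rw [h5, hinj i hi j hj ht]
  have hhome : c home = 1 := by
    show ∑ σ : Equiv.Perm {j // j ∈ J}, ∑ τ : {j // j ∈ J} → I,
      wt home alt J lab sh σ τ home = 1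
    have huniq : ∀ (σ : Equiv.Perm {j // j ∈ J}) (τ : {j // j ∈ J} → I),
        (∀ i, lab (τ i) = (σ i : ℕ)) → (∀ i, home (τ i) = sh i) → ∀ i, τ i = ld i := by
      intro σ τ h5 h6
      have main : ∀ n : ℕ, ∀ i : {j // j ∈ J}, (i : ℕ) = n → τ i = ld i := by
        intro n
        induction n using Nat.strong_induction_on with
        | _ n ih =>
          intro i hi
          rcases htok i i.2 (τ i) (h6 i) with h7 | h7
          · exact h7
          · exfalso
            have h8 : (σ i : ℕ) < i := by
              rw [← h5 i, h7]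
              exact h2 i i.2
            have h9 := ih (σ i) (by rw [← hi]; exact h8) (σ i) rfl
            have h10 : (σ (σ i) : ℕ) = (σ i : ℕ) := by
              rw [← h5 (σ i), h9]
              exact h1 _ (σ i).2
            have h11 : σ i = i := σ.injective (Subtype.ext h10)
            rw [h11] at h8
            exact lt_irrefl _ h8
      exact fun i => main i i rfl
    rw [Finset.sum_eq_single (1 : Equiv.Perm {j // j ∈ J})]
    · rw [Finset.sum_eq_single (fun i : {j // j ∈ J} => ld i)]
      · unfold wt
        rw [if_pos]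
        refine ⟨fun i => h1 i i.2, fun i => rfl, fun t => Or.inl rfl, ?_⟩
        intro w
        obtain ⟨u, hu1, hu2⟩ := h4 w
        refine ⟨u, ⟨fun j => hu1.2 j j.2, hu1.1⟩, ?_⟩
        rintro t ⟨ht1, ht2⟩
        exact hu2 t ⟨ht2, fun j hj => ht1 ⟨j, hj⟩⟩
      · intro τ _ hτ
        unfold wt
        rw [if_neg]
        rintro ⟨h5, h6, _, _⟩
        exact hτ (funext (huniq 1 τ h5 h6))
      · intro h
        exact absurd (Finset.mem_univ _) h
    · intro σ _ hσ
      apply Finset.sum_eq_zero
      intro τ _
      unfold wt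
      rw [if_neg]
      rintro ⟨h5, h6, _, _⟩
      apply hσ
      have h7 := huniq σ τ h5 h6
      apply Equiv.ext
      intro i
      apply Subtype.ext
      rw [← h5 i, h7 i, h1 i i.2]
      rfl
    · intro h
      exact absurd (Finset.mem_univ _) h
  obtain ⟨f, hf, hcf⟩ : ∃ f, f ≠ home ∧ c f ≠ 0 := by
    by_contra hcon
    push Not at hcon
    rw [Finset.sum_eq_single home (fun f _ hf => hcon f hf)
      (fun h => absurd (Finset.mem_univ _) h), hhome] at hsum
    exact one_ne_zero hsum
  obtain ⟨σ0, τ0, h5, h6, h7, h8⟩ : ∃ (σ : Equiv.Perm {j // j ∈ J}) (τ : {j // j ∈ J} → I),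
      (∀ i, lab (τ i) = (σ i : ℕ)) ∧ (∀ i, f (τ i) = sh i) ∧
      (∀ t, f t = home t ∨ f t = alt t) ∧ (∀ w, ∃! t, (∀ j, t ≠ τ j) ∧ f t = w) := by
    by_contra hcon
    push Not at hcon
    apply hcf
    apply Finset.sum_eq_zero
    intro σ _
    apply Finset.sum_eq_zero
    intro τ _
    unfold wt
    rw [if_neg]
    rintro ⟨a1, a2, a3, a4⟩
    obtain ⟨w, hw⟩ := hcon σ τ a1 a2 a3
    exact hw (a4 w)
  -- number of tokens at a hub
  have hcount : ∀ (g : I → H) (τ : {j // j ∈ J} → I), (∀ i, g (τ i) = sh i) →
      (∀ w, ∃! t, (∀ j, t ≠ τ j) ∧ g t = w) → ∀ w,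
      (univ.filter (fun t => g t = w)).card = (if ∃ j, sh j = w then 2 else 1) := by
    intro g τ b1 b2 w
    obtain ⟨u, ⟨hu1, hu2⟩, hu3⟩ := b2 w
    by_cases hw : ∃ j, sh j = w
    · rw [if_pos hw]
      obtain ⟨j, hj⟩ := hw
      have : univ.filter (fun t => g t = w) = {τ j, u} := by
        ext t
        simp only [Finset.mem_filter, Finset.mem_univ, true_and, Finset.mem_insert,
          Finset.mem_singleton]
        constructor
        · intro ht
          by_cases h : ∀ i, t ≠ τ i
          · right
            exact hu3 t ⟨h, ht⟩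
          · left
            push Not at h
            obtain ⟨i, hi⟩ := h
            rw [hi, b1 i, ← hj] at ht
            rw [hi, hsh ht]
        · rintro (rfl | rfl)
          · rw [b1 j, hj]
          · exact hu2
      rw [this, Finset.card_pair (hu1 j).symm]
    · rw [if_neg hw]
      rw [Finset.card_eq_one]
      refine ⟨u, ?_⟩
      ext t
      simp only [Finset.mem_filter, Finset.mem_univ, true_and, Finset.mem_singleton]
      constructor
      · intro ht
        apply hu3
        refine ⟨?_, ht⟩
        intro i hi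
        apply hw
        exact ⟨i, by rw [← b1 i, ← hi, ht]⟩
      · rintro rfl
        exact hu2
  have hcap := hcount f τ0 h6 h8
  have hcap0 := hcount home (fun i => ld i) (fun i => rfl) (by
    intro w
    obtain ⟨u, hu1, hu2⟩ := h4 w
    refine ⟨u, ⟨fun j => hu1.2 j j.2, hu1.1⟩, ?_⟩
    rintro t ⟨ht1, ht2⟩
    exact hu2 t ⟨ht2, fun j hj => ht1 ⟨j, hj⟩⟩)
  refine ⟨f, hf, h7, fun w => (hcap w).trans (hcap0 w).symm, ?_⟩
  intro U hU0 hU j0 hj0 hUj0
  apply hcf
  -- the matrix
  let A : Matrix {j // j ∈ J} {j // j ∈ J} (ZMod 2) := fun i k =>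
    ∑ t : I, if lab t = (i : ℕ) ∧ f t = sh k then 1 else 0
  have hdet : A.det = 0 := by
    apply Matrix.exists_vecMul_eq_zero_iff.mp
    refine ⟨fun i => if U i then 1 else 0, ?_, ?_⟩
    · intro h
      have := congrFun h ⟨j0, hj0⟩
      simp [hUj0] at this
    · funext k
      simp only [Matrix.vecMul, dotProduct, Pi.zero_apply, A]
      have e1 : ∀ i : {j // j ∈ J}, (if U i then (1 : ZMod 2) else 0) *
          ∑ t : I, (if lab t = (i : ℕ) ∧ f t = sh k then (1 : ZMod 2) else 0) =
          ∑ t : I, (if lab t = (i : ℕ) ∧ f t = sh k ∧ U (lab t) then (1 : ZMod 2) else 0) := by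
        intro i
        rw [Finset.mul_sum]
        apply Finset.sum_congr rfl
        intro t _
        by_cases hi : lab t = (i : ℕ)
        · by_cases hUi : U i
          · simp [hi, hUi]
          · simp [hi, hUi]
        · simp [hi]
      rw [Finset.sum_congr rfl (fun i _ => e1 i), Finset.sum_comm]
      have e2 : ∀ t : I, ∑ i : {j // j ∈ J},
          (if lab t = (i : ℕ) ∧ f t = sh k ∧ U (lab t) then (1 : ZMod 2) else 0) =
          if f t = sh k ∧ U (lab t) then 1 else 0 := by
        intro t
        by_cases ht : f t = sh k ∧ U (lab t)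
        · rw [if_pos ht]
          have hl : lab t ∈ J := by
            rcases h0 t with h | h
            · exact h
            · rw [h] at ht
              exact absurd ht.2 hU0
          rw [Finset.sum_eq_single ⟨lab t, hl⟩]
          · rw [if_pos ⟨rfl, ht⟩]
          · intro i _ hi
            rw [if_neg]
            rintro ⟨h, _⟩
            exact hi (Subtype.ext h.symm)
          · intro h
            exact absurd (Finset.mem_univ _) h
        · rw [if_neg ht]
          apply Finset.sum_eq_zero
          intro i _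
          rw [if_neg]
          rintro ⟨_, h⟩
          exact ht h
      rw [Finset.sum_congr rfl (fun t _ => e2 t), ← Finset.sum_filter, Finset.sum_const,
        nsmul_eq_mul, mul_one]
      by_cases hex : ∃ t, f t = sh k ∧ U (lab t)
      · obtain ⟨t, ht1, ht2⟩ := hex
        have : univ.filter (fun t => f t = sh k ∧ U (lab t)) = univ.filter (fun t => f t = sh k) := by
          ext t'
          simp only [Finset.mem_filter, Finset.mem_univ, true_and]
          constructor
          · exact fun h => h.1
          · intro h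
            exact ⟨h, (hU t t' (ht1.trans h.symm)).mp ht2⟩
        rw [this, hcap, if_pos ⟨k, rfl⟩]
        rfl
      · have : univ.filter (fun t => f t = sh k ∧ U (lab t)) = ∅ := by
          apply Finset.filter_eq_empty_iff.mpr
          intro t _ ht
          exact hex ⟨t, ht⟩
        rw [this]
        rfl
  rw [det_two] at hdet
  rw [← hdet]
  show ∑ σ : Equiv.Perm {j // j ∈ J}, ∑ τ : {j // j ∈ J} → I,
      wt home alt J lab sh σ τ f = _
  apply Finset.sum_congr rfl
  intro σ _
  simp only [A]
  rw [Finset.prod_univ_sum, Fintype.piFinset_univ]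
  apply Finset.sum_congr rfl
  intro τ _
  unfold wt
  by_cases hgood : ∀ i, lab (τ i) = (σ i : ℕ) ∧ f (τ i) = sh i
  · rw [if_pos, Finset.prod_eq_one]
    · intro i _
      exact if_pos (hgood i)
    · refine ⟨fun i => (hgood i).1, fun i => (hgood i).2, h7, ?_⟩
      have hinjτ : Function.Injective τ := by
        intro i k hik
        apply hsh
        rw [← (hgood i).2, ← (hgood k).2, hik]
      intro w
      by_cases hw : ∃ j, sh j = w
      · obtain ⟨j, hj⟩ := hw
        have hc := hcap w
        rw [if_pos ⟨j, hj⟩, Finset.card_eq_two] at hc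
        obtain ⟨x, y, hxy, hset⟩ := hc
        have hmem : ∀ t, f t = w ↔ t = x ∨ t = y := by
          intro t
          have : t ∈ univ.filter (fun t => f t = w) ↔ t ∈ ({x, y} : Finset I) := by rw [hset]
          simpa using this
        have hτj := (hmem (τ j)).mp (by rw [(hgood j).2, hj])
        have hother : ∀ i, f (τ i) = w → i = j := by
          intro i hi
          apply hsh
          rw [← (hgood i).2, hi, hj]
        rcases hτj with h | h
        · refine ⟨y, ⟨?_, (hmem y).mpr (Or.inr rfl)⟩, ?_⟩
          · intro i hi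
            have := hother i (by rw [← hi]; exact (hmem y).mpr (Or.inr rfl))
            rw [this, h] at hi
            exact hxy hi.symm
          · rintro t ⟨ht1, ht2⟩
            rcases (hmem t).mp ht2 with h' | h'
            · exact absurd (h'.trans h.symm) (ht1 j)
            · exact h'
        · refine ⟨x, ⟨?_, (hmem x).mpr (Or.inl rfl)⟩, ?_⟩
          · intro i hi
            have := hother i (by rw [← hi]; exact (hmem x).mpr (Or.inl rfl))
            rw [this, h] at hi
            exact hxy hi
          · rintro t ⟨ht1, ht2⟩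
            rcases (hmem t).mp ht2 with h' | h'
            · exact h'
            · exact absurd (h'.trans h.symm) (ht1 j)
      · have hc := hcap w
        rw [if_neg hw, Finset.card_eq_one] at hc
        obtain ⟨x, hset⟩ := hc
        have hmem : ∀ t, f t = w ↔ t = x := by
          intro t
          have : t ∈ univ.filter (fun t => f t = w) ↔ t ∈ ({x} : Finset I) := by rw [hset]
          simpa using this
        refine ⟨x, ⟨?_, (hmem x).mpr rfl⟩, ?_⟩
        · intro i hi
          apply hw
          exact ⟨i, by rw [← (hgood i).2, ← hi]; exact (hmem x).mpr rfl⟩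
        · rintro t ⟨_, ht2⟩
          exact (hmem t).mp ht2
  · rw [if_neg]
    · push Not at hgood
      obtain ⟨i, hi⟩ := hgood
      symm
      apply Finset.prod_eq_zero (Finset.mem_univ i)
      rw [if_neg]
      rintro ⟨b1, b2⟩
      exact hi b1 b2
    · rintro ⟨b1, b2, _, _⟩
      exact hgood (fun i => ⟨b1 i, b2 i⟩)

end

end Pool.Agent.H10.SF3
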