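import Mathlib

/-! Merging two components of a 2-regular graph by the exchange of two edges. -/

namespace Pool.Agent.H10.SF3

section PB

variable {V : Type}

/-- Exchange of two edges `{t, w}`, `{t', w'}` for `{t, w'}`, `{t', w}`. -/
def exch (F : SimpleGraph V) (t w t' w' : V) (h1 : t ≠ w') (h2 : t' ≠ w) : SimpleGraph V where
  Adj u v := (F.Adj u v ∧ ¬(u = t ∧ v = w) ∧ ¬(u = w ∧ v = t) ∧ ¬(u = t' ∧ v = w') ∧
    ¬(u = w' ∧ v = t')) ∨ (u = t ∧ v = w') ∨ (u = w' ∧ v = t) ∨ (u = t' ∧ v = w) ∨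
    (u = w ∧ v = t')
  symm := ⟨by
    intro u v h
    rcases h with ⟨h, a, b, c, d⟩ | h | h | h | h
    · exact Or.inl ⟨h.symm, fun e => b ⟨e.2, e.1⟩, fun e => a ⟨e.2, e.1⟩,
        fun e => d ⟨e.2, e.1⟩, fun e => c ⟨e.2, e.1⟩⟩
    · exact Or.inr (Or.inr (Or.inl ⟨h.2, h.1⟩))
    · exact Or.inr (Or.inl ⟨h.2, h.1⟩)
    · exact Or.inr (Or.inr (Or.inr (Or.inr ⟨h.2, h.1⟩)))
    · exact Or.inr (Or.inr (Or.inr (Or.inl ⟨h.2, h.1⟩)))⟩
  loopless := ⟨by
    intro u h
    rcases h with ⟨h, _⟩ | ⟨h, h'⟩ | ⟨h, h'⟩ | ⟨h, h'⟩ | ⟨h, h'⟩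
    · exact F.loopless.irrefl u h
    · exact h1 (h.symm.trans h')
    · exact h1 (h'.symm.trans h)
    · exact h2 (h.symm.trans h')
    · exact h2 (h'.symm.trans h)⟩

theorem exch_adj (F : SimpleGraph V) (t w t' w' : V) (h1 : t ≠ w') (h2 : t' ≠ w) (u v : V) :
    (exch F t w t' w' h1 h2).Adj u v ↔ (F.Adj u v ∧ ¬(u = t ∧ v = w) ∧ ¬(u = w ∧ v = t) ∧
      ¬(u = t' ∧ v = w') ∧ ¬(u = w' ∧ v = t')) ∨ (u = t ∧ v = w') ∨ (u = w' ∧ v = t) ∨
      (u = t' ∧ v = w) ∨ (u = w ∧ v = t') := Iff.rfl

/-- The exchange keeps all degrees. -/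
theorem exch_regular (F : SimpleGraph V) (h2r : ∀ v, (F.neighborSet v).ncard = 2)
    (t w t' w' : V) (h1 : t ≠ w') (h2 : t' ≠ w) (htw : F.Adj t w) (htw' : F.Adj t' w')
    (hn1 : ¬ F.Adj t w') (hn2 : ¬ F.Adj t' w) (htt : t ≠ t') (hww : w ≠ w') (v : V) :
    ((exch F t w t' w' h1 h2).neighborSet v).ncard = 2 := by
  classical
  have a1 : t ≠ w := htw.ne
  have a2 : t' ≠ w' := htw'.ne
  rw [← h2r v]
  by_cases e1 : v = t
  · subst e1
    rw [← Set.ncard_exchange (s := F.neighborSet v) (a := w') (b := w) hn1 htw]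
    congr 1
    ext u
    change (exch F v w t' w' h1 h2).Adj v u ↔ u = w' ∨ (F.Adj v u ∧ u ≠ w)
    rw [exch_adj]
    constructor
    · rintro (⟨h, a, _⟩ | ⟨_, h⟩ | ⟨h, _⟩ | ⟨h, _⟩ | ⟨h, _⟩)
      · exact Or.inr ⟨h, fun e => a ⟨rfl, e⟩⟩
      · exact Or.inl h
      · exact absurd h h1
      · exact absurd h htt
      · exact absurd h a1
    · rintro (h | ⟨h, a⟩)
      · exact Or.inr (Or.inl ⟨rfl, h⟩)
      · exact Or.inl ⟨h, fun e => a e.2, fun e => a1 e.1, fun e => htt e.1, fun e => h1 e.1⟩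
  by_cases e2 : v = w
  · subst e2
    rw [← Set.ncard_exchange (s := F.neighborSet v) (a := t') (b := t)
      (fun h => hn2 h.symm) htw.symm]
    congr 1
    ext u
    change (exch F t v t' w' h1 h2).Adj v u ↔ u = t' ∨ (F.Adj v u ∧ u ≠ t)
    rw [exch_adj]
    constructor
    · rintro (⟨h, _, a, _⟩ | ⟨h, _⟩ | ⟨h, _⟩ | ⟨h, _⟩ | ⟨_, h⟩)
      · exact Or.inr ⟨h, fun e => a ⟨rfl, e⟩⟩
      · exact absurd h e1
      · exact absurd h hww
      · exact absurd h h2.symm
      · exact Or.inl h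
    · rintro (h | ⟨h, a⟩)
      · exact Or.inr (Or.inr (Or.inr (Or.inr ⟨rfl, h⟩)))
      · exact Or.inl ⟨h, fun e => e1 e.1, fun e => a e.2, fun e => h2 e.1.symm,
          fun e => hww e.1⟩
  by_cases e3 : v = t'
  · subst e3
    rw [← Set.ncard_exchange (s := F.neighborSet v) (a := w) (b := w') hn2 htw']
    congr 1
    ext u
    change (exch F t w v w' h1 h2).Adj v u ↔ u = w ∨ (F.Adj v u ∧ u ≠ w')
    rw [exch_adj]
    constructor
    · rintro (⟨h, _, _, a, _⟩ | ⟨h, _⟩ | ⟨h, _⟩ | ⟨_, h⟩ | ⟨h, _⟩)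
      · exact Or.inr ⟨h, fun e => a ⟨rfl, e⟩⟩
      · exact absurd h e1
      · exact absurd h a2
      · exact Or.inl h
      · exact absurd h e2
    · rintro (h | ⟨h, a⟩)
      · exact Or.inr (Or.inr (Or.inr (Or.inl ⟨rfl, h⟩)))
      · exact Or.inl ⟨h, fun e => e1 e.1, fun e => e2 e.1, fun e => a e.2, fun e => a2 e.1⟩
  by_cases e4 : v = w'
  · subst e4
    rw [← Set.ncard_exchange (s := F.neighborSet v) (a := t) (b := t')
      (fun h => hn1 h.symm) htw'.symm]
    congr 1
    ext u
    change (exch F t w t' v h1 h2).Adj v u ↔ u = t ∨ (F.Adj v u ∧ u ≠ t')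
    rw [exch_adj]
    constructor
    · rintro (⟨h, _, _, _, a⟩ | ⟨h, _⟩ | ⟨_, h⟩ | ⟨h, _⟩ | ⟨h, _⟩)
      · exact Or.inr ⟨h, fun e => a ⟨rfl, e⟩⟩
      · exact absurd h e1
      · exact Or.inl h
      · exact absurd h e3
      · exact absurd h e2
    · rintro (h | ⟨h, a⟩)
      · exact Or.inr (Or.inr (Or.inl ⟨rfl, h⟩))
      · exact Or.inl ⟨h, fun e => e1 e.1, fun e => e2 e.1, fun e => e3 e.1, fun e => a e.2⟩
  · congr 1
    ext u
    simp only [SimpleGraph.mem_neighborSet, exch_adj]
    constructor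
    · rintro (⟨h, _⟩ | ⟨h, _⟩ | ⟨h, _⟩ | ⟨h, _⟩ | ⟨h, _⟩)
      · exact h
      · exact absurd h e1
      · exact absurd h e4
      · exact absurd h e3
      · exact absurd h e2
    · intro h
      exact Or.inl ⟨h, fun e => e1 e.1, fun e => e2 e.1, fun e => e3 e.1, fun e => e4 e.1⟩

theorem reach_of_adj {F F' : SimpleGraph V} (h : ∀ u v, F.Adj u v → F'.Reachable u v) :
    ∀ u v, F.Reachable u v → F'.Reachable u v := by
  rintro u v ⟨p⟩
  induction p with
  | nil => exact SimpleGraph.Reachable.refl _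
  | cons h' _ ih => exact (h _ _ h').trans ih

/-- In a 2-regular graph the ends of an edge stay connected without it, inside the component. -/
theorem reach_del [Finite V] (F : SimpleGraph V) (h2r : ∀ v, (F.neighborSet v).ncard = 2)
    (F' : SimpleGraph V) (t w : V) (htw : F.Adj t w)
    (hF' : ∀ u v, F.Reachable t u → F.Adj u v → ¬(u = t ∧ v = w) → ¬(u = w ∧ v = t) →
      F'.Adj u v) : F'.Reachable t w := by
  have hc : F.IsCycles := fun v _ => h2r v
  obtain ⟨p⟩ := hc.reachable_deleteEdges htw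
  have key : ∀ (a b : V) (p : (F.deleteEdges {s(t, w)}).Walk a b), F.Reachable t a →
      F'.Reachable a b := by
    intro a b p
    induction p with
    | nil => intro _; exact SimpleGraph.Reachable.refl _
    | cons h _ ih =>
      intro ha
      rw [SimpleGraph.deleteEdges_adj] at h
      obtain ⟨h3, h4⟩ := h
      have h5 := hF' _ _ ha h3 (fun e => h4 (by rw [e.1, e.2]; rfl))
        (fun e => h4 (by rw [e.1, e.2]; exact Sym2.eq_swap))
      exact h5.reachable.trans (ih (ha.trans h3.reachable))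
  exact key _ _ p (SimpleGraph.Reachable.refl _)

/-- The components after the exchange. -/
theorem exch_reach [Finite V] (F : SimpleGraph V) (h2r : ∀ v, (F.neighborSet v).ncard = 2)
    (t w t' w' : V) (h1 : t ≠ w') (h2 : t' ≠ w) (htw : F.Adj t w) (htw' : F.Adj t' w')
    (hne : ¬ F.Reachable w w') (x y : V) :
    (exch F t w t' w' h1 h2).Reachable x y ↔ F.Reachable x y ∨
      ((F.Reachable w x ∨ F.Reachable w' x) ∧ (F.Reachable w y ∨ F.Reachable w' y)) := by
  set F' := exch F t w t' w' h1 h2 with hF'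
  have r1 : F.Reachable w t := htw.symm.reachable
  have r2 : F.Reachable w' t' := htw'.symm.reachable
  -- the ends of the deleted edges
  have k1 : F'.Reachable t w := by
    refine reach_del F h2r F' t w htw ?_
    intro u v hu huv a b
    have hwu : F.Reachable w u := r1.trans hu
    refine Or.inl ⟨huv, a, b, ?_, ?_⟩
    · rintro ⟨e, _⟩
      rw [e] at hwu
      exact hne (hwu.trans r2.symm)
    · rintro ⟨e, _⟩
      rw [e] at hwu
      exact hne hwu
  have k2 : F'.Reachable t' w' := by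
    refine reach_del F h2r F' t' w' htw' ?_
    intro u v hu huv a b
    have hwu : F.Reachable w' u := r2.trans hu
    refine Or.inl ⟨huv, ?_, ?_, a, b⟩
    · rintro ⟨e, _⟩
      rw [e] at hwu
      exact hne (hwu.trans r1.symm).symm
    · rintro ⟨e, _⟩
      rw [e] at hwu
      exact hne hwu.symm
  have k3 : ∀ u v, F.Reachable u v → F'.Reachable u v := by
    refine reach_of_adj ?_
    intro u v huv
    by_cases a : u = t ∧ v = w
    · rw [a.1, a.2]; exact k1
    by_cases b : u = w ∧ v = t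
    · rw [b.1, b.2]; exact k1.symm
    by_cases c : u = t' ∧ v = w'
    · rw [c.1, c.2]; exact k2
    by_cases d : u = w' ∧ v = t'
    · rw [d.1, d.2]; exact k2.symm
    have : F'.Adj u v := Or.inl ⟨huv, a, b, c, d⟩
    exact this.reachable
  have k4 : F'.Reachable w w' := by
    have e1 : F'.Adj t w' := Or.inr (Or.inl ⟨rfl, rfl⟩)
    exact k1.symm.trans e1.reachable
  constructor
  · rintro ⟨p⟩
    induction p with
    | nil => exact Or.inl (SimpleGraph.Reachable.refl _)
    | @cons a b c h _ ih =>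
      have h3 : F.Reachable a b ∨ ((F.Reachable w a ∨ F.Reachable w' a) ∧
          (F.Reachable w b ∨ F.Reachable w' b)) := by
        rcases h with ⟨h, _⟩ | ⟨e, e'⟩ | ⟨e, e'⟩ | ⟨e, e'⟩ | ⟨e, e'⟩
        · exact Or.inl h.reachable
        · rw [e, e']
          exact Or.inr ⟨Or.inl r1, Or.inr (SimpleGraph.Reachable.refl _)⟩
        · rw [e, e']
          exact Or.inr ⟨Or.inr (SimpleGraph.Reachable.refl _), Or.inl r1⟩
        · rw [e, e']
          exact Or.inr ⟨Or.inr r2, Or.inl (SimpleGraph.Reachable.refl _)⟩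
        · rw [e, e']
          exact Or.inr ⟨Or.inl (SimpleGraph.Reachable.refl _), Or.inr r2⟩
      rcases h3 with h3 | ⟨h3, h4⟩
      · rcases ih with ih | ⟨ih1, ih2⟩
        · exact Or.inl (h3.trans ih)
        · refine Or.inr ⟨?_, ih2⟩
          rcases ih1 with ih1 | ih1
          · exact Or.inl (ih1.trans h3.symm)
          · exact Or.inr (ih1.trans h3.symm)
      · rcases ih with ih | ⟨ih1, ih2⟩
        · refine Or.inr ⟨h3, ?_⟩
          rcases h4 with h4 | h4
          · exact Or.inl (h4.trans ih)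
          · exact Or.inr (h4.trans ih)
        · exact Or.inr ⟨h3, ih2⟩
  · rintro (h | ⟨h3, h4⟩)
    · exact k3 _ _ h
    · have e3 : F'.Reachable w x := by
        rcases h3 with h3 | h3
        · exact k3 _ _ h3
        · exact k4.trans (k3 _ _ h3)
      have e4 : F'.Reachable w y := by
        rcases h4 with h4 | h4
        · exact k3 _ _ h4
        · exact k4.trans (k3 _ _ h4)
      exact e3.symm.trans e4

/-- The exchange merges exactly two components. -/
theorem exch_card [Finite V] (F : SimpleGraph V) (h2r : ∀ v, (F.neighborSet v).ncard = 2)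
    (t w t' w' : V) (h1 : t ≠ w') (h2 : t' ≠ w) (htw : F.Adj t w) (htw' : F.Adj t' w')
    (hne : ¬ F.Reachable w w') :
    Nat.card (exch F t w t' w' h1 h2).ConnectedComponent + 1 = Nat.card F.ConnectedComponent := by
  classical
  have hR := exch_reach F h2r t w t' w' h1 h2 htw htw' hne
  set F' := exch F t w t' w' h1 h2 with hF'
  have hle : ∀ u v, F.Reachable u v → F'.Reachable u v := fun u v h => (hR u v).mpr (Or.inl h)
  let φ : F.ConnectedComponent → F'.ConnectedComponent :=
    SimpleGraph.ConnectedComponent.lift (fun v => F'.connectedComponentMk v)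
      (fun u v p _ => SimpleGraph.ConnectedComponent.sound (hle u v ⟨p⟩))
  have hφ : ∀ v, φ (F.connectedComponentMk v) = F'.connectedComponentMk v := fun v => rfl
  let ψ : {c : F.ConnectedComponent // c ≠ F.connectedComponentMk w'} → F'.ConnectedComponent :=
    fun c => φ c.1
  have hbij : Function.Bijective ψ := by
    constructor
    · rintro ⟨c, hc⟩ ⟨c', hc'⟩ h
      induction c using SimpleGraph.ConnectedComponent.ind with | _ v =>
      induction c' using SimpleGraph.ConnectedComponent.ind with | _ u =>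
      have h3 : F'.Reachable v u := SimpleGraph.ConnectedComponent.exact h
      have hv : ¬ F.Reachable w' v := fun h => hc (SimpleGraph.ConnectedComponent.sound h.symm)
      have hu : ¬ F.Reachable w' u := fun h => hc' (SimpleGraph.ConnectedComponent.sound h.symm)
      apply Subtype.ext
      apply SimpleGraph.ConnectedComponent.sound
      rcases (hR v u).mp h3 with h4 | ⟨h4 | h4, h5 | h5⟩
      · exact h4
      · exact h4.symm.trans h5
      · exact absurd h5 hu
      · exact absurd h4 hv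
      · exact absurd h4 hv
    · intro c
      induction c using SimpleGraph.ConnectedComponent.ind with | _ v =>
      by_cases hv : F.Reachable w' v
      · refine ⟨⟨F.connectedComponentMk w, ?_⟩, ?_⟩
        · intro h
          exact hne (SimpleGraph.ConnectedComponent.exact h)
        · apply SimpleGraph.ConnectedComponent.sound
          exact (hR w v).mpr (Or.inr ⟨Or.inl (SimpleGraph.Reachable.refl _), Or.inr hv⟩)
      · refine ⟨⟨F.connectedComponentMk v, ?_⟩, rfl⟩
        intro h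
        exact hv (SimpleGraph.ConnectedComponent.exact h).symm
  have : Finite F.ConnectedComponent := inferInstance
  have := Fintype.ofFinite F.ConnectedComponent
  rw [← Nat.card_congr (Equiv.ofBijective ψ hbij), Nat.card_eq_fintype_card,
    Nat.card_eq_fintype_card, Fintype.card_subtype_compl, Fintype.card_subtype_eq]
  have hpos : 0 < Fintype.card F.ConnectedComponent :=
    Fintype.card_pos_iff.mpr ⟨F.connectedComponentMk w'⟩
  omega

/-- Merging down to exactly `m` components. -/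
theorem merge [Fintype V] [DecidableEq V] (F : SimpleGraph V)
    (h2 : ∀ v, (F.neighborSet v).ncard = 2)
    (B : Finset V) (pr : V → V) (hpr : ∀ w ∈ B, pr w ∈ B ∧ pr w ≠ w ∧ pr (pr w) = w)
    (mk : V → V → Prop) (hmk : ∀ x w, w ∈ B → (mk x (pr w) ↔ mk x w))
    (hB : ∀ w ∈ B, ∃ t, t ∉ B ∧ F.Adj t w ∧ mk t w)
    (hBB : ∀ u ∈ B, ∀ v ∈ B, ¬ F.Adj u v)
    (conn : ∀ C : Set V, (∀ u v, F.Adj u v → (u ∈ C ↔ v ∈ C)) →
      (∀ w ∈ B, (w ∈ C ↔ pr w ∈ C)) → C = ∅ ∨ C = Set.univ)
    (m : ℕ) (hm : 1 ≤ m) (hk : m ≤ Nat.card F.ConnectedComponent) :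
    ∃ F' : SimpleGraph V, (∀ v, (F'.neighborSet v).ncard = 2) ∧
      Nat.card F'.ConnectedComponent = m ∧
      (∀ u v, F'.Adj u v → F.Adj u v ∨ (v ∈ B ∧ mk u v) ∨ (u ∈ B ∧ mk v u)) := by
  classical
  obtain ⟨k, hk'⟩ : ∃ k, Nat.card F.ConnectedComponent = m + k := ⟨_, (Nat.add_sub_of_le hk).symm⟩
  induction k generalizing F with
  | zero => exact ⟨F, h2, by simpa using hk', fun u v h => Or.inl h⟩
  | succ k ih =>
    -- a pair with hubs in different components
    have hex : ∃ w ∈ B, ¬ F.Reachable w (pr w) := by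
      by_contra hcon
      push Not at hcon
      have hfin : Finite F.ConnectedComponent := inferInstance
      have hne : Nontrivial F.ConnectedComponent := by
        rw [← Finite.one_lt_card_iff_nontrivial]
        omega
      obtain ⟨c, c', hcc⟩ := exists_pair_ne F.ConnectedComponent
      have h3 := conn {v | F.connectedComponentMk v = c} ?_ ?_
      · rcases h3 with h3 | h3
        · induction c using SimpleGraph.ConnectedComponent.ind with | _ v =>
          have : v ∈ ({u | F.connectedComponentMk u = F.connectedComponentMk v} : Set V) := rfl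
          rw [h3] at this
          exact this
        · induction c' using SimpleGraph.ConnectedComponent.ind with | _ v =>
          have : v ∈ ({u | F.connectedComponentMk u = c} : Set V) := by rw [h3]; trivial
          exact hcc this.symm
      · intro u v huv
        have : F.connectedComponentMk u = F.connectedComponentMk v :=
          SimpleGraph.ConnectedComponent.sound huv.reachable
        simp only [Set.mem_ofPred_eq, this]
      · intro w hw
        have : F.connectedComponentMk w = F.connectedComponentMk (pr w) :=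
          SimpleGraph.ConnectedComponent.sound (hcon w hw)
        simp only [Set.mem_ofPred_eq, this]
    obtain ⟨w, hw, hne⟩ := hex
    obtain ⟨p1, p2, p3⟩ := hpr w hw
    obtain ⟨t, ht, htw, hmt⟩ := hB w hw
    obtain ⟨t', ht', htw', hmt'⟩ := hB (pr w) p1
    have h1 : t ≠ pr w := fun h => ht (h ▸ p1)
    have h1' : t' ≠ w := fun h => ht' (h ▸ hw)
    have r1 : F.Reachable w t := htw.symm.reachable
    have r2 : F.Reachable (pr w) t' := htw'.symm.reachable
    have hn1 : ¬ F.Adj t (pr w) := fun h => hne (r1.trans h.reachable)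
    have hn2 : ¬ F.Adj t' w := fun h => hne (r2.trans h.reachable).symm
    have htt : t ≠ t' := fun h => hne (r1.trans (h ▸ r2.symm))
    have hcard := exch_card F h2 t w t' (pr w) h1 h1' htw htw' hne
    have hreg := exch_regular F h2 t w t' (pr w) h1 h1' htw htw' hn1 hn2 htt p2.symm
    have hR := exch_reach F h2 t w t' (pr w) h1 h1' htw htw' hne
    set F1 := exch F t w t' (pr w) h1 h1' with hF1
    have hmt1 : mk t (pr w) := (hmk t w hw).mpr hmt
    have hmt2 : mk t' w := (hmk t' w hw).mp hmt'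
    have hB1 : ∀ u ∈ B, ∃ t, t ∉ B ∧ F1.Adj t u ∧ mk t u := by
      intro u hu
      by_cases e1 : u = w
      · rw [e1]
        exact ⟨t', ht', Or.inr (Or.inr (Or.inr (Or.inl ⟨rfl, rfl⟩))), hmt2⟩
      by_cases e2 : u = pr w
      · rw [e2]
        exact ⟨t, ht, Or.inr (Or.inl ⟨rfl, rfl⟩), hmt1⟩
      obtain ⟨x, hx, hxu, hmx⟩ := hB u hu
      refine ⟨x, hx, Or.inl ⟨hxu, fun e => e1 e.2, ?_, fun e => e2 e.2, ?_⟩, hmx⟩
      · rintro ⟨e, _⟩
        exact hx (e ▸ hw)
      · rintro ⟨e, _⟩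
        exact hx (e ▸ p1)
    have hBB1 : ∀ u ∈ B, ∀ v ∈ B, ¬ F1.Adj u v := by
      rintro u hu v hv (⟨h, _⟩ | ⟨e, e'⟩ | ⟨e, e'⟩ | ⟨e, e'⟩ | ⟨e, e'⟩)
      · exact hBB u hu v hv h
      · exact ht (e ▸ hu)
      · exact ht (e' ▸ hv)
      · exact ht' (e ▸ hu)
      · exact ht' (e' ▸ hv)
    have conn1 : ∀ C : Set V, (∀ u v, F1.Adj u v → (u ∈ C ↔ v ∈ C)) →
        (∀ w ∈ B, (w ∈ C ↔ pr w ∈ C)) → C = ∅ ∨ C = Set.univ := by
      intro C hC hCB
      refine conn C ?_ hCB
      have hreach : ∀ u v, F1.Reachable u v → (u ∈ C ↔ v ∈ C) := by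
        rintro u v ⟨p⟩
        induction p with
        | nil => exact Iff.rfl
        | cons h _ ih => exact (hC _ _ h).trans ih
      intro u v huv
      exact hreach u v ((hR u v).mpr (Or.inl huv.reachable))
    obtain ⟨F2, g1, g2, g3⟩ := ih F1 hreg hB1 hBB1 conn1 (by omega) (by omega)
    refine ⟨F2, g1, g2, ?_⟩
    intro u v huv
    rcases g3 u v huv with h | h | h
    · rcases h with ⟨h, _⟩ | ⟨e, e'⟩ | ⟨e, e'⟩ | ⟨e, e'⟩ | ⟨e, e'⟩
      · exact Or.inl h
      · rw [e, e']
        exact Or.inr (Or.inl ⟨p1, hmt1⟩)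
      · rw [e, e']
        exact Or.inr (Or.inr ⟨p1, hmt1⟩)
      · rw [e, e']
        exact Or.inr (Or.inl ⟨hw, hmt2⟩)
      · rw [e, e']
        exact Or.inr (Or.inr ⟨hw, hmt2⟩)
    · exact Or.inr (Or.inl h)
    · exact Or.inr (Or.inr h)

end PB

end Pool.Agent.H10.SF3
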