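import Mathlib
import Pool.Agent.H10.EP.Cyc
import Pool.Agent.H10.SF2.I
import Pool.Agent.H10.SF2.J

set_option linter.unusedSectionVars false

/-!
Best cycles: facts about the pairs of hubs on a Hamiltonian cycle with the maximum number of
marked edges.
-/

namespace Pool.Agent.H10.SF3

open Equiv Equiv.Perm Pool.Agent.H10.SF2

variable {V : Type} [Fintype V] [DecidableEq V]

/-- `x` is joined to both hubs of the pair of `w` -/
def cmp (G : SimpleGraph V) (pr : V → V) (x w : V) : Prop := G.Adj x w ∧ G.Adj x (pr w)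

/-- the marked pairs: a hub and a vertex outside which is joined to both hubs of its pair -/
def mk (G : SimpleGraph V) (W : Finset V) (pr : V → V) (x y : V) : Prop :=
  (x ∉ W ∧ y ∈ W ∧ cmp G pr x y) ∨ (y ∉ W ∧ x ∈ W ∧ cmp G pr y x)

/-- a 2-factor with exactly two components -/
def Two (G : SimpleGraph V) : Prop :=
  ∃ F : SimpleGraph V, F ≤ G ∧ (∀ x, (F.neighborSet x).ncard = 2) ∧
    Nat.card F.ConnectedComponent = 2

/-- admissible cycles -/
structure Adm (G : SimpleGraph V) (s0 : Perm V) (W : Finset V) (s : Perm V) : Prop where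
  cyc : ∀ x y, SameCycle s x y
  adj : ∀ x, G.Adj x (s x)
  lk : ∀ x, x ∉ W → s0 x ∉ W → s x = s0 x ∨ s (s0 x) = x
  hub : ∀ w ∈ W, s w ∉ W

open Classical in
/-- the number of marked edges of a cycle -/
noncomputable def marks (G : SimpleGraph V) (W : Finset V) (pr : V → V) (s : Perm V) : ℕ :=
  (Finset.univ.filter (fun x => mk G W pr x (s x))).card

/-- the standing hypotheses -/
structure Sys (G : SimpleGraph V) (s0 : Perm V) (W : Finset V) (pr : V → V) : Prop where
  cyc0 : ∀ x y, SameCycle s0 x y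
  adj0 : ∀ x, G.Adj x (s0 x)
  hne : W.Nonempty
  prW : ∀ w ∈ W, pr w ∈ W
  prne : ∀ w ∈ W, pr w ≠ w
  prpr : ∀ w ∈ W, pr (pr w) = w
  sp1 : ∀ w ∈ W, s0 w ∉ W
  sp2 : ∀ w ∈ W, s0 (s0 w) ∉ W
  cov : ∀ x, x ∉ W → ∃ w ∈ W, ∃ w' ∈ W, w' ≠ w ∧ w' ≠ pr w ∧ cmp G pr x w ∧ cmp G pr x w'

/-- best cycles -/
structure Best (G : SimpleGraph V) (s0 : Perm V) (W : Finset V) (pr : V → V) (s : Perm V) :
    Prop extends Adm G s0 W s where
  max : ∀ s', Adm G s0 W s' → marks G W pr s' ≤ marks G W pr s

theorem mk_symm {G : SimpleGraph V} {W : Finset V} {pr : V → V} {x y : V}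
    (h : mk G W pr x y) : mk G W pr y x := Or.symm h

theorem mk_cases {G : SimpleGraph V} {W : Finset V} {pr : V → V} {x y : V}
    (h : mk G W pr x y) : (x ∈ W ∧ y ∉ W) ∨ (x ∉ W ∧ y ∈ W) := by
  rcases h with h | h
  · exact Or.inr ⟨h.1, h.2.1⟩
  · exact Or.inl ⟨h.2.1, h.1⟩

theorem mk_adj {G : SimpleGraph V} {W : Finset V} {pr : V → V} {x y : V}
    (h : mk G W pr x y) : G.Adj x y := by
  rcases h with h | h
  · exact h.2.2.1
  · exact h.2.2.1.symm

theorem mk_iff_of {G : SimpleGraph V} {W : Finset V} {pr : V → V} {x w : V} (hx : x ∉ W)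
    (hw : w ∈ W) : mk G W pr x w ↔ cmp G pr x w := by
  constructor
  · rintro (h | h)
    · exact h.2.2
    · exact absurd hw h.1
  · intro h
    exact Or.inl ⟨hx, hw, h⟩

theorem Sys.adm {G : SimpleGraph V} {s0 : Perm V} {W : Finset V} {pr : V → V}
    (S : Sys G s0 W pr) : Adm G s0 W s0 :=
  ⟨S.cyc0, S.adj0, fun _ _ _ => Or.inl rfl, S.sp1⟩

theorem Sys.card {G : SimpleGraph V} {s0 : Perm V} {W : Finset V} {pr : V → V}
    (S : Sys G s0 W pr) : 3 ≤ Fintype.card V := by
  obtain ⟨w, hw⟩ := S.hne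
  have h1 : w ≠ pr w := (S.prne w hw).symm
  have h2 : w ≠ s0 w := fun h => S.sp1 w hw (h ▸ hw)
  have h3 : pr w ≠ s0 w := fun h => S.sp1 w hw (h ▸ S.prW w hw)
  have h4 : ({w, pr w, s0 w} : Finset V).card = 3 := Finset.card_eq_three.2
    ⟨w, pr w, s0 w, h1, h2, h3, rfl⟩
  rw [← h4]
  exact Finset.card_le_univ _

theorem Sys.exists_best {G : SimpleGraph V} {s0 : Perm V} {W : Finset V} {pr : V → V}
    (S : Sys G s0 W pr) : ∃ s, Best G s0 W pr s := by
  classical
  obtain ⟨s, hs, hmax⟩ := Finset.exists_max_image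
    (Finset.univ.filter (fun s => Adm G s0 W s)) (marks G W pr)
    ⟨s0, Finset.mem_filter.2 ⟨Finset.mem_univ _, S.adm⟩⟩
  exact ⟨s, (Finset.mem_filter.1 hs).2,
    fun s' hs' => hmax s' (Finset.mem_filter.2 ⟨Finset.mem_univ _, hs'⟩)⟩

theorem Adm.hub' {G : SimpleGraph V} {s0 : Perm V} {W : Finset V} {s : Perm V}
    (A : Adm G s0 W s) : ∀ w ∈ W, s.symm w ∉ W := by
  intro w hw h
  have := A.hub _ h
  rw [Equiv.apply_symm_apply] at this
  exact this hw

theorem Adm.link {G : SimpleGraph V} {s0 : Perm V} {W : Finset V} {pr : V → V}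
    (S : Sys G s0 W pr) {s : Perm V} (A : Adm G s0 W s) : ∀ w ∈ W, s (s w) ∉ W := by
  intro w hw h
  have hz : s w ∉ W := A.hub w hw
  by_cases h1 : s0 (s w) ∈ W
  · have h2 : s0.symm (s w) ∉ W := by
      intro h2
      have h4 := S.sp2 _ h2
      rw [Equiv.apply_symm_apply] at h4
      exact h4 h1
    rcases A.lk (s0.symm (s w)) h2 (by rw [Equiv.apply_symm_apply]; exact hz) with h4 | h4
    · rw [Equiv.apply_symm_apply] at h4
      rw [s.injective h4] at h2
      exact h2 hw
    · rw [Equiv.apply_symm_apply] at h4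
      rw [← h4] at h2
      exact h2 h
  · rcases A.lk (s w) hz h1 with h4 | h4
    · rw [h4] at h
      exact h1 h
    · exact h1 ((s.injective h4).symm ▸ hw)

theorem Adm.link' {G : SimpleGraph V} {s0 : Perm V} {W : Finset V} {pr : V → V}
    (S : Sys G s0 W pr) {s : Perm V} (A : Adm G s0 W s) : ∀ w ∈ W, s.symm (s.symm w) ∉ W := by
  intro w hw h
  have := A.link S _ h
  rw [Equiv.apply_symm_apply, Equiv.apply_symm_apply] at this
  exact this hw

theorem Adm.inv {G : SimpleGraph V} {s0 : Perm V} {W : Finset V} {s : Perm V}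
    (A : Adm G s0 W s) : Adm G s0 W s⁻¹ := by
  refine ⟨fun x y => sameCycle_inv.2 (A.cyc x y), fun x => ?_, fun x hx hx' => ?_, ?_⟩
  · have := A.adj (s⁻¹ x)
    have h9 : s (s⁻¹ x) = x := Equiv.apply_symm_apply s x
    rw [h9] at this
    exact this.symm
  · rcases A.lk x hx hx' with h | h
    · right
      rw [← h]
      exact Equiv.symm_apply_apply s x
    · left
      rw [Perm.inv_eq_iff_eq]
      exact h.symm
  · exact A.hub'

theorem marks_inv (G : SimpleGraph V) (W : Finset V) (pr : V → V) (s : Perm V) :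
    marks G W pr s⁻¹ = marks G W pr s := by
  classical
  unfold marks
  apply Finset.card_equiv (s⁻¹ : Perm V)
  intro x
  rw [Finset.mem_filter, Finset.mem_filter]
  simp only [Finset.mem_univ, true_and]
  have h9 : s (s⁻¹ x) = x := Equiv.apply_symm_apply s x
  rw [h9]
  exact ⟨mk_symm, mk_symm⟩

/-- (iv) -/
theorem Best.inv {G : SimpleGraph V} {s0 : Perm V} {W : Finset V} {pr : V → V} {s : Perm V}
    (B : Best G s0 W pr s) : Best G s0 W pr s⁻¹ := by
  refine ⟨B.toAdm.inv, fun s' hs' => ?_⟩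
  rw [marks_inv]
  exact B.max s' hs'

/-- The exchange gives a 2-factor with exactly two cycles. -/
theorem two_of_exchange (G : SimpleGraph V) (s : Perm V)
    (hs : ∀ x y, SameCycle s x y) (hV : 3 ≤ Fintype.card V)
    (hadj : ∀ x, G.Adj x (s x)) (x y : V)
    (h1 : y ≠ x) (h2 : y ≠ s x) (h3 : y ≠ s (s x)) (h4 : x ≠ s y) (h5 : x ≠ s (s y))
    (a1 : G.Adj x (s y)) (a2 : G.Adj y (s x)) : Two G := by
  obtain ⟨φ, hφ, hφ2, hφs⟩ := J_exchange s hs hV x y h1 h2 h3 h4 h5
  obtain ⟨F, hF, hF2, hFc⟩ := Pool.Agent.H10.EP.exists_twoFactor' G φ (Equiv.refl V)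
    (fun k => by
      change G.Adj k (φ k)
      rcases hφs k with h | ⟨h, h'⟩ | ⟨h, h'⟩
      · rw [h]; exact hadj k
      · rw [h', h]; exact a1
      · rw [h', h]; exact a2) hφ2
  exact ⟨F, hF, hF2, hFc.trans hφ⟩

/-- (i), entering tokens -/
theorem Adm.fwd {G : SimpleGraph V} {s0 : Perm V} {W : Finset V} {pr : V → V} {s : Perm V}
    (S : Sys G s0 W pr) (hno : ¬ Two G) (A : Adm G s0 W s) :
    ∀ w ∈ W, ¬ (cmp G pr (s.symm w) w ∧ cmp G pr (s.symm (pr w)) (pr w)) := by
  intro w hw ⟨hm, hm'⟩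
  have hw' := S.prW w hw
  have hne' := S.prne w hw
  apply hno
  have hx : s (s.symm w) = w := Equiv.apply_symm_apply _ _
  have hx' : s (s.symm (pr w)) = pr w := Equiv.apply_symm_apply _ _
  refine two_of_exchange G s A.cyc S.card A.adj (s.symm w) (s.symm (pr w)) ?_ ?_ ?_ ?_ ?_ ?_ ?_
  · intro h; exact hne' (s.symm.injective h)
  · rw [hx]; intro h; exact A.hub' _ hw' (by rw [h]; exact hw)
  · rw [hx]; intro h
    have := A.link S w hw
    rw [← h, hx'] at this
    exact this hw'
  · rw [hx']; intro h; exact A.hub' w hw (by rw [h]; exact hw')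
  · rw [hx']; intro h
    have := A.link S _ hw'
    rw [← h, hx] at this
    exact this hw
  · rw [hx']
    exact hm.2
  · rw [hx]
    have := hm'.2
    rw [S.prpr w hw] at this
    exact this

/-- (i), leaving tokens -/
theorem Adm.bwd {G : SimpleGraph V} {s0 : Perm V} {W : Finset V} {pr : V → V} {s : Perm V}
    (S : Sys G s0 W pr) (hno : ¬ Two G) (A : Adm G s0 W s) :
    ∀ w ∈ W, ¬ (cmp G pr (s w) w ∧ cmp G pr (s (pr w)) (pr w)) := by
  intro w hw ⟨hm, hm'⟩
  have hw' := S.prW w hw
  have hne' := S.prne w hw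
  apply hno
  refine two_of_exchange G s A.cyc S.card A.adj w (pr w) hne' ?_ ?_ ?_ ?_ ?_ ?_
  · intro h; exact A.hub w hw (h ▸ hw')
  · intro h; exact A.link S w hw (h ▸ hw')
  · intro h; exact A.hub _ hw' (h ▸ hw)
  · intro h; exact A.link S _ hw' (h ▸ hw)
  · have := hm'.2
    rw [S.prpr w hw] at this
    exact this.symm
  · exact hm.2.symm

/-- `w` is a free hub of `s` -/
def Free (G : SimpleGraph V) (pr : V → V) (s : Perm V) (w : V) : Prop :=
  ¬ cmp G pr (s.symm w) w ∧ ¬ cmp G pr (s w) w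

/-- the pair of `w` is bad, `w` has the complete leaving token, `pr w` the complete entering one -/
def Bad (G : SimpleGraph V) (pr : V → V) (s : Perm V) (w : V) : Prop :=
  cmp G pr (s w) w ∧ ¬ cmp G pr (s.symm w) w ∧
    cmp G pr (s.symm (pr w)) (pr w) ∧ ¬ cmp G pr (s (pr w)) (pr w)

/-- (ii) -/
theorem Adm.free_or_bad {G : SimpleGraph V} {s0 : Perm V} {W : Finset V} {pr : V → V}
    {s : Perm V} (S : Sys G s0 W pr) (hno : ¬ Two G) (A : Adm G s0 W s) :
    ∀ w ∈ W, Free G pr s w ∨ Free G pr s (pr w) ∨ Bad G pr s w ∨ Bad G pr s (pr w) := by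
  intro w hw
  have h1 := A.fwd S hno w hw
  have h2 := A.bwd S hno w hw
  unfold Free Bad
  rw [S.prpr w hw]
  tauto

/-- the powers of a cyclic permutation -/
theorem pow_eq_iff (s : Perm V) (hs : ∀ x y, SameCycle s x y) (u : V) (m n : ℕ) :
    (s ^ m) u = (s ^ n) u ↔ m ≡ n [MOD Fintype.card V] := by
  have hc : s.IsCycleOn ((Finset.univ : Finset V) : Set V) := by
    refine ⟨?_, fun x _ y _ => hs x y⟩
    rw [Finset.coe_univ]
    exact s.bijective.bijOn_univ
  have := hc.pow_apply_eq_pow_apply (Finset.mem_univ u) (m := m) (n := n)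
  rw [Finset.card_univ] at this
  exact this

theorem pow_inj (s : Perm V) (hs : ∀ x y, SameCycle s x y) (u : V) (m n : ℕ)
    (hm : m < Fintype.card V) (hn : n < Fintype.card V) (h : (s ^ m) u = (s ^ n) u) : m = n := by
  rw [pow_eq_iff s hs] at h
  exact Nat.ModEq.eq_of_lt_of_lt h hm hn

theorem exists_pow_lt (s : Perm V) (hs : ∀ x y, SameCycle s x y) (u v : V) :
    ∃ n < Fintype.card V, (s ^ n) u = v := by
  have hc : s.IsCycleOn ((Finset.univ : Finset V) : Set V) := by
    refine ⟨?_, fun x _ y _ => hs x y⟩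
    rw [Finset.coe_univ]
    exact s.bijective.bijOn_univ
  have := hc.exists_pow_eq (Finset.mem_univ u) (Finset.mem_univ v)
  rw [Finset.card_univ] at this
  exact this

/-- Reversing a segment of a cycle. -/
theorem exists_flip (s : Perm V) (hs : ∀ x y, SameCycle s x y) (u : V) (k : ℕ) (h0 : 2 ≤ k)
    (hk : k < Fintype.card V) :
    ∃ φ : Perm V, (∀ x y, SameCycle φ x y) ∧ φ u = (s ^ (k - 1)) u ∧
      φ (s u) = (s ^ k) u ∧ (∀ i, 1 < i → i < k → φ ((s ^ i) u) = (s ^ (i - 1)) u) ∧
      (∀ z, z ≠ u → (∀ i, 0 < i → i < k → (s ^ i) u ≠ z) → φ z = s z) := by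
  classical
  let f : V → V := fun z =>
    if h : ∃ i, 0 < i ∧ i < k ∧ (s ^ i) u = z then (s ^ (k - h.choose)) u else z
  have f_in : ∀ i, 0 < i → i < k → f ((s ^ i) u) = (s ^ (k - i)) u := by
    intro i h1 h2
    have hex : ∃ j, 0 < j ∧ j < k ∧ (s ^ j) u = (s ^ i) u := ⟨i, h1, h2, rfl⟩
    have hf : f ((s ^ i) u) = (s ^ (k - hex.choose)) u := dif_pos hex
    obtain ⟨c1, c2, c3⟩ := hex.choose_spec
    have : hex.choose = i := pow_inj s hs u _ _ (by omega) (by omega) c3
    rw [hf, this]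
  have f_out : ∀ z, (∀ i, 0 < i → i < k → (s ^ i) u ≠ z) → f z = z := by
    intro z hz
    exact dif_neg (by
      rintro ⟨i, h1, h2, h3⟩
      exact hz i h1 h2 h3)
  have f_inv : Function.Involutive f := by
    intro z
    by_cases h : ∃ i, 0 < i ∧ i < k ∧ (s ^ i) u = z
    · obtain ⟨i, h1, h2, rfl⟩ := h
      rw [f_in i h1 h2, f_in (k - i) (by omega) (by omega)]
      congr 2
      omega
    · push Not at h
      rw [f_out z h, f_out z h]
  let ρ : Perm V := f_inv.toPerm f
  have hρ : ∀ z, ρ z = f z := fun z => rfl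
  have hρ' : ∀ z, ρ⁻¹ z = f z := by
    intro z
    rw [Perm.inv_eq_iff_eq, hρ, f_inv]
  have hu : f u = u := by
    apply f_out
    intro i h1 h2 h3
    have := pow_inj s hs u i 0 (by omega) (by omega) (by simpa using h3)
    omega
  have hku : f ((s ^ k) u) = (s ^ k) u := by
    apply f_out
    intro i h1 h2 h3
    have := pow_inj s hs u i k (by omega) (by omega) h3
    omega
  have hsucc : ∀ i, s ((s ^ i) u) = (s ^ (i + 1)) u := by
    intro i
    rw [pow_succ', mul_apply]
  have hφ : ∀ z, (ρ * s * ρ⁻¹) z = f (s (f z)) := by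
    intro z
    rw [mul_apply, mul_apply, hρ', hρ]
  refine ⟨ρ * s * ρ⁻¹, fun x y => sameCycle_conj.2 (hs _ _), ?_, ?_, ?_, ?_⟩
  · rw [hφ, hu]
    have := f_in 1 (by omega) (by omega)
    rw [pow_one] at this
    exact this
  · have h1 := f_in 1 (by omega) (by omega)
    rw [pow_one] at h1
    rw [hφ, h1, hsucc, show k - 1 + 1 = k by omega, hku]
  · intro i h1 h2
    rw [hφ, f_in i (by omega) h2, hsucc, f_in _ (by omega) (by omega)]
    congr 2
    omega
  · intro z hzu hz
    rw [hφ, f_out z hz]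
    apply f_out
    intro i h1 h2 h3
    obtain ⟨j, rfl⟩ : ∃ j, i = j + 1 := ⟨i - 1, by omega⟩
    rw [← hsucc] at h3
    have h4 := s.injective h3
    rcases Nat.eq_zero_or_pos j with hj | hj
    · subst hj
      exact hzu (by rw [← h4]; simp)
    · exact hz j hj (by omega) h4

/-- flipping a bad pair gives a best cycle -/
theorem Best.flip {G : SimpleGraph V} {s0 : Perm V} {W : Finset V} {pr : V → V}
    {s : Perm V} (S : Sys G s0 W pr) (B : Best G s0 W pr s) (u : V) (hu : u ∈ W)
    (h1 : cmp G pr (s u) u) (h2 : cmp G pr (s.symm (pr u)) (pr u))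
    (k : ℕ) (hk : (s ^ k) u = pr u) (hk0 : 0 < k)
    (hmin : ∀ i, 0 < i → i < k → (s ^ i) u ≠ pr u) :
    ∃ s' : Perm V, Best G s0 W pr s' ∧
      (∀ i, 0 < i → i < k → (s ^ i) u ∈ W →
        s' ((s ^ i) u) = s.symm ((s ^ i) u) ∧ s'.symm ((s ^ i) u) = s ((s ^ i) u)) ∧
      (∀ x, x ∈ W → x ≠ u → x ≠ pr u → (∀ i, 0 < i → i < k → (s ^ i) u ≠ x) →
        s' x = s x ∧ s'.symm x = s.symm x) := by
  classical
  have A := B.toAdm
  have hsucc : ∀ i, s ((s ^ i) u) = (s ^ (i + 1)) u := by
    intro i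
    rw [pow_succ', mul_apply]
  have hu' : pr u ∈ W := S.prW u hu
  have hne : pr u ≠ u := S.prne u hu
  -- k is at least 3 and smaller than the length
  have hk1 : k ≠ 1 := by
    rintro rfl
    rw [pow_one] at hk
    exact A.hub u hu (hk ▸ hu')
  have hk2 : k ≠ 2 := by
    rintro rfl
    rw [pow_two, mul_apply] at hk
    exact A.link S u hu (hk ▸ hu')
  have hkL : k < Fintype.card V := by
    obtain ⟨n, hn, hnu⟩ := exists_pow_lt s A.cyc u (pr u)
    by_contra hlt
    have hn0 : 0 < n := by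
      rcases Nat.eq_zero_or_pos n with h | h
      · subst h
        exact absurd (by simpa using hnu.symm) hne
      · exact h
    exact hmin n hn0 (by omega) hnu
  have hlast : s ((s ^ (k - 1)) u) = pr u := by
    rw [hsucc, show k - 1 + 1 = k by omega, hk]
  have hx : (s ^ (k - 1)) u = s.symm (pr u) := by
    rw [Equiv.eq_symm_apply]
    exact hlast
  have hxW : (s ^ (k - 1)) u ∉ W := by
    rw [hx]; exact A.hub' _ hu'
  obtain ⟨φ, hφc, φu, φy, φin, φout⟩ := exists_flip s A.cyc u k (by omega) hkL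
  rw [hk] at φy
  -- the two new edges
  have e1 : G.Adj u ((s ^ (k - 1)) u) := by
    rw [hx]
    have := h2.2
    rw [S.prpr u hu] at this
    exact this.symm
  have e2 : G.Adj (s u) (pr u) := h1.2
  have hyW : s u ∉ W := A.hub u hu
  have m1 : SF3.mk G W pr u ((s ^ (k - 1)) u) := by
    apply mk_symm
    rw [mk_iff_of hxW hu, hx]
    refine ⟨?_, h2.1⟩
    have := h2.2
    rw [S.prpr u hu] at this
    exact this
  have m2 : SF3.mk G W pr (s u) (pr u) := by
    rw [mk_iff_of hyW hu']
    refine ⟨h1.2, ?_⟩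
    rw [S.prpr u hu]
    exact h1.1
  -- the edges outside `W`
  have hloc : ∀ z, z ∉ W → s z ∉ W → φ z = s z ∨ φ (s z) = z := by
    intro z hz hsz
    by_cases hS : ∃ i, 0 < i ∧ i < k ∧ (s ^ i) u = z
    · obtain ⟨i, i1, i2, rfl⟩ := hS
      right
      rw [hsucc]
      rcases Nat.lt_or_ge (i + 1) k with h | h
      · exact φin (i + 1) (by omega) h
      · exfalso
        apply hsz
        rw [hsucc, show i + 1 = k by omega, hk]
        exact hu'
    · push Not at hS
      left
      exact φout z (fun h => hz (h ▸ hu)) hS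
  have hAdm : Adm G s0 W φ := by
    refine ⟨hφc, ?_, ?_, ?_⟩
    · intro z
      by_cases hzu : z = u
      · rw [hzu, φu]; exact e1
      · by_cases hS : ∃ i, 0 < i ∧ i < k ∧ (s ^ i) u = z
        · obtain ⟨i, i1, i2, rfl⟩ := hS
          rcases Nat.lt_or_ge 1 i with h | h
          · rw [φin i h i2]
            have := A.adj ((s ^ (i - 1)) u)
            rw [hsucc, show i - 1 + 1 = i by omega] at this
            exact this.symm
          · have : i = 1 := by omega
            subst this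
            rw [pow_one, φy]
            exact e2
        · push Not at hS
          rw [φout z hzu hS]
          exact A.adj z
    · intro z hz hz'
      rcases A.lk z hz hz' with h | h
      · have := hloc z hz (by rw [h]; exact hz')
        rw [h] at this
        exact this
      · have := hloc (s0 z) hz' (by rw [h]; exact hz)
        rw [h] at this
        exact this.symm
    · intro w hw
      by_cases hwu : w = u
      · rw [hwu, φu]; exact hxW
      · by_cases hS : ∃ i, 0 < i ∧ i < k ∧ (s ^ i) u = w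
        · obtain ⟨i, i1, i2, rfl⟩ := hS
          rcases Nat.lt_or_ge 1 i with h | h
          · rw [φin i h i2]
            have := A.hub' _ hw
            have h5 : s.symm ((s ^ i) u) = (s ^ (i - 1)) u := by
              rw [Equiv.symm_apply_eq, hsucc, show i - 1 + 1 = i by omega]
            rw [h5] at this
            exact this
          · have : i = 1 := by omega
            subst this
            rw [pow_one] at hw
            exact absurd hw hyW
        · push Not at hS
          rw [φout w hwu hS]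
          exact A.hub w hw
  -- the marks
  have hle : marks G W pr s ≤ marks G W pr φ := by
    unfold marks
    let γ : V → V := fun z =>
      if ∃ i, i < k ∧ (s ^ i) u = z then (if z = (s ^ (k - 1)) u then u else s z) else z
    have γ1 : γ ((s ^ (k - 1)) u) = u := by
      have hc : ∃ i, i < k ∧ (s ^ i) u = (s ^ (k - 1)) u := ⟨k - 1, by omega, rfl⟩
      change (if _ then _ else _) = _
      rw [if_pos hc, if_pos rfl]
    have γ2 : ∀ i, i + 1 < k → γ ((s ^ i) u) = (s ^ (i + 1)) u := by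
      intro i hi
      have hc : ∃ j, j < k ∧ (s ^ j) u = (s ^ i) u := ⟨i, by omega, rfl⟩
      have hc2 : (s ^ i) u ≠ (s ^ (k - 1)) u := by
        intro h
        have := pow_inj s A.cyc u i (k - 1) (by omega) (by omega) h
        omega
      change (if _ then _ else _) = _
      rw [if_pos hc, if_neg hc2, hsucc]
    have γ3 : ∀ z, (∀ i, i < k → (s ^ i) u ≠ z) → γ z = z := by
      intro z hz
      exact if_neg (by
        rintro ⟨i, i1, i2⟩
        exact hz i i1 i2)
    -- classification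
    have hcl : ∀ z, z = (s ^ (k - 1)) u ∨ (∃ i, i + 1 < k ∧ z = (s ^ i) u) ∨
        (∀ i, i < k → (s ^ i) u ≠ z) := by
      intro z
      by_cases h : ∃ i, i < k ∧ (s ^ i) u = z
      · obtain ⟨i, i1, rfl⟩ := h
        rcases Nat.lt_or_ge (i + 1) k with h | h
        · exact Or.inr (Or.inl ⟨i, h, rfl⟩)
        · left
          congr 2
          omega
      · push Not at h
        exact Or.inr (Or.inr h)
    refine Finset.card_le_card_of_injOn γ ?_ ?_
    · intro z hz
      rw [Finset.mem_coe, Finset.mem_filter] at hz ⊢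
      refine ⟨Finset.mem_univ _, ?_⟩
      rcases hcl z with h | ⟨i, hi, h⟩ | h
      · rw [h, γ1, φu]
        exact m1
      · rw [h, γ2 i hi]
        rcases Nat.eq_zero_or_pos i with h0 | h0
        · subst h0
          rw [zero_add, pow_one, φy]
          exact m2
        · rw [φin (i + 1) (by omega) hi, Nat.add_sub_cancel]
          have := hz.2
          rw [h, hsucc] at this
          exact mk_symm this
      · rw [γ3 z h, φout z (fun h' => h 0 (by omega) (by simp [h'])) (fun i _ h2 => h i h2)]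
        exact hz.2
    · intro z _ z' _ hzz
      rcases hcl z with h | ⟨i, hi, h⟩ | h <;> rcases hcl z' with h' | ⟨i', hi', h'⟩ | h'
      · rw [h, h']
      · exfalso
        rw [h, h', γ1, γ2 i' hi'] at hzz
        have := pow_inj s A.cyc u 0 (i' + 1) (by omega) (by omega) (by simpa using hzz)
        omega
      · exfalso
        rw [h, γ1, γ3 z' h'] at hzz
        exact h' 0 (by omega) (by simp [hzz])
      · exfalso
        rw [h, h', γ1, γ2 i hi] at hzz
        have := pow_inj s A.cyc u (i + 1) 0 (by omega) (by omega) (by simpa using hzz)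
        omega
      · rw [h, h', γ2 i hi, γ2 i' hi'] at hzz
        have := pow_inj s A.cyc u (i + 1) (i' + 1) (by omega) (by omega) hzz
        rw [h, h', show i = i' by omega]
      · exfalso
        rw [h, γ2 i hi, γ3 z' h'] at hzz
        exact h' (i + 1) hi hzz
      · exfalso
        rw [h', γ1, γ3 z h] at hzz
        exact h 0 (by omega) (by simp [hzz])
      · exfalso
        rw [h', γ2 i' hi', γ3 z h] at hzz
        exact h (i' + 1) hi' hzz.symm
      · rw [γ3 z h, γ3 z' h'] at hzz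
        exact hzz
  refine ⟨φ, ⟨hAdm, fun s' hs' => (B.max s' hs').trans hle⟩, ?_, ?_⟩
  · intro i i1 i2 hw
    have hi1 : i ≠ 1 := by
      rintro rfl
      rw [pow_one] at hw
      exact hyW hw
    have hi2 : i ≠ k - 1 := by
      rintro rfl
      exact hxW hw
    constructor
    · rw [φin i (by omega) i2, Equiv.eq_symm_apply, hsucc, show i - 1 + 1 = i by omega]
    · rw [Equiv.symm_apply_eq, hsucc, φin (i + 1) (by omega) (by omega), Nat.add_sub_cancel]
  · intro x hxw hxu hxp hxo
    refine ⟨φout x hxu hxo, ?_⟩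
    rw [Equiv.symm_apply_eq]
    rw [φout (s.symm x), Equiv.apply_symm_apply]
    · intro h
      rw [Equiv.symm_apply_eq] at h
      exact hyW (h ▸ hxw)
    · intro i i1 i2 h
      rw [Equiv.eq_symm_apply, hsucc] at h
      rcases Nat.lt_or_ge (i + 1) k with h' | h'
      · exact hxo (i + 1) (by omega) h' h
      · rw [show i + 1 = k by omega, hk] at h
        exact hxp h.symm

/-- (iii) bad pairs do not cross -/
theorem Best.noncross {G : SimpleGraph V} {s0 : Perm V} {W : Finset V} {pr : V → V}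
    {s : Perm V} (S : Sys G s0 W pr) (hno : ¬ Two G) (B : Best G s0 W pr s)
    (u : V) (hu : u ∈ W) (h1 : cmp G pr (s u) u) (h2 : cmp G pr (s.symm (pr u)) (pr u))
    (v : V) (hv : v ∈ W) (hv1 : v ≠ u) (hv2 : v ≠ pr u)
    (g1 : cmp G pr (s v) v) (g2 : cmp G pr (s.symm (pr v)) (pr v))
    (k : ℕ) (hk : (s ^ k) u = pr u) (hk0 : 0 < k)
    (hmin : ∀ i, 0 < i → i < k → (s ^ i) u ≠ pr u) :
    (∃ i, 0 < i ∧ i < k ∧ (s ^ i) u = v) ↔ (∃ j, 0 < j ∧ j < k ∧ (s ^ j) u = pr v) := by
  obtain ⟨s', B', hin, hout⟩ := B.flip S u hu h1 h2 k hk hk0 hmin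
  have hpv : pr v ∈ W := S.prW v hv
  have hpv1 : pr v ≠ u := by
    intro h
    apply hv2
    rw [← h, S.prpr v hv]
  have hpv2 : pr v ≠ pr u := by
    intro h
    apply hv1
    rw [← S.prpr v hv, h, S.prpr u hu]
  constructor
  · rintro ⟨i, i1, i2, i3⟩
    by_contra hno2
    push Not at hno2
    obtain ⟨-, a2⟩ := hin i i1 i2 (by rw [i3]; exact hv)
    rw [i3] at a2
    obtain ⟨-, b2⟩ := hout (pr v) hpv hpv1 hpv2 hno2
    exact B'.toAdm.fwd S hno v hv ⟨by rw [a2]; exact g1, by rw [b2]; exact g2⟩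
  · rintro ⟨i, i1, i2, i3⟩
    by_contra hno2
    push Not at hno2
    obtain ⟨a1, -⟩ := hin i i1 i2 (by rw [i3]; exact hpv)
    rw [i3] at a1
    obtain ⟨b1, -⟩ := hout v hv hv1 hv2 hno2
    exact B'.toAdm.bwd S hno v hv ⟨by rw [b1]; exact g1, by rw [a1]; exact g2⟩

end Pool.Agent.H10.SF3
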