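import Mathlib
import Pool.Agent.H10.SD.M6

set_option linter.unusedSectionVars false

namespace Pool.Agent.H10.SF3

open Equiv Equiv.Perm

/-- A connected 2-regular graph on `Fin n` is Hamiltonian. -/
theorem ham_of_connected {V : Type} [Fintype V] [DecidableEq V] (F : SimpleGraph V)
    (h2 : ∀ v, (F.neighborSet v).ncard = 2) (hc : Nat.card F.ConnectedComponent = 1) :
    F.IsHamiltonian := by
  classical
  obtain ⟨hsub, ⟨c⟩⟩ := Nat.card_eq_one_iff_unique.1 hc
  obtain ⟨v, rfl⟩ := c.exists_rep
  have hcyc : F.IsCycles := fun w _ => h2 w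
  have hn : (F.neighborSet v).Nonempty := by
    rw [← Set.ncard_pos, h2 v]
    omega
  obtain ⟨p, hp, hpv⟩ := hcyc.exists_cycle_toSubgraph_verts_eq_connectedComponentSupp
    (c := F.connectedComponentMk v) rfl hn
  intro _
  refine ⟨v, p, ?_⟩
  rw [SimpleGraph.Walk.isHamiltonianCycle_iff_isCycle_and_support_count_tail_eq_one]
  refine ⟨hp, ?_⟩
  intro a
  apply List.count_eq_one_of_mem hp.support_nodup
  have ha : a ∈ p.support := by
    rw [← SimpleGraph.Walk.mem_verts_toSubgraph, hpv]
    exact Subsingleton.elim _ _
  by_cases hav : a = v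
  · subst hav
    exact SimpleGraph.Walk.end_mem_tail_support hp.not_nil
  · rw [← SimpleGraph.Walk.cons_tail_support, List.mem_cons] at ha
    exact ha.resolve_left hav

/-- PD2. A connected 2-regular graph is a cycle. -/
theorem cyc_of_connected {V : Type} [Fintype V] [DecidableEq V] (F : SimpleGraph V)
    (h2 : ∀ v, (F.neighborSet v).ncard = 2) (hc : Nat.card F.ConnectedComponent = 1) :
    ∃ π : Perm V, (∀ x y, SameCycle π x y) ∧ ∀ x y, F.Adj x y ↔ (π x = y ∨ π y = x) := by
  classical
  -- at least three vertices
  obtain ⟨hsub, ⟨c⟩⟩ := Nat.card_eq_one_iff_unique.1 hc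
  obtain ⟨v, rfl⟩ := c.exists_rep
  have hV : 3 ≤ Fintype.card V := by
    have h3 : (insert v (F.neighborSet v)).ncard = 3 := by
      rw [Set.ncard_insert_of_notMem (SimpleGraph.notMem_neighborSet_self F), h2 v]
    rw [← h3, ← Nat.card_eq_fintype_card, ← Set.ncard_univ]
    exact Set.ncard_le_ncard (Set.subset_univ _)
  let n := Fintype.card V
  have hn : NeZero n := ⟨by omega⟩
  let e : V ≃ Fin n := Fintype.equivFin V
  let F' : SimpleGraph (Fin n) := F.comap e.symm
  let iso : F' ≃g F := SimpleGraph.Iso.comap e.symm F
  have h2' : ∀ w, (F'.neighborSet w).ncard = 2 := by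
    intro w
    have : F'.neighborSet w = e '' (F.neighborSet (e.symm w)) := by
      ext y
      simp only [SimpleGraph.mem_neighborSet, Set.mem_image]
      constructor
      · intro h
        exact ⟨e.symm y, h, e.apply_symm_apply y⟩
      · rintro ⟨x, hx, rfl⟩
        show F.Adj (e.symm w) (e.symm (e x))
        rw [e.symm_apply_apply]
        exact hx
    rw [this, Set.ncard_image_of_injective _ e.injective, h2]
  have hc' : Nat.card F'.ConnectedComponent = 1 := by
    rw [← hc]
    exact Nat.card_congr iso.connectedComponentEquiv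
  obtain ⟨s, hs, hadj⟩ := Pool.Agent.H10.SD.exists_cyclic_perm hV F'
    (ham_of_connected F' h2' hc')
  let π : Perm V := e.trans (s.trans e.symm)
  have hπ : ∀ x, π x = e.symm (s (e x)) := fun x => rfl
  have hpow : ∀ (i : ℕ) x, (π ^ i) x = e.symm ((s ^ i) (e x)) := by
    intro i
    induction i with
    | zero => intro x; simp
    | succ i ih =>
      intro x
      rw [pow_succ', mul_apply, ih, hπ, e.apply_symm_apply, pow_succ', mul_apply]
  have hsame : ∀ x y, SameCycle π x y := by
    intro x y
    obtain ⟨i, _, hi⟩ := (hs (e x) (e y)).exists_pow_eq'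
    refine ⟨i, ?_⟩
    rw [zpow_natCast, hpow, hi, e.symm_apply_apply]
  have hadj' : ∀ x, F.Adj x (π x) := by
    intro x
    have := hadj (e x)
    change F.Adj (e.symm (e x)) (e.symm (s (e x))) at this
    rw [e.symm_apply_apply] at this
    exact this
  -- `π` has no 2-cycle
  have hne2 : ∀ x, π (π x) ≠ x := by
    intro x hx
    have hall : ∀ y, y = x ∨ y = π x := by
      intro y
      obtain ⟨i, _, hi⟩ := (hsame x y).exists_pow_eq'
      have key : ∀ i : ℕ, (π ^ i) x = x ∨ (π ^ i) x = π x := by
        intro i
        induction i with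
        | zero => left; rfl
        | succ i ih =>
          rw [pow_succ', mul_apply]
          rcases ih with h | h
          · right; rw [h]
          · left; rw [h, hx]
      rw [← hi]
      exact key i
    have hle : Fintype.card V ≤ 2 := by
      have hsub2 : (Finset.univ : Finset V) ⊆ {x, π x} := by
        intro y _
        rw [Finset.mem_insert, Finset.mem_singleton]
        exact hall y
      exact (Finset.card_le_card hsub2).trans Finset.card_le_two
    omega
  refine ⟨π, hsame, ?_⟩
  intro x y
  constructor
  · intro h
    have hset : ({π x, π.symm x} : Set V) = F.neighborSet x := by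
      apply Set.eq_of_subset_of_ncard_le _ _ (Set.toFinite _)
      · intro z hz
        rcases hz with rfl | hz
        · exact hadj' x
        · rw [Set.mem_singleton_iff] at hz
          subst hz
          have := hadj' (π.symm x)
          rw [Equiv.apply_symm_apply] at this
          exact this.symm
      · rw [h2, Set.ncard_pair]
        intro h3
        apply hne2 x
        rw [h3, Equiv.apply_symm_apply]
    have hy : y ∈ ({π x, π.symm x} : Set V) := by
      rw [hset]
      exact h
    rcases hy with h4 | h4
    · exact Or.inl h4.symm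
    · rw [Set.mem_singleton_iff] at h4
      right
      rw [h4, Equiv.apply_symm_apply]
  · rintro (rfl | rfl)
    · exact hadj' x
    · exact (hadj' y).symm

end Pool.Agent.H10.SF3
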