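import Mathlib
import Pool.Agent.H10.SF2.J

set_option linter.unusedSectionVars false

namespace Pool.Agent.H10.SF3

open Equiv Equiv.Perm

/-- The graph of a placement: the edges of `s`, except that the token `x` in `I` is joined to
`f x` instead of `hm x`. -/
def plc {V : Type} (s : Perm V) (I : Finset V) (hm f : V → V) (x y : V) : Prop :=
  ((s x = y ∨ s y = x) ∧ ¬ (x ∈ I ∧ hm x = y) ∧ ¬ (y ∈ I ∧ hm y = x)) ∨
    (x ∈ I ∧ f x = y) ∨ (y ∈ I ∧ f y = x)

theorem plc_symm {V : Type} (s : Perm V) (I : Finset V) (hm f : V → V) (x y : V)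
    (h : plc s I hm f x y) : plc s I hm f y x := by
  rcases h with ⟨h1, h2, h3⟩ | h | h
  · exact Or.inl ⟨h1.symm, h3, h2⟩
  · exact Or.inr (Or.inr h)
  · exact Or.inr (Or.inl h)

/-- A vertex outside `W` has at most one neighbour in `W`. -/
theorem PD_uniq {V : Type} (s : Perm V) (W : Finset V) (hlink : ∀ w ∈ W, s (s w) ∉ W)
    (x : V) (h1 : s x ∈ W) (h2 : s.symm x ∈ W) : False := by
  have := hlink _ h2
  rw [Equiv.apply_symm_apply] at this
  exact this h1

theorem PD_uniq2 {V : Type} (s : Perm V) (W : Finset V) (hlink : ∀ w ∈ W, s (s w) ∉ W)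
    (x w w' : V) (hw : w ∈ W) (hw' : w' ∈ W) (h : s x = w ∨ s w = x) (h' : s x = w' ∨ s w' = x) :
    w = w' := by
  rcases h with h | h <;> rcases h' with h' | h'
  · rw [← h, ← h']
  · exact (PD_uniq s W hlink x (h ▸ hw) (by rw [← h', Equiv.symm_apply_apply]; exact hw')).elim
  · exact (PD_uniq s W hlink x (h' ▸ hw') (by rw [← h, Equiv.symm_apply_apply]; exact hw)).elim
  · exact s.injective (h.trans h'.symm)

/-- PD1. The graph of a placement is 2-regular. -/
theorem exists_plc {V : Type} [Fintype V] [DecidableEq V] (s : Perm V)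
    (hs : ∀ x y, SameCycle s x y) (hV : 3 ≤ Fintype.card V)
    (W : Finset V) (hW : ∀ w ∈ W, s w ∉ W) (hlink : ∀ w ∈ W, s (s w) ∉ W)
    (I : Finset V) (hm f : V → V)
    (hI : ∀ x ∈ I, x ∉ W ∧ hm x ∈ W ∧ (hm x = s x ∨ s (hm x) = x))
    (hf : ∀ x ∈ I, f x ∈ W)
    (hcard : ∀ w, (I.filter (fun x => f x = w)).card = (I.filter (fun x => hm x = w)).card) :
    ∃ F : SimpleGraph V, (∀ x y, F.Adj x y ↔ plc s I hm f x y) ∧
      ∀ v, (F.neighborSet v).ncard = 2 := by
  classical
  have f1 := Pool.Agent.H10.SF2.J_ne s hs hV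
  have f2 := Pool.Agent.H10.SF2.J_ne2 s hs hV
  have f3 : ∀ x, s x ≠ s.symm x := fun x h => f2 x (by rw [h, Equiv.apply_symm_apply])
  have hI2 : ∀ x ∈ I, s x = hm x ∨ s (hm x) = x := fun x hx => by
    rcases (hI x hx).2.2 with h | h
    · exact Or.inl h.symm
    · exact Or.inr h
  let F : SimpleGraph V :=
    { Adj := plc s I hm f
      symm := ⟨fun x y h => plc_symm s I hm f x y h⟩
      loopless := ⟨fun x h => by
        rcases h with ⟨h1 | h1, -, -⟩ | ⟨h1, h2⟩ | ⟨h1, h2⟩
        · exact f1 x h1
        · exact f1 x h1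
        · exact (hI x h1).1 (h2 ▸ hf x h1)
        · exact (hI x h1).1 (h2 ▸ hf x h1)⟩ }
  have hF : ∀ x y, F.Adj x y ↔ plc s I hm f x y := fun x y => Iff.rfl
  refine ⟨F, hF, ?_⟩
  intro v
  by_cases hv : v ∈ W
  · have hvI : v ∉ I := fun h => (hI v h).1 hv
    have hset : F.neighborSet v =
        (((({s v, s.symm v} : Finset V) \ I.filter (fun x => hm x = v)) ∪
          I.filter (fun x => f x = v) : Finset V) : Set V) := by
      ext y
      rw [SimpleGraph.mem_neighborSet, hF]
      simp only [plc, Finset.coe_union, Finset.coe_sdiff, Finset.coe_insert, Finset.coe_singleton,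
        Finset.coe_filter, Set.mem_union, Set.mem_sdiff, Set.mem_insert_iff,
        Set.mem_singleton_iff, Set.mem_ofPred_eq]
      constructor
      · rintro (⟨h1, h2, h3⟩ | ⟨h1, h2⟩ | h)
        · refine Or.inl ⟨?_, h3⟩
          rcases h1 with h1 | h1
          · exact Or.inl h1.symm
          · right; rw [← h1, Equiv.symm_apply_apply]
        · exact absurd h1 hvI
        · exact Or.inr h
      · rintro (⟨h1, h3⟩ | h)
        · refine Or.inl ⟨?_, fun h => hvI h.1, h3⟩
          rcases h1 with h1 | h1
          · exact Or.inl h1.symm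
          · right; rw [h1, Equiv.apply_symm_apply]
        · exact Or.inr (Or.inr h)
    have hsub : I.filter (fun x => hm x = v) ⊆ ({s v, s.symm v} : Finset V) := by
      intro y hy
      obtain ⟨hy1, hy2⟩ := Finset.mem_filter.1 hy
      rw [Finset.mem_insert, Finset.mem_singleton]
      rcases (hI y hy1).2.2 with h | h
      · right; rw [← hy2, h, Equiv.symm_apply_apply]
      · left; rw [← hy2, h]
    have hdisj : Disjoint (({s v, s.symm v} : Finset V) \ I.filter (fun x => hm x = v))
        (I.filter (fun x => f x = v)) := by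
      rw [Finset.disjoint_left]
      intro y hy hy'
      obtain ⟨h1, h2⟩ := Finset.mem_sdiff.1 hy
      obtain ⟨h3, -⟩ := Finset.mem_filter.1 hy'
      rw [Finset.mem_insert, Finset.mem_singleton] at h1
      apply h2
      refine Finset.mem_filter.2 ⟨h3, ?_⟩
      refine PD_uniq2 s W hlink y (hm y) v (hI y h3).2.1 hv (hI2 y h3) ?_
      rcases h1 with h1 | h1
      · exact Or.inr h1.symm
      · left; rw [h1, Equiv.apply_symm_apply]
    rw [hset, Set.ncard_coe_finset, Finset.card_union_of_disjoint hdisj,
      Finset.card_sdiff_of_subset hsub, Finset.card_pair (f3 v), hcard v]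
    have h4 := Finset.card_le_card hsub
    rw [Finset.card_pair (f3 v)] at h4
    omega
  · by_cases hvI : v ∈ I
    · obtain ⟨-, h1, h2⟩ := hI v hvI
      rcases h2 with h2 | h2
      · have hset : F.neighborSet v = {s.symm v, f v} := by
          ext y
          rw [SimpleGraph.mem_neighborSet, hF]
          simp only [plc, Set.mem_insert_iff, Set.mem_singleton_iff]
          constructor
          · rintro (⟨h3, h4, -⟩ | ⟨-, h3⟩ | ⟨h3, h4⟩)
            · rcases h3 with h3 | h3
              · exact absurd ⟨hvI, h2.trans h3⟩ h4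
              · left; rw [← h3, Equiv.symm_apply_apply]
            · exact Or.inr h3.symm
            · exact absurd (h4 ▸ hf y h3) hv
          · rintro (h3 | h3)
            · refine Or.inl ⟨Or.inr (by rw [h3, Equiv.apply_symm_apply]), ?_, ?_⟩
              · rintro ⟨-, h4⟩
                exact f3 v (by rw [← h2, h4, h3])
              · rintro ⟨h4, h5⟩
                exact hv (h5 ▸ (hI y h4).2.1)
            · exact Or.inr (Or.inl ⟨hvI, h3.symm⟩)
        rw [hset, Set.ncard_pair]
        intro h
        exact PD_uniq s W hlink v (h2 ▸ h1) (h ▸ hf v hvI)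
      · have hset : F.neighborSet v = {s v, f v} := by
          ext y
          rw [SimpleGraph.mem_neighborSet, hF]
          simp only [plc, Set.mem_insert_iff, Set.mem_singleton_iff]
          constructor
          · rintro (⟨h3, h4, -⟩ | ⟨-, h3⟩ | ⟨h3, h4⟩)
            · rcases h3 with h3 | h3
              · exact Or.inl h3.symm
              · exact absurd ⟨hvI, s.injective (h2.trans h3.symm)⟩ h4
            · exact Or.inr h3.symm
            · exact absurd (h4 ▸ hf y h3) hv
          · rintro (h3 | h3)
            · refine Or.inl ⟨Or.inl h3.symm, ?_, ?_⟩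
              · rintro ⟨-, h4⟩
                exact f2 v (by rw [← h3, ← h4, h2])
              · rintro ⟨h4, h5⟩
                exact hv (h5 ▸ (hI y h4).2.1)
            · exact Or.inr (Or.inl ⟨hvI, h3.symm⟩)
        rw [hset, Set.ncard_pair]
        intro h
        refine PD_uniq s W hlink v (h ▸ hf v hvI) ?_
        rw [← h2, Equiv.symm_apply_apply]
        exact h1
    · have hset : F.neighborSet v = {s v, s.symm v} := by
        ext y
        rw [SimpleGraph.mem_neighborSet, hF]
        simp only [plc, Set.mem_insert_iff, Set.mem_singleton_iff]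
        constructor
        · rintro (⟨h3, -, -⟩ | ⟨h3, -⟩ | ⟨h3, h4⟩)
          · rcases h3 with h3 | h3
            · exact Or.inl h3.symm
            · right; rw [← h3, Equiv.symm_apply_apply]
          · exact absurd h3 hvI
          · exact absurd (h4 ▸ hf y h3) hv
        · intro h3
          refine Or.inl ⟨?_, fun h => hvI h.1, ?_⟩
          · rcases h3 with h3 | h3
            · exact Or.inl h3.symm
            · right; rw [h3, Equiv.apply_symm_apply]
          · rintro ⟨h4, h5⟩
            exact hv (h5 ▸ (hI y h4).2.1)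
      rw [hset, Set.ncard_pair (f3 v)]

end Pool.Agent.H10.SF3
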