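import Mathlib
import Pool.Agent.H10.SF3.PD1

set_option linter.unusedSectionVars false

namespace Pool.Agent.H10.SF3

open Equiv Equiv.Perm

/-- The number of marked edges of a permutation, counted at the ends outside `W`. -/
theorem PD_count {V : Type} [Fintype V] [DecidableEq V] (mk : V → V → Prop) [DecidableRel mk]
    (hmk : ∀ x y, mk x y → mk y x)
    (W : Finset V) (hmW : ∀ x y, mk x y → (x ∈ W ∧ y ∉ W) ∨ (x ∉ W ∧ y ∈ W))
    (ρ : Perm V) (h2 : ∀ x, ρ (ρ x) ≠ x)
    (hu : ∀ x w w', x ∉ W → w ∈ W → w' ∈ W → (ρ x = w ∨ ρ w = x) → (ρ x = w' ∨ ρ w' = x) →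
      w = w') (P : V → Prop) [DecidablePred P]
    (hP : ∀ x, P x ↔ (x ∉ W ∧ ∃ w ∈ W, (ρ x = w ∨ ρ w = x) ∧ mk x w)) :
    (Finset.univ.filter (fun x => mk x (ρ x))).card = (Finset.univ.filter P).card := by
  classical
  let m : V → V := fun x => if x ∈ W then ρ x else x
  have m1 : ∀ x, x ∈ W → m x = ρ x := fun x hx => if_pos hx
  have m2 : ∀ x, x ∉ W → m x = x := fun x hx => if_neg hx
  have hcross : ∀ x y, x ∈ W → mk x (ρ x) → y ∉ W → mk y (ρ y) → ρ x = y → False := by
    intro x y hx hmx hy hmy hxy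
    have h1 : ρ y ∈ W := by
      rcases hmW _ _ hmy with h | h
      · exact absurd h.1 hy
      · exact h.2
    have h3 := hu y (ρ y) x hy h1 hx (Or.inl rfl) (Or.inr hxy)
    apply h2 x
    rw [hxy, h3]
  rw [← Finset.card_image_of_injOn (f := m) (s := Finset.univ.filter (fun x => mk x (ρ x)))]
  · congr 1
    ext z
    rw [Finset.mem_image, Finset.mem_filter, hP]
    constructor
    · rintro ⟨x, hx, rfl⟩
      have hx := (Finset.mem_filter.1 hx).2
      refine ⟨Finset.mem_univ _, ?_⟩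
      by_cases h : x ∈ W
      · rw [m1 x h]
        refine ⟨?_, x, h, Or.inr rfl, hmk _ _ hx⟩
        rcases hmW _ _ hx with h' | h'
        · exact h'.2
        · exact absurd h h'.1
      · rw [m2 x h]
        refine ⟨h, ρ x, ?_, Or.inl rfl, hx⟩
        rcases hmW _ _ hx with h' | h'
        · exact absurd h'.1 h
        · exact h'.2
    · rintro ⟨-, hz, w, hw, h | h, hmw⟩
      · refine ⟨z, Finset.mem_filter.2 ⟨Finset.mem_univ _, ?_⟩, m2 z hz⟩
        rw [h]; exact hmw
      · refine ⟨w, Finset.mem_filter.2 ⟨Finset.mem_univ _, ?_⟩, ?_⟩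
        · rw [h]; exact hmk _ _ hmw
        · rw [m1 w hw]; exact h
  · intro x hx y hy hxy
    have hx := (Finset.mem_filter.1 (Finset.mem_coe.1 hx)).2
    have hy := (Finset.mem_filter.1 (Finset.mem_coe.1 hy)).2
    by_cases h : x ∈ W <;> by_cases h' : y ∈ W
    · rw [m1 x h, m1 y h'] at hxy
      exact ρ.injective hxy
    · rw [m1 x h, m2 y h'] at hxy
      exact (hcross x y h hx h' hy hxy).elim
    · rw [m2 x h, m1 y h'] at hxy
      exact (hcross y x h' hy h hx hxy.symm).elim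
    · rw [m2 x h, m2 y h'] at hxy
      exact hxy

/-- PD3 for a given cyclic permutation. -/
theorem realise_of {V : Type} [Fintype V] [DecidableEq V] (mk : V → V → Prop) [DecidableRel mk]
    (hmk : ∀ x y, mk x y → mk y x) (s : Perm V)
    (hs : ∀ x y, SameCycle s x y) (hV : 3 ≤ Fintype.card V)
    (W : Finset V) (hmW : ∀ x y, mk x y → (x ∈ W ∧ y ∉ W) ∨ (x ∉ W ∧ y ∈ W))
    (hW : ∀ w ∈ W, s w ∉ W) (hlink : ∀ w ∈ W, s (s w) ∉ W)
    (I : Finset V) (hm f : V → V)
    (hI : ∀ x ∈ I, x ∉ W ∧ hm x ∈ W ∧ (hm x = s x ∨ s (hm x) = x))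
    (hf : ∀ x ∈ I, f x ∈ W) (hfm : ∀ x ∈ I, f x = hm x ∨ mk x (f x))
    (π : Perm V) (hπ : ∀ x y, SameCycle π x y)
    (hF : ∀ x y, (π x = y ∨ π y = x) ↔ plc s I hm f x y) :
    (∀ x, π x = s x ∨ s (π x) = x ∨
        (mk x (π x) ∧ ((x ∈ W ∧ π x ∉ W) ∨ (x ∉ W ∧ π x ∈ W)))) ∧
      (∀ x, x ∉ W → s x ∉ W → π x = s x ∨ π (s x) = x) ∧
      (∀ w ∈ W, π w ∉ W) ∧
      (Finset.univ.filter (fun x => mk x (s x))).card ≤
        (Finset.univ.filter (fun x => mk x (π x))).card ∧
      ((∃ x ∈ I, f x ≠ hm x ∧ ¬ mk x (hm x)) →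
        (Finset.univ.filter (fun x => mk x (s x))).card <
        (Finset.univ.filter (fun x => mk x (π x))).card) := by
  classical
  have g2 := Pool.Agent.H10.SF2.J_ne2 π hπ hV
  have f2 := Pool.Agent.H10.SF2.J_ne2 s hs hV
  have hadj : ∀ x, plc s I hm f x (π x) := fun x => (hF x (π x)).1 (Or.inl rfl)
  have hI2 : ∀ x ∈ I, s x = hm x ∨ s (hm x) = x := fun x hx => by
    rcases (hI x hx).2.2 with h | h
    · exact Or.inl h.symm
    · exact Or.inr h
  have huniq : ∀ x w w', w ∈ W → w' ∈ W → (s x = w ∨ s w = x) → (s x = w' ∨ s w' = x) → w = w' :=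
    fun x w w' hw hw' h h' => PD_uniq2 s W hlink x w w' hw hw' h h'
  have hin : ∀ x ∈ I, ∀ w ∈ W, (π x = w ∨ π w = x) → w = f x := by
    intro x hx w hw h
    rcases (hF x w).1 h with ⟨h1, h3, -⟩ | ⟨-, h1⟩ | ⟨h1, -⟩
    · exact absurd ⟨hx, (huniq x w (hm x) hw (hI x hx).2.1 h1 (hI2 x hx)).symm⟩ h3
    · exact h1.symm
    · exact absurd hw (hI w h1).1
  have hout : ∀ x, x ∉ W → x ∉ I → ∀ w ∈ W, (π x = w ∨ π w = x) → (s x = w ∨ s w = x) := by
    intro x hxW hx w hw h
    rcases (hF x w).1 h with ⟨h1, -, -⟩ | ⟨h1, -⟩ | ⟨h1, -⟩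
    · exact h1
    · exact absurd h1 hx
    · exact absurd hw (hI w h1).1
  refine ⟨?_, ?_, ?_, ?_⟩
  · intro x
    rcases hadj x with ⟨h1 | h1, -, -⟩ | ⟨h1, h2⟩ | ⟨h1, h2⟩
    · exact Or.inl h1.symm
    · exact Or.inr (Or.inl h1)
    · rcases hfm x h1 with h3 | h3
      · rcases (hI x h1).2.2 with h4 | h4
        · left; rw [← h2, h3, h4]
        · right; left; rw [← h2, h3, h4]
      · rw [h2] at h3
        exact Or.inr (Or.inr ⟨h3, hmW _ _ h3⟩)
    · rcases hfm (π x) h1 with h3 | h3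
      · rcases (hI (π x) h1).2.2 with h4 | h4
        · right; left; rw [← h4, ← h3, h2]
        · left; rw [← h4, ← h3, h2]
      · rw [h2] at h3
        have h4 := hmk _ _ h3
        exact Or.inr (Or.inr ⟨h4, hmW _ _ h4⟩)
  · intro x hx hsx
    refine (hF x (s x)).2 (Or.inl ⟨Or.inl rfl, ?_, ?_⟩)
    · rintro ⟨h1, h2⟩
      exact hsx (h2 ▸ (hI x h1).2.1)
    · rintro ⟨h1, h2⟩
      exact hx (h2 ▸ (hI (s x) h1).2.1)
  · intro w hw h
    rcases hadj w with ⟨h1 | h1, -, -⟩ | ⟨h1, h2⟩ | ⟨h1, h2⟩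
    · exact hW w hw (h1 ▸ h)
    · exact hW (π w) h (by rw [h1]; exact hw)
    · exact (hI w h1).1 hw
    · exact (hI (π w) h1).1 h
  · let Ps : V → Prop := fun x => x ∉ W ∧ ∃ w ∈ W, (s x = w ∨ s w = x) ∧ mk x w
    let Pπ : V → Prop := fun x => x ∉ W ∧ ∃ w ∈ W, (π x = w ∨ π w = x) ∧ mk x w
    have c1 : (Finset.univ.filter (fun x => mk x (s x))).card = (Finset.univ.filter Ps).card :=
      PD_count mk hmk W hmW s f2 (fun x w w' _ hw hw' h h' => huniq x w w' hw hw' h h') Ps
        (fun _ => Iff.rfl)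
    have c2 : (Finset.univ.filter (fun x => mk x (π x))).card = (Finset.univ.filter Pπ).card :=
      PD_count mk hmk W hmW π g2 (by
        intro x w w' hx hw hw' h h'
        by_cases hxI : x ∈ I
        · rw [hin x hxI w hw h, hin x hxI w' hw' h']
        · exact huniq x w w' hw hw' (hout x hx hxI w hw h) (hout x hx hxI w' hw' h')) Pπ
        (fun _ => Iff.rfl)
    have hsub : Finset.univ.filter Ps ⊆ Finset.univ.filter Pπ := by
      intro x hx
      obtain ⟨hxW, w, hw, hadjw, hmw⟩ := (Finset.mem_filter.1 hx).2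
      refine Finset.mem_filter.2 ⟨Finset.mem_univ _, hxW, ?_⟩
      by_cases hxI : x ∈ I
      · refine ⟨f x, hf x hxI, (hF x (f x)).2 (Or.inr (Or.inl ⟨hxI, rfl⟩)), ?_⟩
        rcases hfm x hxI with h | h
        · rw [h, ← huniq x w (hm x) hw (hI x hxI).2.1 hadjw (hI2 x hxI)]
          exact hmw
        · exact h
      · refine ⟨w, hw, (hF x w).2 (Or.inl ⟨hadjw, fun h => hxI h.1, fun h => ?_⟩), hmw⟩
        exact (hI w h.1).1 hw
    rw [c1, c2]
    refine ⟨Finset.card_le_card hsub, ?_⟩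
    rintro ⟨x, hxI, hne, hnm⟩
    apply Finset.card_lt_card
    rw [Finset.ssubset_iff_of_subset hsub]
    refine ⟨x, Finset.mem_filter.2 ⟨Finset.mem_univ _, (hI x hxI).1, f x, hf x hxI,
      (hF x (f x)).2 (Or.inr (Or.inl ⟨hxI, rfl⟩)), ?_⟩, ?_⟩
    · rcases hfm x hxI with h | h
      · exact absurd h hne
      · exact h
    · intro hx
      obtain ⟨-, w, hw, hadjw, hmw⟩ := (Finset.mem_filter.1 hx).2
      apply hnm
      rw [← huniq x w (hm x) hw (hI x hxI).2.1 hadjw (hI2 x hxI)]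
      exact hmw

/-- The cycles of a permutation and the components of its graph. -/
theorem PD_sameCycle {V : Type} [Fintype V] [DecidableEq V] (F : SimpleGraph V)
    (hc : Nat.card F.ConnectedComponent = 1) (π : Perm V)
    (hF : ∀ x y, F.Adj x y → (π x = y ∨ π y = x)) (x y : V) : SameCycle π x y := by
  have h1 : F.connectedComponentMk x = F.connectedComponentMk y := by
    have h2 : Subsingleton F.ConnectedComponent := (Nat.card_eq_one_iff_unique.1 hc).1
    exact Subsingleton.elim _ _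
  obtain ⟨p⟩ := SimpleGraph.ConnectedComponent.exact h1
  induction p with
  | nil => exact SameCycle.refl _ _
  | cons h _ ih =>
    refine SameCycle.trans ?_ (ih ?_)
    · rcases hF _ _ h with h | h
      · rw [← h, sameCycle_apply_right]
      · rw [← h, sameCycle_apply_left]
    · have h2 : Subsingleton F.ConnectedComponent := (Nat.card_eq_one_iff_unique.1 hc).1
      exact Subsingleton.elim _ _

/-- PD4. If only entering tokens are moved, the placement is a permutation `s'`; it has one cycle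
when the graph is connected, and at least as many marks. -/
theorem realise_fwd {V : Type} [Fintype V] [DecidableEq V] (mk : V → V → Prop) [DecidableRel mk]
    (hmk : ∀ x y, mk x y → mk y x) (s : Perm V)
    (hs : ∀ x y, SameCycle s x y) (hV : 3 ≤ Fintype.card V)
    (W : Finset V) (hmW : ∀ x y, mk x y → (x ∈ W ∧ y ∉ W) ∨ (x ∉ W ∧ y ∈ W))
    (hW : ∀ w ∈ W, s w ∉ W) (hlink : ∀ w ∈ W, s (s w) ∉ W)
    (I : Finset V) (hm f : V → V)
    (hI : ∀ x ∈ I, x ∉ W ∧ hm x ∈ W ∧ (hm x = s x ∨ s (hm x) = x))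
    (hf : ∀ x ∈ I, f x ∈ W) (hfm : ∀ x ∈ I, f x = hm x ∨ mk x (f x))
    (hcard : ∀ w, (I.filter (fun x => f x = w)).card = (I.filter (fun x => hm x = w)).card)
    (hfwd : ∀ x ∈ I, f x ≠ hm x → hm x = s x)
    (F : SimpleGraph V) (hF : ∀ x y, F.Adj x y ↔ plc s I hm f x y)
    (hc : Nat.card F.ConnectedComponent = 1) :
    ∃ s' : Perm V, (∀ x y, SameCycle s' x y) ∧ (∀ x y, F.Adj x y ↔ (s' x = y ∨ s' y = x)) ∧
      (∀ x, s' x = if x ∈ I ∧ hm x = s x then f x else s x) ∧
      (Finset.univ.filter (fun x => mk x (s x))).card ≤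
        (Finset.univ.filter (fun x => mk x (s' x))).card := by
  classical
  have f2 := Pool.Agent.H10.SF2.J_ne2 s hs hV
  let g : V → V := fun x => if x ∈ I ∧ hm x = s x then f x else s x
  have g1 : ∀ x, x ∈ I → hm x = s x → g x = f x := fun x h1 h2 => if_pos ⟨h1, h2⟩
  have g2 : ∀ x, ¬ (x ∈ I ∧ hm x = s x) → g x = s x := fun x h => if_neg h
  have hL : ∀ x ∈ I, hm x ≠ s x → f x = hm x ∧ s (hm x) = x := by
    intro x hx h
    refine ⟨by_contra fun h' => h (hfwd x hx h'), ?_⟩
    exact (hI x hx).2.2.resolve_left h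
  have hsurj : Function.Surjective g := by
    intro y
    by_cases h : s.symm y ∈ I ∧ hm (s.symm y) = s (s.symm y)
    · rw [Equiv.apply_symm_apply] at h
      by_contra hcon
      have hlt : (I.filter (fun x => f x = y)).card < (I.filter (fun x => hm x = y)).card := by
        apply Finset.card_lt_card
        rw [Finset.ssubset_iff_of_subset]
        · refine ⟨s.symm y, Finset.mem_filter.2 h, ?_⟩
          intro h'
          apply hcon
          refine ⟨s.symm y, ?_⟩
          rw [g1 _ h.1 (by rw [Equiv.apply_symm_apply]; exact h.2)]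
          exact (Finset.mem_filter.1 h').2
        · intro x hx
          obtain ⟨h1, h2⟩ := Finset.mem_filter.1 hx
          refine Finset.mem_filter.2 ⟨h1, ?_⟩
          by_cases h3 : hm x = s x
          · exact absurd ⟨x, (g1 x h1 h3).trans h2⟩ hcon
          · rw [← (hL x h1 h3).1]
            exact h2
      rw [hcard y] at hlt
      exact lt_irrefl _ hlt
    · exact ⟨s.symm y, by rw [g2 _ h, Equiv.apply_symm_apply]⟩
  let s' : Perm V := Equiv.ofBijective g (Finite.surjective_iff_bijective.1 hsurj)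
  have hs' : ∀ x, s' x = g x := fun x => rfl
  have hone : ∀ x y, s' x = y → plc s I hm f x y := by
    intro x y h
    rw [hs'] at h
    by_cases hx : x ∈ I ∧ hm x = s x
    · rw [g1 x hx.1 hx.2] at h
      exact Or.inr (Or.inl ⟨hx.1, h⟩)
    · rw [g2 x hx] at h
      by_cases hy : y ∈ I ∧ hm y = x
      · right; right
        refine ⟨hy.1, ?_⟩
        have h3 : hm y ≠ s y := by
          intro h4
          apply f2 x
          rw [h, ← h4, hy.2]
        rw [(hL y hy.1 h3).1]
        exact hy.2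
      · refine Or.inl ⟨Or.inl h, ?_, hy⟩
        rintro ⟨h1, h2⟩
        exact hx ⟨h1, h2.trans h.symm⟩
  have hiff : ∀ x y, F.Adj x y ↔ (s' x = y ∨ s' y = x) := by
    intro x y
    rw [hF]
    constructor
    · have key : ∀ x y, s x = y → ¬ (x ∈ I ∧ hm x = y) → s' x = y := by
        intro x y h1 h2
        rw [hs', g2 x, h1]
        rintro ⟨h3, h4⟩
        exact h2 ⟨h3, h4.trans h1⟩
      have key2 : ∀ x y, x ∈ I → f x = y → s' x = y ∨ s' y = x := by
        intro x y h1 h2
        by_cases h3 : hm x = s x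
        · left; rw [hs', g1 x h1 h3]; exact h2
        · obtain ⟨h4, h5⟩ := hL x h1 h3
          right
          have h6 : hm x = y := h4.symm.trans h2
          rw [hs', g2 y, ← h6]
          · exact h5
          · rintro ⟨h7, -⟩
            exact (hI y h7).1 (h2 ▸ hf x h1)
      rintro (⟨h1 | h1, h2, h3⟩ | ⟨h1, h2⟩ | ⟨h1, h2⟩)
      · exact Or.inl (key x y h1 h2)
      · exact Or.inr (key y x h1 h3)
      · exact key2 x y h1 h2
      · exact (key2 y x h1 h2).symm
    · rintro (h | h)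
      · exact hone x y h
      · exact plc_symm s I hm f y x (hone y x h)
  have hcyc : ∀ x y, SameCycle s' x y := PD_sameCycle F hc s' (fun x y h => (hiff x y).1 h)
  refine ⟨s', hcyc, hiff, fun x => rfl, ?_⟩
  exact (realise_of mk hmk s hs hV W hmW hW hlink I hm f hI hf hfm s' hcyc
    (fun x y => (hiff x y).symm.trans (hF x y))).2.2.2.1

end Pool.Agent.H10.SF3
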