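import Mathlib
import Pool.Agent.H10.SF3.PD2
import Pool.Agent.H10.SF3.PD3

set_option linter.unusedSectionVars false

namespace Pool.Agent.H10.SF3

open Equiv Equiv.Perm

/-- PD3. A placement with one cycle gives a cyclic permutation with at least as many marks. -/
theorem realise {V : Type} [Fintype V] [DecidableEq V] (mk : V → V → Prop) [DecidableRel mk]
    (hmk : ∀ x y, mk x y → mk y x) (s : Perm V)
    (hs : ∀ x y, SameCycle s x y) (hV : 3 ≤ Fintype.card V)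
    (W : Finset V) (hmW : ∀ x y, mk x y → (x ∈ W ∧ y ∉ W) ∨ (x ∉ W ∧ y ∈ W))
    (hW : ∀ w ∈ W, s w ∉ W) (hlink : ∀ w ∈ W, s (s w) ∉ W)
    (I : Finset V) (hm f : V → V)
    (hI : ∀ x ∈ I, x ∉ W ∧ hm x ∈ W ∧ (hm x = s x ∨ s (hm x) = x))
    (hf : ∀ x ∈ I, f x ∈ W) (hfm : ∀ x ∈ I, f x = hm x ∨ mk x (f x))
    (F : SimpleGraph V) (hF : ∀ x y, F.Adj x y ↔ plc s I hm f x y)
    (h2 : ∀ v, (F.neighborSet v).ncard = 2)
    (hc : Nat.card F.ConnectedComponent = 1) :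
    ∃ π : Perm V, (∀ x y, SameCycle π x y) ∧ (∀ x y, F.Adj x y ↔ (π x = y ∨ π y = x)) ∧
      (∀ x, π x = s x ∨ s (π x) = x ∨
        (mk x (π x) ∧ ((x ∈ W ∧ π x ∉ W) ∨ (x ∉ W ∧ π x ∈ W)))) ∧
      (∀ x, x ∉ W → s x ∉ W → π x = s x ∨ π (s x) = x) ∧
      (∀ w ∈ W, π w ∉ W) ∧
      (Finset.univ.filter (fun x => mk x (s x))).card ≤
        (Finset.univ.filter (fun x => mk x (π x))).card ∧
      ((∃ x ∈ I, f x ≠ hm x ∧ ¬ mk x (hm x)) →
        (Finset.univ.filter (fun x => mk x (s x))).card <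
        (Finset.univ.filter (fun x => mk x (π x))).card) := by
  obtain ⟨π, hπ, hadj⟩ := cyc_of_connected F h2 hc
  exact ⟨π, hπ, hadj, realise_of mk hmk s hs hV W hmW hW hlink I hm f hI hf hfm π hπ
    (fun x y => (hadj x y).symm.trans (hF x y))⟩

end Pool.Agent.H10.SF3
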