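import Mathlib

set_option linter.unusedSectionVars false

/-!
The neutral case: only complete entering tokens of second hubs of bad pairs are moved.
-/

namespace Pool.Agent.H10.SF3

open Equiv Equiv.Perm

/-- Positions along a cycle, starting just after `v0`. -/
theorem exists_pos {V : Type} [Fintype V] [DecidableEq V] (s : Perm V)
    (hs : ∀ x y, SameCycle s x y) (v0 : V) :
    ∃ pos : V → ℕ, Function.Injective pos ∧ pos (s v0) = 0 ∧
      (∀ v, v ≠ v0 → pos (s v) = pos v + 1) ∧ ∀ v, pos v ≤ pos v0 := by
  classical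
  have hex : ∀ v, ∃ k : ℕ, (s ^ k) (s v0) = v := by
    intro v
    obtain ⟨k, _, hk⟩ := (hs (s v0) v).exists_pow_eq'
    exact ⟨k, hk⟩
  let pos : V → ℕ := fun v => Nat.find (hex v)
  have h1 : ∀ v, (s ^ pos v) (s v0) = v := fun v => Nat.find_spec (hex v)
  have h2 : ∀ v k, (s ^ k) (s v0) = v → pos v ≤ k := fun v k h => Nat.find_min' (hex v) h
  have hinj : Function.Injective pos := by
    intro v v' h
    rw [← h1 v, ← h1 v', h]
  have h0 : pos (s v0) = 0 := Nat.le_zero.1 (h2 _ 0 rfl)
  have hstep : ∀ v, v ≠ v0 → pos (s v) = pos v + 1 := by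
    intro v hv
    have h3 : pos (s v) ≤ pos v + 1 := by
      apply h2
      rw [pow_succ', Perm.mul_apply, h1]
    rcases Nat.eq_zero_or_pos (pos (s v)) with h4 | h4
    · exfalso
      have h5 := h1 (s v)
      rw [h4] at h5
      exact hv (s.injective h5.symm)
    · obtain ⟨j, hj⟩ : ∃ j, pos (s v) = j + 1 := ⟨pos (s v) - 1, by omega⟩
      have h5 := h1 (s v)
      rw [hj, pow_succ', Perm.mul_apply] at h5
      have h6 := h2 v j (s.injective h5)
      omega
  refine ⟨pos, hinj, h0, hstep, ?_⟩
  intro v
  by_contra hlt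
  push Not at hlt
  -- the point at the position after `v0` on the way to `v`
  have hmono : ∀ k, k ≤ pos v → pos ((s ^ k) (s v0)) = k := by
    intro k hk
    refine le_antisymm (h2 _ k rfl) ?_
    by_contra hlt2
    push Not at hlt2
    have h5 : (s ^ (pos v - k)) ((s ^ pos ((s ^ k) (s v0))) (s v0)) = v := by
      rw [h1, ← Perm.mul_apply, ← pow_add, Nat.sub_add_cancel hk]
      exact h1 v
    rw [← Perm.mul_apply, ← pow_add] at h5
    have := h2 v _ h5
    omega
  have h6 := hmono (pos v0 + 1) hlt
  rw [pow_succ', Perm.mul_apply, h1, h0] at h6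
  omega

/-- Positions on a segment. -/
theorem pos_pow {V : Type} (s : Perm V) (pos : V → ℕ) (v0 : V)
    (hpos : ∀ v, v ≠ v0 → pos (s v) = pos v + 1) (hmax : ∀ v, pos v ≤ pos v0) (u w : V)
    (huw : pos u < pos w) : ∀ i, i ≤ pos w - pos u → pos ((s ^ i) u) = pos u + i := by
  intro i
  induction i with
  | zero => intro _; rfl
  | succ i ih =>
    intro hi
    have h1 := ih (by omega)
    rw [pow_succ', Perm.mul_apply, hpos, h1]
    · rfl
    · intro h
      have := hmax w
      rw [h] at h1
      omega

/-- The open segment from `u` to `w` in terms of positions. -/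
theorem seg_iff {V : Type} (s : Perm V) (pos : V → ℕ) (hinj : Function.Injective pos) (v0 : V)
    (hpos : ∀ v, v ≠ v0 → pos (s v) = pos v + 1) (hmax : ∀ v, pos v ≤ pos v0) (u w : V)
    (huw : pos u < pos w) :
    (s ^ (pos w - pos u)) u = w ∧
      (∀ i, 0 < i → i < pos w - pos u → (s ^ i) u ≠ w) ∧
      ∀ v, (∃ i, 0 < i ∧ i < pos w - pos u ∧ (s ^ i) u = v) ↔ (pos u < pos v ∧ pos v < pos w) := by
  have h := pos_pow s pos v0 hpos hmax u w huw
  refine ⟨?_, ?_, ?_⟩
  · apply hinj
    rw [h _ le_rfl]
    omega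
  · intro i hi1 hi2 h3
    have h4 := h i hi2.le
    rw [h3] at h4
    omega
  · intro v
    constructor
    · rintro ⟨i, hi1, hi2, rfl⟩
      rw [h i hi2.le]
      omega
    · rintro ⟨h1, h2⟩
      refine ⟨pos v - pos u, by omega, by omega, ?_⟩
      apply hinj
      rw [h _ (by omega)]
      omega

/-- The neutral case cannot occur: `M` is the set of the second hubs whose entering token is
moved. -/
theorem neutral {V : Type} [Fintype V] [DecidableEq V] (s s' : Perm V)
    (hs' : ∀ x y, SameCycle s' x y) (pos : V → ℕ) (hinj : Function.Injective pos) (v0 : V)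
    (h0 : pos (s v0) = 0) (hpos : ∀ v, v ≠ v0 → pos (s v) = pos v + 1)
    (M : Finset V) (hM : M.Nonempty) (pr : V → V)
    (hfst : ∀ w ∈ M, pos (pr w) < pos w)
    (hkeep : ∀ v, s v ∉ M → s' v = s v)
    (hmove : ∀ v, s v ∈ M → s' v ≠ s v)
    (hcr : ∀ w ∈ M, ∀ w' ∈ M, pos w < pos w' →
      pos (pr w') < pos (pr w) ∨ pos w < pos (pr w'))
    (hcr' : ∀ w ∈ M, ∀ w' ∈ M, w' ≠ w → ∀ k, 0 < k → (s' ^ k) (pr w) = w →
      (∀ i, 0 < i → i < k → (s' ^ i) (pr w) ≠ w) →
      ((∃ i, 0 < i ∧ i < k ∧ (s' ^ i) (pr w) = pr w') ↔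
        ∃ i, 0 < i ∧ i < k ∧ (s' ^ i) (pr w) = w')) : False := by
  classical
  obtain ⟨P, hP, hmin⟩ := M.exists_min_image pos hM
  set u := pr P with hu
  have huP : pos u < pos P := hfst P hP
  have hex : ∃ k : ℕ, 0 < k ∧ (s' ^ k) u = P := by
    obtain ⟨k, _, hk⟩ := (hs' u P).exists_pow_eq'
    refine ⟨k, ?_, hk⟩
    rcases Nat.eq_zero_or_pos k with h | h
    · rw [h, pow_zero, Perm.one_apply] at hk
      rw [hk] at huP
      exact absurd huP (lt_irrefl _)
    · exact h
  obtain ⟨hk0, hk⟩ := Nat.find_spec hex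
  have hkmin : ∀ i, 0 < i → i < Nat.find hex → (s' ^ i) u ≠ P :=
    fun i hi1 hi2 h => Nat.find_min hex hi2 ⟨hi1, h⟩
  set k := Nat.find hex
  let X : V → Prop := fun v => ∃ i, 0 < i ∧ i < k ∧ (s' ^ i) u = v
  have X1 : ¬ X u := by
    rintro ⟨i, hi1, hi2, hi3⟩
    apply hkmin (k - i) (by omega) (by omega)
    have h1 : (s' ^ (k - i)) ((s' ^ i) u) = P := by
      rw [← Perm.mul_apply, ← pow_add, Nat.sub_add_cancel hi2.le, hk]
    rwa [hi3] at h1
  have X2 : ¬ X P := by
    rintro ⟨i, hi1, hi2, hi3⟩
    exact hkmin i hi1 hi2 hi3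
  have X3 : ∀ v, X v → X (s' v) ∨ s' v = P := by
    rintro v ⟨i, hi1, hi2, hi3⟩
    by_cases h : i + 1 = k
    · right
      rw [← hi3, ← Perm.mul_apply, ← pow_succ', h, hk]
    · left
      exact ⟨i + 1, by omega, by omega, by rw [pow_succ', Perm.mul_apply, hi3]⟩
  have X4 : ∀ v, X (s' v) → X v ∨ v = u := by
    rintro v ⟨i, hi1, hi2, hi3⟩
    obtain ⟨j, rfl⟩ : ∃ j, i = j + 1 := ⟨i - 1, by omega⟩
    rw [pow_succ', Perm.mul_apply] at hi3
    have h4 := s'.injective hi3
    rcases Nat.eq_zero_or_pos j with h | h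
    · right
      rw [h, pow_zero, Perm.one_apply] at h4
      exact h4.symm
    · left
      exact ⟨j, h, by omega, h4⟩
  have X5 : ∀ w ∈ M, w ≠ P → (X (pr w) ↔ X w) := fun w hw hne =>
    hcr' P hP w hw hne k hk0 hk hkmin
  have hMpos : ∀ w ∈ M, w ≠ P → pos P < pos w := by
    intro w hw hne
    exact lt_of_le_of_ne (hmin w hw) (fun h => hne (hinj h).symm)
  -- the vertices before `u`
  have hA : ∀ n, ∀ v, pos v = n → n ≤ pos u → (X v ↔ X (s v0)) := by
    intro n
    induction n using Nat.strong_induction_on with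
    | _ n ih =>
      intro v hv hn
      by_cases hv0 : v = s v0
      · rw [hv0]
      have hy : s.symm v ≠ v0 := by
        intro h
        apply hv0
        rw [← h, Equiv.apply_symm_apply]
      have hy1 : pos v = pos (s.symm v) + 1 := by
        have := hpos _ hy
        rwa [Equiv.apply_symm_apply] at this
      have hvP : v ≠ P := by
        intro h
        rw [h] at hv
        omega
      by_cases hvM : v ∈ M
      · rw [← X5 v hvM hvP]
        exact ih (pos (pr v)) (by have := hfst v hvM; omega) (pr v) rfl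
          (by have := hfst v hvM; omega)
      · have h5 : s' (s.symm v) = v := by
          rw [hkeep, Equiv.apply_symm_apply]
          rw [Equiv.apply_symm_apply]
          exact hvM
        rw [← ih (pos (s.symm v)) (by omega) (s.symm v) rfl (by omega)]
        constructor
        · intro h
          rw [← h5] at h
          rcases X4 _ h with h6 | h6
          · exact h6
          · rw [h6] at hy1
            omega
        · intro h
          rcases X3 _ h with h6 | h6
          · rwa [h5] at h6
          · rw [h5] at h6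
            exact absurd h6 hvP
  have hA' : ∀ v, pos v ≤ pos u → ¬ X v := by
    intro v hv h
    apply X1
    rw [hA _ u rfl le_rfl, ← hA _ v rfl hv]
    exact h
  -- the vertices after `P`
  have hB : ∀ n, ∀ v, pos v = n → pos P ≤ n → ¬ X v := by
    intro n
    induction n using Nat.strong_induction_on with
    | _ n ih =>
      intro v hv hn
      by_cases hvP : v = P
      · rw [hvP]
        exact X2
      have hvP2 : pos P < pos v :=
        lt_of_le_of_ne (by omega) (fun h => hvP (hinj h).symm)
      have hy : s.symm v ≠ v0 := by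
        intro h
        have h2 : v = s v0 := by rw [← h, Equiv.apply_symm_apply]
        rw [h2, h0] at hvP2
        omega
      have hy1 : pos v = pos (s.symm v) + 1 := by
        have := hpos _ hy
        rwa [Equiv.apply_symm_apply] at this
      by_cases hvM : v ∈ M
      · rw [← X5 v hvM hvP]
        rcases hcr P hP v hvM hvP2 with h | h
        · exact hA' _ h.le
        · exact ih (pos (pr v)) (by have := hfst v hvM; omega) (pr v) rfl h.le
      · have h5 : s' (s.symm v) = v := by
          rw [hkeep, Equiv.apply_symm_apply]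
          rw [Equiv.apply_symm_apply]
          exact hvM
        intro h
        rw [← h5] at h
        rcases X4 _ h with h6 | h6
        · exact ih (pos (s.symm v)) (by omega) (s.symm v) rfl (by omega) h6
        · rw [h6] at hy1
          omega
  -- the token which arrived at `P`
  have ht : s' (s'.symm P) = P := Equiv.apply_symm_apply _ _
  set t := s'.symm P
  have hstM : s t ∈ M := by
    by_contra h
    have h1 := hkeep t h
    rw [ht] at h1
    exact h (h1 ▸ hP)
  have hstP : s t ≠ P := by
    intro h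
    exact hmove t hstM (ht.trans h.symm)
  have hpos1 := hMpos _ hstM hstP
  have htv0 : t ≠ v0 := by
    intro h
    rw [h, h0] at hpos1
    omega
  have hpos2 := hpos t htv0
  have hpt : pos P ≤ pos t := by omega
  apply hB _ t rfl hpt
  refine ⟨k - 1, ?_, by omega, ?_⟩
  · rcases Nat.eq_zero_or_pos (k - 1) with h | h
    · exfalso
      have hk1 : k = 1 := by omega
      have h2 : (s' ^ k) u = P := hk
      rw [hk1, pow_one] at h2
      have h3 : u = t := by
        apply s'.injective
        rw [h2, ht]
      rw [← h3] at hpt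
      omega
    · exact h
  · apply s'.injective
    rw [← Perm.mul_apply, ← pow_succ', Nat.sub_add_cancel hk0, hk, ht]

end Pool.Agent.H10.SF3
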