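import Mathlib
import Pool.Agent.H10.SF3.PC
import Pool.Agent.H10.SF3.PE0

set_option linter.unusedSectionVars false

/-!
The neutral case for best cycles.
-/

namespace Pool.Agent.H10.SF3

open Equiv Equiv.Perm

/-- Two bad pairs do not cross, in terms of positions. `u`, `pr u` is a bad pair with
`pos u < pos (pr u)`; so is `v`, `pr v`. -/
theorem Best.noncross_pos {V : Type} [Fintype V] [DecidableEq V] {G : SimpleGraph V} {s0 : Perm V}
    {W : Finset V} {pr : V → V} {s : Perm V} (S : Sys G s0 W pr) (hno : ¬ Two G)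
    (B : Best G s0 W pr s) (pos : V → ℕ) (hinj : Function.Injective pos) (v0 : V)
    (hpos : ∀ v, v ≠ v0 → pos (s v) = pos v + 1) (hmax : ∀ v, pos v ≤ pos v0)
    (w w' : V) (hw : w ∈ W) (hw' : w' ∈ W)
    (hc1 : cmp G pr (s (pr w)) (pr w)) (hc2 : cmp G pr (s.symm w) w)
    (hc1' : cmp G pr (s (pr w')) (pr w')) (hc2' : cmp G pr (s.symm w') w')
    (h1 : pos (pr w) < pos w) (h1' : pos (pr w') < pos w') (h2 : pos w < pos w') :
    pos (pr w') < pos (pr w) ∨ pos w < pos (pr w') := by
  obtain ⟨e1, e2, e3⟩ := seg_iff s pos hinj v0 hpos hmax (pr w) w h1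
  have hpp := S.prpr w hw
  have hpp' := S.prpr w' hw'
  have hne : w' ≠ w := fun h => by rw [h] at h2; exact lt_irrefl _ h2
  have hne2 : pr w' ≠ pr w := by
    intro h
    apply hne
    rw [← hpp', ← hpp, h]
  have hne3 : pr w' ≠ w := by
    intro h
    rw [h] at h1'
    have h3 : w' = pr w := by rw [← h, hpp']
    rw [h3] at h2
    omega
  have h4 := B.noncross S hno (pr w) (S.prW w hw) hc1 (by rw [hpp]; exact hc2) (pr w')
    (S.prW w' hw') hne2 (by rw [hpp]; exact hne3) hc1' (by rw [hpp']; exact hc2')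
    (pos w - pos (pr w)) (by rw [hpp]; exact e1) (by omega) (by rw [hpp]; exact e2)
  rw [hpp', e3, e3] at h4
  have h5 : pos (pr w') ≠ pos (pr w) := fun h => hne2 (hinj h)
  have h6 : pos (pr w') ≠ pos w := fun h => hne3 (hinj h)
  omega

/-- PE. The neutral case: `M` is the set of the second hubs whose entering token is moved, all
of them second hubs of bad pairs with a complete entering token at the second hub and a complete
leaving token at the first hub; `s'` is the new cycle. -/
theorem neutral_best {V : Type} [Fintype V] [DecidableEq V] {G : SimpleGraph V} {s0 : Perm V}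
    {W : Finset V} {pr : V → V} {s s' : Perm V} (S : Sys G s0 W pr) (hno : ¬ Two G)
    (B : Best G s0 W pr s) (B' : Best G s0 W pr s')
    (pos : V → ℕ) (hinj : Function.Injective pos) (v0 : V) (h0 : pos (s v0) = 0)
    (hpos : ∀ v, v ≠ v0 → pos (s v) = pos v + 1) (hmax : ∀ v, pos v ≤ pos v0)
    (M : Finset V) (hM : M.Nonempty) (hMW : ∀ w ∈ M, w ∈ W)
    (hfst : ∀ w ∈ M, pos (pr w) < pos w)
    (hc1 : ∀ w ∈ M, cmp G pr (s (pr w)) (pr w)) (hc2 : ∀ w ∈ M, cmp G pr (s.symm w) w)
    (hc2' : ∀ w ∈ M, cmp G pr (s'.symm w) w)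
    (hkeep : ∀ v, s v ∉ M → s' v = s v) (hmove : ∀ v, s v ∈ M → s' v ≠ s v) : False := by
  refine neutral s s' B'.cyc pos hinj v0 h0 hpos M hM pr hfst hkeep hmove ?_ ?_
  · intro w hw w' hw' hlt
    exact B.noncross_pos S hno pos hinj v0 hpos hmax w w' (hMW w hw) (hMW w' hw') (hc1 w hw)
      (hc2 w hw) (hc1 w' hw') (hc2 w' hw') (hfst w hw) (hfst w' hw') hlt
  · intro w hw w' hw' hne k hk0 hk hkmin
    have hpp := S.prpr w (hMW w hw)
    have hpp' := S.prpr w' (hMW w' hw')
    have hne2 : pr w' ≠ pr w := by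
      intro h
      apply hne
      rw [← hpp', ← hpp, h]
    have hne3 : pr w' ≠ w := by
      intro h
      have h1 := hfst w hw
      have h2 := hfst w' hw'
      have h3 : w' = pr w := by rw [← h, hpp']
      rw [h, h3] at h2
      omega
    have hk1 : ∀ z ∈ M, s' (pr z) = s (pr z) := fun z hz =>
      hkeep _ (fun h => B.hub (pr z) (S.prW z (hMW z hz)) (hMW _ h))
    have h4 := B'.noncross S hno (pr w) (S.prW w (hMW w hw)) (by rw [hk1 w hw]; exact hc1 w hw)
      (by rw [hpp]; exact hc2' w hw) (pr w') (S.prW w' (hMW w' hw')) hne2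
      (by rw [hpp]; exact hne3) (by rw [hk1 w' hw']; exact hc1 w' hw')
      (by rw [hpp']; exact hc2' w' hw') k (by rw [hpp]; exact hk) hk0 (by rw [hpp]; exact hkmin)
    rw [hpp'] at h4
    exact h4

end Pool.Agent.H10.SF3
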