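import Mathlib

set_option linter.unusedSectionVars false

namespace Pool.Agent.H10.SF3

open Equiv Equiv.Perm

variable {V : Type} [Fintype V] [DecidableEq V]

theorem cyc_on (s : Perm V) (hs : ∀ x y, SameCycle s x y) :
    s.IsCycleOn ((Finset.univ : Finset V) : Set V) := by
  refine ⟨?_, fun x _ y _ => hs x y⟩
  rw [Finset.coe_univ]
  exact Set.bijOn_univ.2 s.bijective

theorem exists_ps (s : Perm V) (hs : ∀ x y, SameCycle s x y) (r v : V) :
    ∃ i, i < Fintype.card V ∧ (s ^ i) r = v := by
  obtain ⟨i, hi, h⟩ := (cyc_on s hs).exists_pow_eq (Finset.mem_univ r) (Finset.mem_univ v)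
  exact ⟨i, by rwa [Finset.card_univ] at hi, h⟩

/-- The position of `v` on the cycle `s` counted from `r`. -/
noncomputable def ps (s : Perm V) (hs : ∀ x y, SameCycle s x y) (r v : V) : ℕ :=
  (exists_ps s hs r v).choose

variable (s : Perm V) (hs : ∀ x y, SameCycle s x y)

theorem ps_lt (r v : V) : ps s hs r v < Fintype.card V := (exists_ps s hs r v).choose_spec.1

theorem ps_pow (r v : V) : (s ^ ps s hs r v) r = v := (exists_ps s hs r v).choose_spec.2

include hs in
theorem ps_pow_inj (r : V) (i j : ℕ) (hi : i < Fintype.card V) (hj : j < Fintype.card V)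
    (h : (s ^ i) r = (s ^ j) r) : i = j := by
  have := ((cyc_on s hs).pow_apply_eq_pow_apply (Finset.mem_univ r)).1 h
  rw [Finset.card_univ] at this
  exact Nat.ModEq.eq_of_lt_of_lt this hi hj

include hs in
theorem ps_pow_card (r : V) : (s ^ Fintype.card V) r = r := by
  have := (cyc_on s hs).pow_card_apply (Finset.mem_univ r)
  rwa [Finset.card_univ] at this

theorem ps_eq (r : V) (i : ℕ) (hi : i < Fintype.card V) : ps s hs r ((s ^ i) r) = i :=
  ps_pow_inj s hs r _ _ (ps_lt s hs r _) hi (ps_pow s hs r _)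

theorem ps_eq' (r v : V) (i : ℕ) (hi : i < Fintype.card V) (h : (s ^ i) r = v) :
    ps s hs r v = i := by
  rw [← h]; exact ps_eq s hs r i hi

theorem ps_inj (r u v : V) (h : ps s hs r u = ps s hs r v) : u = v := by
  rw [← ps_pow s hs r u, ← ps_pow s hs r v, h]

theorem ps_root (r : V) : ps s hs r r = 0 :=
  ps_eq' s hs r r 0 (Fintype.card_pos_iff.2 ⟨r⟩) rfl

theorem ps_eq_zero (r v : V) (h : ps s hs r v = 0) : v = r :=
  ps_inj s hs r v r (by rw [h, ps_root])

theorem ps_succ (r v : V) (h : s v ≠ r) : ps s hs r (s v) = ps s hs r v + 1 := by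
  have h1 : (s ^ (ps s hs r v + 1)) r = s v := by
    rw [pow_succ', mul_apply, ps_pow]
  refine ps_eq' s hs r (s v) _ ?_ h1
  have h2 := ps_lt s hs r v
  rcases Nat.lt_or_ge (ps s hs r v + 1) (Fintype.card V) with h3 | h3
  · exact h3
  · exfalso
    have h4 : ps s hs r v + 1 = Fintype.card V := by omega
    rw [h4, ps_pow_card s hs] at h1
    exact h h1.symm

theorem ps_last (r : V) : ps s hs r (s.symm r) + 1 = Fintype.card V := by
  have h2 := ps_lt s hs r (s.symm r)
  rcases Nat.lt_or_ge (ps s hs r (s.symm r) + 1) (Fintype.card V) with h3 | h3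
  · exfalso
    have h1 : (s ^ (ps s hs r (s.symm r) + 1)) r = r := by
      rw [pow_succ', mul_apply, ps_pow, Equiv.apply_symm_apply]
    have := ps_eq s hs r _ h3
    rw [h1, ps_root] at this
    omega
  · omega

theorem ps_pred (r v : V) (h : v ≠ r) : ps s hs r (s.symm v) + 1 = ps s hs r v := by
  have := ps_succ s hs r (s.symm v) (by rw [Equiv.apply_symm_apply]; exact h)
  rw [Equiv.apply_symm_apply] at this
  exact this.symm

theorem ps_add (r u v : V) (h : ps s hs r u ≤ ps s hs r v) :
    (s ^ (ps s hs r v - ps s hs r u)) u = v := by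
  have h1 : (s ^ (ps s hs r v - ps s hs r u + ps s hs r u)) r = v := by
    rw [Nat.sub_add_cancel h, ps_pow]
  rw [pow_add, mul_apply, ps_pow] at h1
  exact h1

theorem ps_wrap (r u v : V) :
    (s ^ (Fintype.card V - ps s hs r u + ps s hs r v)) u = v := by
  have h2 := ps_lt s hs r u
  have h1 : (s ^ (ps s hs r v + (Fintype.card V - ps s hs r u) + ps s hs r u)) r = v := by
    have : ps s hs r v + (Fintype.card V - ps s hs r u) + ps s hs r u =
        ps s hs r v + Fintype.card V := by omega
    rw [this, pow_add, mul_apply, ps_pow_card s hs, ps_pow]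
  rw [pow_add, mul_apply, ps_pow, add_comm] at h1
  exact h1

end Pool.Agent.H10.SF3
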