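import Mathlib
import Pool.Agent.H10.SF3.PA
import Pool.Agent.H10.SF3.PD1
import Pool.Agent.H10.SF3.Pos

set_option linter.unusedSectionVars false

/-! Labels along the cycle, the connected placement. -/

namespace Pool.Agent.H10.SF3

open Equiv Equiv.Perm

variable {V : Type} [Fintype V] [DecidableEq V]

/-- home hub of a movable token (`A` = active hubs) -/
def hmA (s : Perm V) (A : Finset V) (x : V) : V := if s x ∈ A then s x else s.symm x

/-- movable tokens: the entering tokens of all active hubs, the leaving tokens of the active free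
hubs (`FA`) other than `v0` -/
def mvI (s : Perm V) (A FA : Finset V) (v0 : V) : Finset V :=
  A.image s.symm ∪ (FA.erase v0).image s

theorem mem_mvI (s : Perm V) (A FA : Finset V) (v0 x : V) :
    x ∈ mvI s A FA v0 ↔ (s x ∈ A ∨ (s.symm x ∈ FA ∧ s.symm x ≠ v0)) := by
  unfold mvI
  rw [Finset.mem_union, Finset.mem_image, Finset.mem_image]
  constructor
  · rintro (⟨a, ha, rfl⟩ | ⟨a, ha, rfl⟩)
    · left; rw [Equiv.apply_symm_apply]; exact ha
    · right; rw [Equiv.symm_apply_apply]
      exact ⟨Finset.mem_of_mem_erase ha, Finset.ne_of_mem_erase ha⟩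
  · rintro (h | ⟨h1, h2⟩)
    · exact Or.inl ⟨s x, h, Equiv.symm_apply_apply _ _⟩
    · exact Or.inr ⟨s.symm x, Finset.mem_erase.mpr ⟨h2, h1⟩, Equiv.apply_symm_apply _ _⟩

/-- The labels along the cycle. -/
theorem exists_lab (P : V → ℕ) (pred pr : V → V) (r v0 : V) (A FA : Finset V)
    (h1 : ∀ v, v ≠ r → P (pred v) < P v)
    (h2 : ∀ w ∈ A, w ∉ FA → w ≠ v0 → P (pr w) < P w) :
    ∃ lab : V → ℕ, lab r = 0 ∧ lab v0 = 0 ∧
      (∀ v, v ≠ r → v ≠ v0 → v ∈ A → v ∉ FA → lab v = lab (pr v)) ∧
      (∀ v, v ≠ r → v ≠ v0 → ¬ (v ∈ A ∧ v ∉ FA) → pred v ∈ FA → lab v = P (pred v)) ∧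
      (∀ v, v ≠ r → v ≠ v0 → ¬ (v ∈ A ∧ v ∉ FA) → pred v ∉ FA → lab v = lab (pred v)) := by
  let F : (v : V) → ((u : V) → P u < P v → ℕ) → ℕ := fun v rec =>
    if v = r ∨ v = v0 then 0 else if v ∈ A ∧ v ∉ FA then
      (if h' : P (pr v) < P v then rec (pr v) h' else 0)
    else if pred v ∈ FA then P (pred v) else
      (if h' : P (pred v) < P v then rec (pred v) h' else 0)
  let lab : V → ℕ := (InvImage.wf P Nat.lt_wfRel.wf).fix F
  have labeq : ∀ v, lab v = F v (fun u _ => lab u) := fun v => WellFounded.fix_eq _ _ v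
  refine ⟨lab, ?_, ?_, ?_, ?_, ?_⟩
  · rw [labeq]
    exact if_pos (Or.inl rfl)
  · rw [labeq]
    exact if_pos (Or.inr rfl)
  · intro v a b c d
    rw [labeq v]
    change (if v = r ∨ v = v0 then 0 else if v ∈ A ∧ v ∉ FA then _ else _) = _
    rw [if_neg (by rintro (h | h); exacts [a h, b h]), if_pos ⟨c, d⟩, dif_pos (h2 v c d b)]
  · intro v a b c d
    rw [labeq v]
    change (if v = r ∨ v = v0 then 0 else if v ∈ A ∧ v ∉ FA then _ else _) = _
    rw [if_neg (by rintro (h | h); exacts [a h, b h]), if_neg c, if_pos d]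
  · intro v a b c d
    rw [labeq v]
    change (if v = r ∨ v = v0 then 0 else if v ∈ A ∧ v ∉ FA then _ else _) = _
    rw [if_neg (by rintro (h | h); exacts [a h, b h]), if_neg c, if_neg d, dif_pos (h1 v a)]

theorem card_sub (I A : Finset V) (g : V → V) (g' : {x // x ∈ I} → {w // w ∈ A})
    (hg : ∀ t, (g' t : V) = g t) (w : V) (hw : w ∈ A) :
    (I.filter (fun x => g x = w)).card =
      (Finset.univ.filter (fun t : {x // x ∈ I} => g' t = ⟨w, hw⟩)).card := by
  rw [← Finset.card_map (Function.Embedding.subtype _)]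
  congr 1
  ext x
  simp only [Finset.mem_filter, Finset.mem_map, Finset.mem_univ, true_and,
    Function.Embedding.coe_subtype]
  constructor
  · rintro ⟨h1, h2⟩
    exact ⟨⟨x, h1⟩, Subtype.ext (by rw [hg]; exact h2), rfl⟩
  · rintro ⟨t, h1, rfl⟩
    refine ⟨t.2, ?_⟩
    rw [← hg, h1]

/-- `v0` is an active hub, positions are counted from `s v0` (`v0` is the last vertex); every
active hub except `v0` which is not in `FA` (active free hubs) is the second hub of its pair. -/
theorem placement (s : Perm V) (hs : ∀ x y, SameCycle s x y)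
    (W : Finset V) (hW : ∀ w ∈ W, s w ∉ W) (hlink : ∀ w ∈ W, s (s w) ∉ W) (pr : V → V)
    (A FA : Finset V) (hA : A ⊆ W) (hFA : FA ⊆ A) (hpA : ∀ w ∈ A, pr w ∉ A)
    (v0 : V) (hv0 : v0 ∈ A)
    (hsec : ∀ w ∈ A, w ∉ FA → w ≠ v0 → ps s hs (s v0) (pr w) < ps s hs (s v0) w)
    (alt : V → V) (halt : ∀ x ∈ mvI s A FA v0, alt x ∈ A ∧ alt x ≠ hmA s A x) :
    ∃ f : V → V, (∃ x ∈ mvI s A FA v0, f x ≠ hmA s A x) ∧
      (∀ x ∈ mvI s A FA v0, f x = hmA s A x ∨ f x = alt x) ∧
      (∀ w, ((mvI s A FA v0).filter (fun x => f x = w)).card =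
        ((mvI s A FA v0).filter (fun x => hmA s A x = w)).card) ∧
      ∀ C : Set V, (∀ u v, plc s (mvI s A FA v0) (hmA s A) f u v → (u ∈ C ↔ v ∈ C)) →
        (∀ w ∈ A, w ∉ FA → (w ∈ C ↔ pr w ∈ C)) → C = ∅ ∨ C = Set.univ := by
  classical
  set r := s v0 with hr
  set P : V → ℕ := fun v => ps s hs r v with hP
  set I := mvI s A FA v0 with hI
  have hAW : ∀ w ∈ A, w ∈ W := fun w h => hA h
  have hrW : r ∉ W := hW v0 (hAW v0 hv0)
  have hIW : ∀ x ∈ I, x ∉ W := by
    intro x hx hxW
    rcases (mem_mvI s A FA v0 x).mp hx with h | ⟨h, _⟩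
    · exact hW x hxW (hAW _ h)
    · have := hW _ (hAW _ (hFA h))
      rw [Equiv.apply_symm_apply] at this
      exact this hxW
  -- home hubs
  have hm1 : ∀ a ∈ A, hmA s A (s.symm a) = a := by
    intro a ha
    unfold hmA
    rw [Equiv.apply_symm_apply, if_pos ha]
  have hm2 : ∀ a ∈ A, hmA s A (s a) = a := by
    intro a ha
    unfold hmA
    rw [if_neg (fun h => hlink a (hAW a ha) (hAW _ h)), Equiv.symm_apply_apply]
  have hmAm : ∀ x ∈ I, hmA s A x ∈ A := by
    intro x hx
    rcases (mem_mvI s A FA v0 x).mp hx with h | ⟨h, _⟩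
    · have := hm1 _ h
      rw [Equiv.symm_apply_apply] at this
      rw [this]; exact h
    · have := hm2 _ (hFA h)
      rw [Equiv.apply_symm_apply] at this
      rw [this]; exact hFA h
  have inI1 : ∀ a ∈ A, s.symm a ∈ I := by
    intro a ha
    rw [hI, mem_mvI, Equiv.apply_symm_apply]
    exact Or.inl ha
  have inI2 : ∀ a ∈ FA, a ≠ v0 → s a ∈ I := by
    intro a ha hne
    rw [hI, mem_mvI, Equiv.symm_apply_apply]
    exact Or.inr ⟨ha, hne⟩
  -- positions
  have hpred : ∀ v, v ≠ r → P (s.symm v) + 1 = P v := fun v hv => ps_pred s hs r v hv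
  have hPlt : ∀ v, v ≠ r → P (s.symm v) < P v := fun v hv => by have := hpred v hv; omega
  have hne_r : ∀ a ∈ A, a ≠ r := fun a ha h => hrW (h ▸ hAW a ha)
  have hPpos : ∀ v, v ≠ r → P v ≠ 0 := fun v hv h => hv (ps_eq_zero s hs r v h)
  obtain ⟨lab, l0, l0', l2, l3, l4⟩ := exists_lab P (fun v => s.symm v) pr r v0 A FA hPlt
    (fun w h1 h2 h3 => hsec w h1 h2 h3)
  set J : Finset ℕ := (FA.erase v0).image P with hJ
  have hJ0 : 0 ∉ J := by
    intro h
    obtain ⟨a, ha, h0⟩ := Finset.mem_image.mp h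
    exact hPpos a (hne_r a (hFA (Finset.mem_of_mem_erase ha))) h0
  set wj : ℕ → V := fun j => (s ^ j) r with hwj
  have hwP : ∀ v, wj (P v) = v := fun v => ps_pow s hs r v
  have hwJ : ∀ j ∈ J, wj j ∈ FA ∧ wj j ≠ v0 ∧ P (wj j) = j := by
    intro j hj
    obtain ⟨a, ha, rfl⟩ := Finset.mem_image.mp hj
    rw [hwP]
    exact ⟨Finset.mem_of_mem_erase ha, Finset.ne_of_mem_erase ha, rfl⟩
  have hJm : ∀ a ∈ FA, a ≠ v0 → P a ∈ J := fun a ha hne =>
    Finset.mem_image_of_mem _ (Finset.mem_erase.mpr ⟨hne, ha⟩)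
  -- facts on the labels
  have hcase : ∀ v, v = r ∨ v = v0 ∨ (v ≠ r ∧ v ≠ v0 ∧ v ∈ A ∧ v ∉ FA ∧ lab v = lab (pr v) ∧
      P (pr v) < P v) ∨
      (v ≠ r ∧ v ≠ v0 ∧ ¬ (v ∈ A ∧ v ∉ FA) ∧ s.symm v ∈ FA ∧ lab v = P (s.symm v)) ∨
      (v ≠ r ∧ v ≠ v0 ∧ ¬ (v ∈ A ∧ v ∉ FA) ∧ s.symm v ∉ FA ∧ lab v = lab (s.symm v)) := by
    intro v
    by_cases a : v = r
    · exact Or.inl a
    by_cases b : v = v0
    · exact Or.inr (Or.inl b)
    by_cases c : v ∈ A ∧ v ∉ FA
    · exact Or.inr (Or.inr (Or.inl ⟨a, b, c.1, c.2, l2 v a b c.1 c.2, hsec v c.1 c.2 b⟩))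
    by_cases d : s.symm v ∈ FA
    · exact Or.inr (Or.inr (Or.inr (Or.inl ⟨a, b, c, d, l3 v a b c d⟩)))
    · exact Or.inr (Or.inr (Or.inr (Or.inr ⟨a, b, c, d, l4 v a b c d⟩)))
  have hne_v0 : ∀ v, v ≠ r → s.symm v ≠ v0 := by
    intro v hv h
    apply hv
    rw [hr, ← h, Equiv.apply_symm_apply]
  have hlabJ : ∀ n v, P v ≤ n → (lab v ∈ J ∨ lab v = 0) := by
    intro n
    induction n with
    | zero =>
      intro v hv
      have : v = r := by
        by_contra h
        exact hPpos v h (Nat.le_zero.mp hv)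
      rw [this]; exact Or.inr l0
    | succ n ih =>
      intro v hv
      rcases hcase v with h | h | ⟨_, _, _, _, h, h'⟩ | ⟨h1, _, _, h2, h3⟩ | ⟨h1, _, _, _, h3⟩
      · rw [h]; exact Or.inr l0
      · rw [h]; exact Or.inr l0'
      · rw [h]; exact ih _ (by omega)
      · rw [h3]; exact Or.inl (hJm _ h2 (hne_v0 v h1))
      · rw [h3]; exact ih _ (by have := hpred v h1; omega)
  have hlablt : ∀ n v, P v ≤ n → (lab v = 0 ∨ lab v < P v) := by
    intro n
    induction n with
    | zero =>
      intro v hv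
      have : v = r := by
        by_contra h
        exact hPpos v h (Nat.le_zero.mp hv)
      rw [this]; exact Or.inl l0
    | succ n ih =>
      intro v hv
      rcases hcase v with h | h | ⟨_, _, _, _, h, h'⟩ | ⟨h1, _, _, h2, h3⟩ | ⟨h1, _, _, _, h3⟩
      · rw [h]; exact Or.inl l0
      · rw [h]; exact Or.inl l0'
      · rw [h]
        rcases ih (pr v) (by omega) with h5 | h5
        · exact Or.inl h5
        · exact Or.inr (by omega)
      · rw [h3]; exact Or.inr (hPlt v h1)
      · rw [h3]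
        have h6 := hpred v h1
        rcases ih (s.symm v) (by omega) with h5 | h5
        · exact Or.inl h5
        · exact Or.inr (by omega)
  -- the data of the parity lemma
  have t0mem : s.symm v0 ∈ I := inI1 v0 hv0
  let home : {x // x ∈ I} → {w // w ∈ A} := fun x => ⟨hmA s A x, hmAm x x.2⟩
  let alt' : {x // x ∈ I} → {w // w ∈ A} := fun x => ⟨alt x, (halt x x.2).1⟩
  let ld : ℕ → {x // x ∈ I} := fun j =>
    if h : s (wj j) ∈ I then ⟨s (wj j), h⟩ else ⟨s.symm v0, t0mem⟩
  let tl : ℕ → {x // x ∈ I} := fun j =>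
    if h : s.symm (wj j) ∈ I then ⟨s.symm (wj j), h⟩ else ⟨s.symm v0, t0mem⟩
  have hld : ∀ j ∈ J, (ld j : V) = s (wj j) := by
    intro j hj
    have h := inI2 _ (hwJ j hj).1 (hwJ j hj).2.1
    change ((if h : s (wj j) ∈ I then ⟨s (wj j), h⟩ else ⟨s.symm v0, t0mem⟩ :
      {x // x ∈ I}) : V) = _
    rw [dif_pos h]
  have htl : ∀ j ∈ J, (tl j : V) = s.symm (wj j) := by
    intro j hj
    have h := inI1 _ (hFA (hwJ j hj).1)
    change ((if h : s.symm (wj j) ∈ I then ⟨s.symm (wj j), h⟩ else ⟨s.symm v0, t0mem⟩ :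
      {x // x ∈ I}) : V) = _
    rw [dif_pos h]
  have hhld : ∀ j ∈ J, (home (ld j) : V) = wj j := by
    intro j hj
    change hmA s A (ld j : V) = _
    rw [hld j hj]
    exact hm2 _ (hFA (hwJ j hj).1)
  have hhtl : ∀ j ∈ J, (home (tl j) : V) = wj j := by
    intro j hj
    change hmA s A (tl j : V) = _
    rw [htl j hj]
    exact hm1 _ (hFA (hwJ j hj).1)
  have : Nonempty {w // w ∈ A} := ⟨⟨v0, hv0⟩⟩
  obtain ⟨f', g1, g2, g3, g4⟩ := reassign home alt'
    (fun t h => (halt t t.2).2 (congrArg Subtype.val h)) J hJ0 (fun t => lab t)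
    (fun t => hlabJ (P t) t le_rfl) ld tl
    (by
      intro j hj
      obtain ⟨h1, h2, h3⟩ := hwJ j hj
      rw [hld j hj]
      have e1 : s (wj j) ≠ r := fun h => h2 (s.injective h)
      have e2 : s (wj j) ∉ W := hW _ (hAW _ (hFA h1))
      have e3 : s (wj j) ≠ v0 := fun h => e2 (h ▸ hAW v0 hv0)
      have e4 := l3 (s (wj j)) e1 e3 (fun h => e2 (hAW _ h.1))
        (by rw [Equiv.symm_apply_apply]; exact h1)
      rw [e4, Equiv.symm_apply_apply, h3])
    (by
      intro j hj
      obtain ⟨h1, h2, h3⟩ := hwJ j hj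
      rw [htl j hj]
      have e1 := hpred (wj j) (hne_r _ (hFA h1))
      rcases hlablt _ (s.symm (wj j)) le_rfl with h | h
      · rw [h]; omega
      · omega)
    (by
      intro j hj
      exact Subtype.ext ((hhtl j hj).trans (hhld j hj).symm))
    (by
      intro i hi j hj h
      have h1 : wj i = wj j := by
        rw [← hhld i hi, ← hhld j hj, h]
      rw [← (hwJ i hi).2.2, ← (hwJ j hj).2.2, h1])
    (by
      intro w
      refine ⟨⟨s.symm w, inI1 w w.2⟩, ⟨Subtype.ext (hm1 w w.2), ?_⟩, ?_⟩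
      · intro j hj h
        have h1 : s.symm (w : V) = s (wj j) := by
          rw [← hld j hj, ← h]
        apply hlink (wj j) (hAW _ (hFA (hwJ j hj).1))
        rw [← h1, Equiv.apply_symm_apply]
        exact hAW w w.2
      · rintro ⟨x, hx⟩ ⟨h1, h2⟩
        have h1' : hmA s A x = w := congrArg Subtype.val h1
        apply Subtype.ext
        change x = s.symm w
        rcases (mem_mvI s A FA v0 x).mp hx with h | ⟨h, h'⟩
        · have h3 := hm1 _ h
          rw [Equiv.symm_apply_apply] at h3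
          rw [← h1', h3, Equiv.symm_apply_apply]
        · exfalso
          have h3 := hm2 _ (hFA h)
          rw [Equiv.apply_symm_apply] at h3
          have hj := hJm _ h h'
          apply h2 _ hj
          apply Subtype.ext
          change x = (ld (P (s.symm x)) : V)
          rw [hld _ hj, hwP, Equiv.apply_symm_apply])
  let f : V → V := fun x => if h : x ∈ I then (f' ⟨x, h⟩ : V) else x
  have hf : ∀ t : {x // x ∈ I}, (f' t : V) = f t := by
    intro t
    change _ = (if h : (t : V) ∈ I then (f' ⟨t, h⟩ : V) else t)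
    rw [dif_pos t.2]
  have hfA : ∀ x ∈ I, f x ∈ A := by
    intro x hx
    rw [← hf ⟨x, hx⟩]
    exact (f' ⟨x, hx⟩).2
  have hcount : ∀ w, (I.filter (fun x => f x = w)).card =
      (I.filter (fun x => hmA s A x = w)).card := by
    intro w
    by_cases hw : w ∈ A
    · rw [card_sub I A f f' hf w hw, card_sub I A (hmA s A) home (fun _ => rfl) w hw]
      exact g3 ⟨w, hw⟩
    · rw [Finset.filter_false_of_mem, Finset.filter_false_of_mem]
      · intro x hx h
        exact hw (h ▸ hmAm x hx)
      · intro x hx h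
        exact hw (h ▸ hfA x hx)
  refine ⟨f, ?_, ?_, hcount, ?_⟩
  · obtain ⟨t, ht⟩ := Function.ne_iff.mp g1
    refine ⟨t, t.2, ?_⟩
    rw [← hf t]
    exact fun h => ht (Subtype.ext h)
  · intro x hx
    rcases g2 ⟨x, hx⟩ with h | h
    · left
      have := congrArg Subtype.val h
      rw [hf] at this
      exact this
    · right
      have := congrArg Subtype.val h
      rw [hf] at this
      exact this
  · -- connectivity
    have key : ∀ C : Set V, (∀ u v, plc s I (hmA s A) f u v → (u ∈ C ↔ v ∈ C)) →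
        (∀ w ∈ A, w ∉ FA → (w ∈ C ↔ pr w ∈ C)) → r ∉ C → C = ∅ := by
      intro C hC hCp hrC
      let rep : ℕ → V := fun j => if j = 0 then r else s (wj j)
      have hclaim : ∀ n v, P v ≤ n → (v ∈ FA → v = v0) → (v ∈ C ↔ rep (lab v) ∈ C) := by
        have hbase : r ∈ C ↔ rep (lab r) ∈ C := by
          rw [l0]
          change _ ↔ (if (0 : ℕ) = 0 then r else s (wj 0)) ∈ C
          rw [if_pos rfl]
        intro n
        induction n with
        | zero =>
          intro v hv _
          have : v = r := by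
            by_contra h
            exact hPpos v h (Nat.le_zero.mp hv)
          rw [this]
          exact hbase
        | succ n ih =>
          intro v hv hvFA
          rcases hcase v with h | h | ⟨a, b, c, d, h, h'⟩ | ⟨h1, h1', c, h2, h3⟩ |
            ⟨h1, h1', c, h2, h3⟩
          · rw [h]; exact hbase
          · rw [h, l0']
            change _ ↔ (if (0 : ℕ) = 0 then r else s (wj 0)) ∈ C
            rw [if_pos rfl]
            apply hC
            refine Or.inl ⟨Or.inl rfl, ?_, ?_⟩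
            · rintro ⟨h5, _⟩
              exact hIW v0 h5 (hAW v0 hv0)
            · rintro ⟨h5, _⟩
              rcases (mem_mvI s A FA v0 r).mp h5 with h6 | ⟨_, h6⟩
              · exact hlink v0 (hAW v0 hv0) (hAW _ h6)
              · apply h6
                rw [hr, Equiv.symm_apply_apply]
          · rw [h, hCp v c d]
            exact ih (pr v) (by omega) (fun h5 => absurd (hFA h5) (hpA v c))
          · rw [h3]
            have h5 : P (s.symm v) ≠ 0 := by
              intro h6
              exact hJ0 (h6 ▸ hJm _ h2 (hne_v0 v h1))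
            change _ ↔ (if P (s.symm v) = 0 then r else s (wj (P (s.symm v)))) ∈ C
            rw [if_neg h5, hwP, Equiv.apply_symm_apply]
          · rw [h3, ← ih (s.symm v) (by have := hpred v h1; omega) (fun h5 => absurd h5 h2)]
            symm
            apply hC
            refine Or.inl ⟨Or.inl (Equiv.apply_symm_apply _ _), ?_, ?_⟩
            · rintro ⟨h5, h6⟩
              have h7 := hmAm _ h5
              rw [h6] at h7
              by_cases h8 : v ∈ FA
              · exact h1' (hvFA h8)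
              · exact c ⟨h7, h8⟩
            · rintro ⟨h5, h6⟩
              have h7 := hmAm _ h5
              rw [h6] at h7
              rcases (mem_mvI s A FA v0 v).mp h5 with h8 | ⟨h8, _⟩
              · exact PD_uniq s W hlink v (hAW _ h8) (hAW _ h7)
              · exact h2 h8
      have hU := g4 (fun j => rep j ∈ C) (by
          change ¬ (if (0 : ℕ) = 0 then r else s (wj 0)) ∈ C
          rw [if_pos rfl]
          exact hrC) (by
          intro t t' htt
          have e : ∀ t : {x // x ∈ I}, ((t : V) ∈ C ↔ rep (lab t) ∈ C) := fun t =>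
            hclaim _ t le_rfl (fun h => absurd (hAW _ (hFA h)) (hIW t t.2))
          have e1 : ∀ t : {x // x ∈ I}, ((t : V) ∈ C ↔ f t ∈ C) := fun t =>
            hC _ _ (Or.inr (Or.inl ⟨t.2, rfl⟩))
          have e2 : f t = f t' := by rw [← hf, ← hf, htt]
          change rep (lab t) ∈ C ↔ rep (lab t') ∈ C
          rw [← e t, ← e t', e1 t, e1 t', e2])
      have hout : ∀ v, (v ∈ FA → v = v0) → v ∉ C := by
        intro v hv hvC
        have h1 := (hclaim _ v le_rfl hv).mp hvC
        rcases hlabJ _ v le_rfl with h2 | h2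
        · exact hU _ h2 h1
        · rw [h2] at h1
          change (if (0 : ℕ) = 0 then r else s (wj 0)) ∈ C at h1
          rw [if_pos rfl] at h1
          exact hrC h1
      rw [Set.eq_empty_iff_forall_notMem]
      intro v hvC
      by_cases hv : v ∈ FA → v = v0
      · exact hout v hv hvC
      · push Not at hv
        have h1 : 0 < (I.filter (fun x => f x = v)).card := by
          rw [hcount]
          refine Finset.card_pos.mpr ⟨s.symm v, Finset.mem_filter.mpr ⟨inI1 v (hFA hv.1), ?_⟩⟩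
          exact hm1 v (hFA hv.1)
        obtain ⟨t, ht⟩ := Finset.card_pos.mp h1
        obtain ⟨ht1, ht2⟩ := Finset.mem_filter.mp ht
        have h2 : t ∈ C ↔ v ∈ C := hC _ _ (Or.inr (Or.inl ⟨ht1, ht2⟩))
        exact hout t (fun h => absurd (hAW _ (hFA h)) (hIW t ht1)) (h2.mpr hvC)
    intro C hC hCp
    by_cases hrC : r ∈ C
    · right
      have h1 := key Cᶜ (fun u v h => not_congr (hC u v h))
        (fun w h h' => not_congr (hCp w h h')) (fun h => h hrC)
      rw [Set.compl_empty_iff] at h1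
      exact h1
    · left
      exact key C hC hCp hrC

end Pool.Agent.H10.SF3
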