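import Mathlib
import Pool.Agent.H10.SF3.PB
import Pool.Agent.H10.SF3.PC
import Pool.Agent.H10.SF3.PD

set_option linter.unusedSectionVars false

namespace Pool.Agent.H10.SF3

open Equiv Equiv.Perm

variable {V : Type} [Fintype V] [DecidableEq V]

/-- The edges of a placement are edges of `G`. -/
theorem plc_adj {G : SimpleGraph V} {s0 : Perm V} {W : Finset V} {pr : V → V} {s : Perm V}
    (A : Adm G s0 W s) (I : Finset V) (hm f : V → V)
    (hI : ∀ x ∈ I, x ∉ W ∧ hm x ∈ W ∧ (hm x = s x ∨ s (hm x) = x))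
    (hfm : ∀ x ∈ I, f x = hm x ∨ cmp G pr x (f x)) (x y : V) (h : plc s I hm f x y) :
    G.Adj x y := by
  have key : ∀ x y, x ∈ I → f x = y → G.Adj x y := by
    intro x y h1 h2
    rcases hfm x h1 with h3 | h3
    · rw [← h2, h3]
      rcases (hI x h1).2.2 with h4 | h4
      · rw [h4]; exact A.adj x
      · have := A.adj (hm x)
        rw [h4] at this
        exact this.symm
    · rw [← h2]; exact h3.1
  rcases h with ⟨h1 | h1, -, -⟩ | ⟨h1, h2⟩ | ⟨h1, h2⟩
  · rw [← h1]; exact A.adj x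
  · rw [← h1]; exact (A.adj y).symm
  · exact key x y h1 h2
  · exact (key y x h1 h2).symm

/-- A cyclic permutation with the edges of a placement is admissible and has at least as many
marks. -/
theorem adm_of_plc {G : SimpleGraph V} {s0 : Perm V} {W : Finset V} {pr : V → V} {s : Perm V}
    (S : Sys G s0 W pr) (A : Adm G s0 W s) (I : Finset V) (hm f : V → V)
    (hI : ∀ x ∈ I, x ∉ W ∧ hm x ∈ W ∧ (hm x = s x ∨ s (hm x) = x))
    (hf : ∀ x ∈ I, f x ∈ W) (hfm : ∀ x ∈ I, f x = hm x ∨ cmp G pr x (f x))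
    (π : Perm V) (hπ : ∀ x y, SameCycle π x y)
    (hF : ∀ x y, (π x = y ∨ π y = x) ↔ plc s I hm f x y) :
    Adm G s0 W π ∧ marks G W pr s ≤ marks G W pr π ∧
      ((∃ x ∈ I, f x ≠ hm x ∧ ¬ cmp G pr x (hm x)) → marks G W pr s < marks G W pr π) := by
  classical
  have hfm' : ∀ x ∈ I, f x = hm x ∨ mk G W pr x (f x) := by
    intro x hx
    rcases hfm x hx with h | h
    · exact Or.inl h
    · exact Or.inr ((mk_iff_of (hI x hx).1 (hf x hx)).2 h)
  obtain ⟨h1, h2, h3, h4, h5⟩ := realise_of (mk G W pr) (fun _ _ h => mk_symm h) s A.cyc S.card W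
    (fun _ _ h => mk_cases h) A.hub (A.link S) I hm f hI hf hfm' π hπ hF
  refine ⟨⟨hπ, ?_, ?_, h3⟩, ?_, ?_⟩
  · intro x
    exact plc_adj A I hm f hI hfm x (π x) ((hF x (π x)).1 (Or.inl rfl))
  · intro x hx hsx
    rcases A.lk x hx hsx with h | h
    · have := h2 x hx (by rw [h]; exact hsx)
      rw [h] at this
      exact this
    · have := h2 (s0 x) hsx (by rw [h]; exact hx)
      rw [h] at this
      exact this.symm
  · unfold marks
    convert h4 using 2
  · rintro ⟨x, hx, hne, hnc⟩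
    have := h5 ⟨x, hx, hne, fun h => hnc ((mk_iff_of (hI x hx).1 (hI x hx).2.1).1 h)⟩
    unfold marks
    convert this using 2

/-- The end of the assembly: the placement has one cycle and only complete entering tokens are
moved; the new cycle is best again. -/
theorem end_step {G : SimpleGraph V} {s0 : Perm V} {W : Finset V} {pr : V → V} {s : Perm V}
    (S : Sys G s0 W pr) (hno : ¬ Two G) (B : Best G s0 W pr s)
    (Bd : Finset V) (hBdW : ∀ w ∈ Bd, w ∈ W) (hBdpr : ∀ w ∈ Bd, pr w ∈ Bd)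
    (I : Finset V) (hm f : V → V)
    (hI : ∀ x ∈ I, x ∉ W ∧ hm x ∈ W ∧ (hm x = s x ∨ s (hm x) = x))
    (hf : ∀ x ∈ I, f x ∈ W) (hfm : ∀ x ∈ I, f x = hm x ∨ cmp G pr x (f x))
    (hcard : ∀ w, (I.filter (fun x => f x = w)).card = (I.filter (fun x => hm x = w)).card)
    (hkeep : ∀ w ∈ Bd, (∃ t, t ∉ I ∧ (s t = w ∨ s w = t) ∧ cmp G pr t w) ∨
      ((∃ t ∈ I, hm t = w) ∧ ∀ t ∈ I, hm t = w → cmp G pr t w))
    (conn : ∀ C : Set V, (∀ x y, plc s I hm f x y → (x ∈ C ↔ y ∈ C)) →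
      (∀ w ∈ Bd, (w ∈ C ↔ pr w ∈ C)) → C = ∅ ∨ C = Set.univ)
    (hfwd : ∀ x ∈ I, cmp G pr x (hm x) → hm x = s x) :
    ∃ s' : Perm V, Best G s0 W pr s' ∧
      (∀ x, s' x = if x ∈ I ∧ hm x = s x then f x else s x) ∧
      (∀ x ∈ I, f x ≠ hm x → hm x = s x ∧ cmp G pr x (hm x)) := by
  classical
  have A : Adm G s0 W s := B.toAdm
  obtain ⟨F, hF, h2⟩ := exists_plc s A.cyc S.card W A.hub (A.link S) I hm f hI hf hcard
  have hFG : ∀ x y, F.Adj x y → G.Adj x y := fun x y h =>
    plc_adj A I hm f hI hfm x y ((hF x y).1 h)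
  -- one component
  have hc : Nat.card F.ConnectedComponent = 1 := by
    by_contra hne1
    obtain ⟨w0, _⟩ := S.hne
    have hpos : 0 < Nat.card F.ConnectedComponent := by
      have : Nonempty F.ConnectedComponent := ⟨F.connectedComponentMk w0⟩
      exact Nat.card_pos
    obtain ⟨F', g1, g2, g3⟩ := merge F h2 Bd pr
      (fun w hw => ⟨hBdpr w hw, S.prne w (hBdW w hw), S.prpr w (hBdW w hw)⟩)
      (cmp G pr) (by
        intro x w hw
        unfold cmp
        rw [S.prpr w (hBdW w hw)]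
        exact ⟨fun h => ⟨h.2, h.1⟩, fun h => ⟨h.2, h.1⟩⟩) (by
        intro w hw
        have hwI : w ∉ I := fun h => (hI w h).1 (hBdW w hw)
        rcases hkeep w hw with ⟨t, h3, h4, h5⟩ | ⟨⟨t, h3, h4⟩, h5⟩
        · refine ⟨t, ?_, (hF t w).2 (Or.inl ⟨h4, fun h => h3 h.1, fun h => hwI h.1⟩), h5⟩
          intro h6
          rcases h4 with h4 | h4
          · exact A.hub t (hBdW t h6) (h4 ▸ hBdW w hw)
          · exact A.hub w (hBdW w hw) (h4 ▸ hBdW t h6)
        · have h6 : 0 < (I.filter (fun x => f x = w)).card := by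
            rw [hcard w]
            exact Finset.card_pos.2 ⟨t, Finset.mem_filter.2 ⟨h3, h4⟩⟩
          obtain ⟨t', ht'⟩ := Finset.card_pos.1 h6
          obtain ⟨h7, h8⟩ := Finset.mem_filter.1 ht'
          refine ⟨t', fun h => (hI t' h7).1 (hBdW t' h), (hF t' w).2 (Or.inr (Or.inl ⟨h7, h8⟩)), ?_⟩
          rcases hfm t' h7 with h9 | h9
          · exact h5 t' h7 (h9.symm.trans h8)
          · rw [h8] at h9
            exact h9) (by
        intro u hu v hv h
        rcases (hF u v).1 h with ⟨h3 | h3, -, -⟩ | ⟨h3, -⟩ | ⟨h3, -⟩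
        · exact A.hub u (hBdW u hu) (h3 ▸ hBdW v hv)
        · exact A.hub v (hBdW v hv) (h3 ▸ hBdW u hu)
        · exact (hI u h3).1 (hBdW u hu)
        · exact (hI v h3).1 (hBdW v hv)) (by
        intro C hC hC2
        exact conn C (fun x y h => hC x y ((hF x y).2 h)) hC2) 2 (by norm_num) (by omega)
    apply hno
    refine ⟨F', ?_, g1, g2⟩
    intro u v h
    rcases g3 u v h with h | ⟨-, h⟩ | ⟨-, h⟩
    · exact hFG u v h
    · exact h.1
    · exact h.1.symm
  -- only marked tokens are moved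
  have hmoved : ∀ x ∈ I, f x ≠ hm x → hm x = s x ∧ cmp G pr x (hm x) := by
    obtain ⟨π, hπ, hadj⟩ := cyc_of_connected F h2 hc
    obtain ⟨h3, -, h5⟩ := adm_of_plc S A I hm f hI hf hfm π hπ
      (fun x y => (hadj x y).symm.trans (hF x y))
    intro x hx hne
    have h6 : cmp G pr x (hm x) := by
      by_contra h7
      have := h5 ⟨x, hx, hne, h7⟩
      have := B.max π h3
      omega
    exact ⟨hfwd x hx h6, h6⟩
  have hfm' : ∀ x ∈ I, f x = hm x ∨ mk G W pr x (f x) := by
    intro x hx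
    rcases hfm x hx with h | h
    · exact Or.inl h
    · exact Or.inr ((mk_iff_of (hI x hx).1 (hf x hx)).2 h)
  obtain ⟨s', h3, h4, h5, -⟩ := realise_fwd (mk G W pr) (fun _ _ h => mk_symm h) s A.cyc S.card W
    (fun _ _ h => mk_cases h) A.hub (A.link S) I hm f hI hf hfm' hcard
    (fun x hx hne => (hmoved x hx hne).1) F hF hc
  obtain ⟨h6, h7, -⟩ := adm_of_plc S A I hm f hI hf hfm s' h3
    (fun x y => (h4 x y).symm.trans (hF x y))
  exact ⟨s', ⟨h6, fun t ht => (B.max t ht).trans h7⟩, h5, hmoved⟩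

end Pool.Agent.H10.SF3
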