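import Mathlib
import Pool.Agent.H10.SF3.PE
import Pool.Agent.H10.SF3.PF1
import Pool.Agent.H10.SF3.PF2

set_option linter.unusedSectionVars false

namespace Pool.Agent.H10.SF3

open Equiv Equiv.Perm

/-- CORE. Pairs of hubs, any two hubs at distance at least three on a Hamiltonian cycle, every
vertex outside joined to both hubs of at least two pairs. -/
theorem two_of_pairs {V : Type} [Fintype V] [DecidableEq V] (G : SimpleGraph V)
    (s0 : Equiv.Perm V) (hs0 : ∀ x y, s0.SameCycle x y) (hadj : ∀ x, G.Adj x (s0 x))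
    (W : Finset V) (hW : W.Nonempty) (pr : V → V) (hpW : ∀ w ∈ W, pr w ∈ W)
    (hpn : ∀ w ∈ W, pr w ≠ w) (hpp : ∀ w ∈ W, pr (pr w) = w)
    (h1 : ∀ w ∈ W, s0 w ∉ W) (h2 : ∀ w ∈ W, s0 (s0 w) ∉ W)
    (hcov : ∀ x, x ∉ W → ∃ w ∈ W, ∃ w' ∈ W, w' ≠ w ∧ w' ≠ pr w ∧
      G.Adj x w ∧ G.Adj x (pr w) ∧ G.Adj x w' ∧ G.Adj x (pr w')) :
    ∃ F : SimpleGraph V, F ≤ G ∧ (∀ v, (F.neighborSet v).ncard = 2) ∧
      Nat.card F.ConnectedComponent = 2 := by
  classical
  have S : Sys G s0 W pr := ⟨hs0, hadj, hW, hpW, hpn, hpp, h1, h2, by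
    intro x hx
    obtain ⟨w, hw, w', hw', g1, g2, g3, g4, g5, g6⟩ := hcov x hx
    exact ⟨w, hw, w', hw', g1, g2, ⟨g3, g4⟩, ⟨g5, g6⟩⟩⟩
  by_contra hno0
  have hno : ¬ Two G := hno0
  obtain ⟨s, B⟩ := S.exists_best
  have A0 : Adm G s0 W s := B.toAdm
  have hWs := A0.hub
  have hWs' := A0.hub'
  have hlink := A0.link S
  have hcmp : ∀ x w, w ∈ W → (cmp G pr x (pr w) ↔ cmp G pr x w) := by
    intro x w hw
    unfold cmp
    rw [hpp w hw]
    exact ⟨fun h => ⟨h.2, h.1⟩, fun h => ⟨h.2, h.1⟩⟩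
  -- the start hub
  obtain ⟨v0, hv0W, hv0⟩ : ∃ v0 ∈ W, Free G pr s v0 ∨ ∀ w ∈ W, ¬ Free G pr s w := by
    by_cases h : ∃ w ∈ W, Free G pr s w
    · obtain ⟨w, hw, hf⟩ := h
      exact ⟨w, hw, Or.inl hf⟩
    · push Not at h
      obtain ⟨w, hw⟩ := hW
      exact ⟨w, hw, Or.inr h⟩
  set pos : V → ℕ := ps s A0.cyc (s v0) with hposdef
  have hinj : Function.Injective pos := fun u v h => ps_inj s A0.cyc (s v0) u v h
  have hp0 : pos (s v0) = 0 := ps_root s A0.cyc (s v0)
  have hpos : ∀ v, v ≠ v0 → pos (s v) = pos v + 1 := fun v hv =>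
    ps_succ s A0.cyc (s v0) v (fun h => hv (s.injective h))
  have hmax : ∀ v, pos v ≤ pos v0 := by
    intro v
    have g1 := ps_last s A0.cyc (s v0)
    rw [Equiv.symm_apply_apply] at g1
    have g2 := ps_lt s A0.cyc (s v0) v
    change ps s A0.cyc (s v0) v ≤ ps s A0.cyc (s v0) v0
    omega
  -- the active hubs
  let act : V → Prop := fun w => w = v0 ∨ (pr w ≠ v0 ∧
    ((Free G pr s w ∧ (¬ Free G pr s (pr w) ∨ pos (pr w) < pos w)) ∨
      (¬ Free G pr s w ∧ ¬ Free G pr s (pr w) ∧ pos (pr w) < pos w)))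
  have hact1 : ∀ w ∈ W, act w ∨ act (pr w) := by
    intro w hw
    have g1 := hpp w hw
    by_cases e1 : w = v0
    · exact Or.inl (Or.inl e1)
    by_cases e2 : pr w = v0
    · exact Or.inr (Or.inl e2)
    have g2 : pos (pr w) ≠ pos w := fun h => hpn w hw (hinj h)
    by_cases f1 : Free G pr s w <;> by_cases f2 : Free G pr s (pr w)
    · rcases Nat.lt_or_gt_of_ne g2 with h | h
      · exact Or.inl (Or.inr ⟨e2, Or.inl ⟨f1, Or.inr h⟩⟩)
      · right; right
        rw [g1]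
        exact ⟨e1, Or.inl ⟨f2, Or.inr h⟩⟩
    · exact Or.inl (Or.inr ⟨e2, Or.inl ⟨f1, Or.inl f2⟩⟩)
    · right; right
      rw [g1]
      exact ⟨e1, Or.inl ⟨f2, Or.inl f1⟩⟩
    · rcases Nat.lt_or_gt_of_ne g2 with h | h
      · exact Or.inl (Or.inr ⟨e2, Or.inr ⟨f1, f2, h⟩⟩)
      · right; right
        rw [g1]
        exact ⟨e1, Or.inr ⟨f2, f1, h⟩⟩
  have hact2 : ∀ w ∈ W, act w → ¬ act (pr w) := by
    intro w hw ha hb
    have g1 := hpp w hw
    have g3 := hpn w hw
    rcases ha with ha | ⟨ha, ha'⟩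
    · rcases hb with hb | ⟨hb, -⟩
      · exact g3 (hb.trans ha.symm)
      · rw [g1] at hb
        exact hb ha
    · rcases hb with hb | ⟨hb, hb'⟩
      · exact ha hb
      · rw [g1] at hb'
        rcases ha' with ⟨a1, a2⟩ | ⟨a1, a2, a3⟩
        · rcases hb' with ⟨b1, b2⟩ | ⟨b1, b2, b3⟩
          · rcases a2 with a2 | a2
            · exact a2 b1
            · rcases b2 with b2 | b2
              · exact b2 a1
              · omega
          · exact b2 a1
        · rcases hb' with ⟨b1, b2⟩ | ⟨b1, b2, b3⟩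
          · exact a2 b1
          · omega
  let A : Finset V := W.filter act
  let FA : Finset V := A.filter (fun w => Free G pr s w)
  have hAW : ∀ w, w ∈ A → w ∈ W := fun w h => (Finset.mem_filter.1 h).1
  have hAact : ∀ w, w ∈ A → act w := fun w h => (Finset.mem_filter.1 h).2
  have hFAA : ∀ w, w ∈ FA → w ∈ A := fun w h => (Finset.mem_filter.1 h).1
  have hFAf : ∀ w, w ∈ FA → Free G pr s w := fun w h => (Finset.mem_filter.1 h).2
  have hnFA : ∀ w, w ∈ A → w ∉ FA → ¬ Free G pr s w := fun w h h' hf =>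
    h' (Finset.mem_filter.2 ⟨h, hf⟩)
  have hpA : ∀ w ∈ A, pr w ∉ A := fun w h h' => hact2 w (hAW w h) (hAact w h) (hAact _ h')
  have hv0A : v0 ∈ A := Finset.mem_filter.2 ⟨hv0W, Or.inl rfl⟩
  -- bad pairs
  have hbad : ∀ w ∈ A, w ∉ FA → ¬ Free G pr s (pr w) := by
    intro w hw hw'
    have g1 := hnFA w hw hw'
    rcases hAact w hw with h | ⟨-, h | h⟩
    · rcases hv0 with h0 | h0
      · rw [h] at g1
        exact absurd h0 g1
      · exact h0 _ (hpW w (hAW w hw))
    · exact absurd h.1 g1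
    · exact h.2.1
  have hsec0 : ∀ w ∈ A, w ∉ FA → pos (pr w) < pos w := by
    intro w hw hw'
    have g1 := hnFA w hw hw'
    rcases hAact w hw with h | ⟨-, h | h⟩
    · have g2 := hmax (pr w)
      have g3 : pos (pr w) ≠ pos w := fun e => hpn w (hAW w hw) (hinj e)
      rw [h] at g3 g2 ⊢
      omega
    · exact absurd h.1 g1
    · exact h.2.2
  -- the representative of a pair
  have hrep : ∀ w ∈ W, ∃ u ∈ A, (u = w ∨ u = pr w) := by
    intro w hw
    rcases hact1 w hw with h | h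
    · exact ⟨w, Finset.mem_filter.2 ⟨hw, h⟩, Or.inl rfl⟩
    · exact ⟨pr w, Finset.mem_filter.2 ⟨hpW w hw, h⟩, Or.inr rfl⟩
  have halt0 : ∀ x, x ∉ W → ∀ h : V, ∃ u ∈ A, u ≠ h ∧ cmp G pr x u := by
    intro x hx h
    obtain ⟨w, hw, w', hw', n1, n2, c1, c2⟩ := S.cov x hx
    obtain ⟨u, hu, hu'⟩ := hrep w hw
    obtain ⟨v, hv, hv'⟩ := hrep w' hw'
    have cu : cmp G pr x u := by
      rcases hu' with e | e
      · rw [e]; exact c1
      · rw [e]; exact (hcmp x w hw).2 c1
    have cv : cmp G pr x v := by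
      rcases hv' with e | e
      · rw [e]; exact c2
      · rw [e]; exact (hcmp x w' hw').2 c2
    by_cases e : u = h
    · refine ⟨v, hv, ?_, cv⟩
      rw [← e]
      rcases hu' with e1 | e1 <;> rcases hv' with e2 | e2
      · rw [e1, e2]; exact n1
      · rw [e1, e2]
        intro e3
        exact n2 (by rw [← e3, hpp w' hw'])
      · rw [e1, e2]; exact n2
      · rw [e1, e2]
        intro e3
        apply n1
        rw [← hpp w' hw', e3, hpp w hw]
    · exact ⟨u, hu, e, cu⟩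
  let alt : V → V := fun x => if h : x ∉ W then (halt0 x h (hmA s A x)).choose else v0
  have halt1 : ∀ x, x ∉ W → alt x ∈ A ∧ alt x ≠ hmA s A x ∧ cmp G pr x (alt x) := by
    intro x hx
    have e : alt x = (halt0 x hx (hmA s A x)).choose := dif_pos hx
    rw [e]
    exact (halt0 x hx (hmA s A x)).choose_spec
  -- the movable tokens
  let I : Finset V := mvI s A FA v0
  have hIcase : ∀ x ∈ I, (s x ∈ A ∧ hmA s A x = s x) ∨
      (s x ∉ A ∧ s.symm x ∈ FA ∧ hmA s A x = s.symm x) := by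
    intro x hx
    by_cases h : s x ∈ A
    · exact Or.inl ⟨h, if_pos h⟩
    · right
      refine ⟨h, ?_, if_neg h⟩
      rcases Finset.mem_union.1 hx with h3 | h3
      · obtain ⟨w, hw, rfl⟩ := Finset.mem_image.1 h3
        rw [Equiv.apply_symm_apply] at h
        exact absurd hw h
      · obtain ⟨w, hw, rfl⟩ := Finset.mem_image.1 h3
        rw [Equiv.symm_apply_apply]
        exact Finset.mem_of_mem_erase hw
  have hI : ∀ x ∈ I, x ∉ W ∧ hmA s A x ∈ W ∧ (hmA s A x = s x ∨ s (hmA s A x) = x) := by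
    intro x hx
    rcases hIcase x hx with ⟨h, e⟩ | ⟨h, h', e⟩
    · refine ⟨?_, by rw [e]; exact hAW _ h, Or.inl e⟩
      have := hWs' _ (hAW _ h)
      rw [Equiv.symm_apply_apply] at this
      exact this
    · refine ⟨?_, by rw [e]; exact hAW _ (hFAA _ h'), Or.inr (by rw [e, Equiv.apply_symm_apply])⟩
      have := hWs _ (hAW _ (hFAA _ h'))
      rw [Equiv.apply_symm_apply] at this
      exact this
  obtain ⟨f, hne, hfalt, hcard, hconn⟩ := placement s A0.cyc W hWs hlink pr A FA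
    (fun w hw => hAW w hw) (fun w hw => hFAA w hw) hpA v0 hv0A
    (fun w hw hw' _ => hsec0 w hw hw') alt
    (fun x hx => ⟨(halt1 x (hI x hx).1).1, (halt1 x (hI x hx).1).2.1⟩)
  have hf : ∀ x ∈ I, f x ∈ W := by
    intro x hx
    rcases hfalt x hx with h | h
    · rw [h]; exact (hI x hx).2.1
    · rw [h]; exact hAW _ (halt1 x (hI x hx).1).1
  have hfm : ∀ x ∈ I, f x = hmA s A x ∨ cmp G pr x (f x) := by
    intro x hx
    rcases hfalt x hx with h | h
    · exact Or.inl h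
    · right; rw [h]; exact (halt1 x (hI x hx).1).2.2
  -- the hubs of the bad pairs
  let Bd : Finset V := (A \ FA) ∪ (A \ FA).image pr
  have hBd : ∀ w ∈ Bd, (w ∈ A ∧ w ∉ FA) ∨ (∃ u, u ∈ A ∧ u ∉ FA ∧ w = pr u) := by
    intro w hw
    rcases Finset.mem_union.1 hw with h | h
    · exact Or.inl (Finset.mem_sdiff.1 h)
    · obtain ⟨u, hu, rfl⟩ := Finset.mem_image.1 h
      obtain ⟨g1, g2⟩ := Finset.mem_sdiff.1 hu
      exact Or.inr ⟨u, g1, g2, rfl⟩
  have hBd1 : ∀ w, w ∈ A → w ∉ FA → w ∈ Bd := fun w g1 g2 =>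
    Finset.mem_union_left _ (Finset.mem_sdiff.2 ⟨g1, g2⟩)
  have hBdW : ∀ w ∈ Bd, w ∈ W := by
    intro w hw
    rcases hBd w hw with h | ⟨u, h, -, rfl⟩
    · exact hAW w h.1
    · exact hpW u (hAW u h)
  have hBdpr : ∀ w ∈ Bd, pr w ∈ Bd := by
    intro w hw
    rcases hBd w hw with h | ⟨u, h, h', rfl⟩
    · exact Finset.mem_union_right _ (Finset.mem_image_of_mem _ (Finset.mem_sdiff.2 h))
    · rw [hpp u (hAW u h)]
      exact hBd1 u h h'
  have hleave : ∀ w ∈ W, w ∉ FA → s w ∉ I := by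
    intro w hw hw' h
    rcases hIcase (s w) h with ⟨g, -⟩ | ⟨-, g, -⟩
    · exact hlink w hw (hAW _ g)
    · rw [Equiv.symm_apply_apply] at g
      exact hw' g
  have hkeep : ∀ w ∈ Bd, (∃ t, t ∉ I ∧ (s t = w ∨ s w = t) ∧ cmp G pr t w) ∨
      ((∃ t ∈ I, hmA s A t = w) ∧ ∀ t ∈ I, hmA s A t = w → cmp G pr t w) := by
    intro w hw
    rcases hBd w hw with ⟨g1, g2⟩ | ⟨u, g1, g2, g3⟩
    · have hnf := hnFA w g1 g2
      by_cases hc : cmp G pr (s w) w
      · exact Or.inl ⟨s w, hleave w (hAW w g1) g2, Or.inr rfl, hc⟩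
      · have hc' : cmp G pr (s.symm w) w := by
          by_contra hc'
          exact hnf ⟨hc', hc⟩
        right
        refine ⟨⟨s.symm w, ?_, ?_⟩, ?_⟩
        · exact Finset.mem_union_left _ (Finset.mem_image_of_mem _ g1)
        · unfold hmA
          rw [Equiv.apply_symm_apply, if_pos g1]
        · intro t ht htw
          rcases hIcase t ht with ⟨-, e⟩ | ⟨-, e', e⟩
          · have : t = s.symm w := by rw [← htw, e, Equiv.symm_apply_apply]
            rw [this]; exact hc'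
          · rw [← e, htw] at e'
            exact absurd e' g2
    · have hnf : ¬ Free G pr s w := by rw [g3]; exact hbad u g1 g2
      have hwA : w ∉ A := by rw [g3]; exact hpA u g1
      have hwW := hBdW w hw
      by_cases hc : cmp G pr (s w) w
      · exact Or.inl ⟨s w, hleave w hwW (fun h => hwA (hFAA w h)), Or.inr rfl, hc⟩
      · have hc' : cmp G pr (s.symm w) w := by
          by_contra hc'
          exact hnf ⟨hc', hc⟩
        refine Or.inl ⟨s.symm w, ?_, Or.inl (Equiv.apply_symm_apply _ _), hc'⟩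
        intro h
        rcases hIcase _ h with ⟨g, -⟩ | ⟨-, g, -⟩
        · rw [Equiv.apply_symm_apply] at g
          exact hwA g
        · have := hlink _ (hAW _ (hFAA _ g))
          rw [Equiv.apply_symm_apply, Equiv.apply_symm_apply] at this
          exact this hwW
  have hfwd : ∀ x ∈ I, cmp G pr x (hmA s A x) → hmA s A x = s x := by
    intro x hx hc
    rcases hIcase x hx with ⟨-, e⟩ | ⟨-, h, e⟩
    · exact e
    · exfalso
      have := (hFAf _ h).2
      rw [Equiv.apply_symm_apply] at this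
      rw [e] at hc
      exact this hc
  obtain ⟨s', B', hs', hmv⟩ := end_step S hno B Bd hBdW hBdpr I (hmA s A) f hI hf hfm hcard hkeep
    (fun C hC hC2 => hconn C hC (fun w g1 g2 => hC2 w (hBd1 w g1 g2))) hfwd
  -- the neutral case
  let M : Finset V := (I.filter (fun x => f x ≠ hmA s A x)).image (hmA s A)
  have hM : ∀ w ∈ M, ∃ x ∈ I, f x ≠ w ∧ hmA s A x = w ∧ s x = w ∧ cmp G pr x w ∧ w ∈ A ∧
      w ∉ FA := by
    intro w hw
    obtain ⟨x, hx, rfl⟩ := Finset.mem_image.1 hw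
    obtain ⟨g1, g2⟩ := Finset.mem_filter.1 hx
    obtain ⟨g3, g4⟩ := hmv x g1 g2
    refine ⟨x, g1, g2, rfl, g3.symm, g4, ?_, ?_⟩
    · rcases hIcase x g1 with ⟨g, e⟩ | ⟨-, g, e⟩
      · rw [e]; exact g
      · rw [e]; exact hFAA _ g
    · intro h
      have := (hFAf _ h).1
      apply this
      rw [g3, Equiv.symm_apply_apply, ← g3]
      exact g4
  refine neutral_best S hno B B' pos hinj v0 hp0 hpos hmax M ?_ ?_ ?_ ?_ ?_ ?_ ?_ ?_
  · obtain ⟨x, hx, hx'⟩ := hne
    exact ⟨_, Finset.mem_image_of_mem _ (Finset.mem_filter.2 ⟨hx, hx'⟩)⟩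
  · intro w hw
    obtain ⟨x, -, -, -, -, -, g, -⟩ := hM w hw
    exact hAW w g
  · intro w hw
    obtain ⟨x, -, -, -, -, -, g, g'⟩ := hM w hw
    exact hsec0 w g g'
  · intro w hw
    obtain ⟨x, -, -, -, e, hc, g, g'⟩ := hM w hw
    have hnf := hbad w g g'
    by_contra hc1
    have hc2 : cmp G pr (s.symm (pr w)) (pr w) := by
      by_contra hc2
      exact hnf ⟨hc2, hc1⟩
    refine A0.fwd S hno w (hAW w g) ⟨?_, hc2⟩
    rw [← e, Equiv.symm_apply_apply, e]
    exact hc
  · intro w hw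
    obtain ⟨x, -, -, -, e, hc, -, -⟩ := hM w hw
    rw [← e, Equiv.symm_apply_apply, e]
    exact hc
  · intro w hw
    obtain ⟨x, hx, hfx, hmx, e, hc, -, -⟩ := hM w hw
    have e1 : s' (s'.symm w) = w := Equiv.apply_symm_apply _ _
    rw [hs'] at e1
    by_cases h : s'.symm w ∈ I ∧ hmA s A (s'.symm w) = s (s'.symm w)
    · rw [if_pos h] at e1
      rcases hfm _ h.1 with h3 | h3
      · exfalso
        have h4 : s'.symm w = x := s.injective (by rw [← h.2, ← h3, e1, e])
        rw [h4] at e1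
        exact hfx e1
      · rw [e1] at h3
        exact h3
    · rw [if_neg h] at e1
      exfalso
      have h4 : s'.symm w = x := s.injective (by rw [e1, e])
      rw [h4] at h
      exact h ⟨hx, by rw [hmx, e]⟩
  · intro v hv
    rw [hs']
    by_cases h : v ∈ I ∧ hmA s A v = s v
    · rw [if_pos h]
      by_contra h3
      apply hv
      rw [← h.2]
      exact Finset.mem_image_of_mem _ (Finset.mem_filter.2 ⟨h.1, by rw [h.2]; exact h3⟩)
    · rw [if_neg h]
  · intro v hv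
    obtain ⟨x, hx, hfx, hmx, e, hc, -, -⟩ := hM _ hv
    have h4 : v = x := s.injective e.symm
    subst h4
    rw [hs', if_pos ⟨hx, hmx⟩]
    exact hfx

end Pool.Agent.H10.SF3
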