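import Mathlib
import Pool.Agent.H72.PR.Sel

/-!
Selection of pairs of hubs in a cyclic order, and the numbers for minimum degree
`66 sqrt (n log n)`.
-/

namespace Pool.Agent.H10.SF3

/-- A separated family of disjoint pairs such that every vertex is complete to two of them. -/
theorem exists_pairs {n : ℕ} [NeZero n] (N : Fin n → Finset (Fin n)) (d m : ℕ)
    (hN : ∀ x, (N x).card = d) (hd : 60 ≤ d)
    (hnum : (n : ℝ) * (1 + 35 * d / n) ^ (2 * (2 * m)) / 2 ^ (d / 2) +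
      ((2 : ℕ) : ℝ) * ((n : ℝ) * (1 - ((d : ℝ) / (3 * n)) ^ 2) ^ m) < 1) :
    ∃ (W : Finset (Fin n)) (pr : Fin n → Fin n), W.Nonempty ∧ (∀ w ∈ W, pr w ∈ W) ∧
      (∀ w ∈ W, pr w ≠ w) ∧ (∀ w ∈ W, pr (pr w) = w) ∧ (∀ w ∈ W, w + 1 ∉ W ∧ w + 2 ∉ W) ∧
      ∀ x, ∃ w ∈ W, ∃ w' ∈ W, w' ≠ w ∧ w' ≠ pr w ∧
        w ∈ N x ∧ pr w ∈ N x ∧ w' ∈ N x ∧ pr w' ∈ N x := by
  classical
  obtain ⟨p, w, gr, hinj, hsep, hcov⟩ :=
    Pool.Agent.H72.PR.exists_pair_groups N d m 2 hN hd hnum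
  let W : Finset (Fin n) := Finset.univ.filter (fun v => ∃ i b, w i b = v)
  have hW : ∀ v, v ∈ W ↔ ∃ i b, w i b = v := by
    intro v
    simp [W]
  let pr : Fin n → Fin n := fun v =>
    if h : ∃ q : Fin p × Bool, w q.1 q.2 = v then
      w (Classical.choose h).1 (!(Classical.choose h).2) else v
  have hpr : ∀ i b, pr (w i b) = w i (!b) := by
    intro i b
    have h : ∃ q : Fin p × Bool, w q.1 q.2 = w i b := ⟨(i, b), rfl⟩
    have h1 : pr (w i b) = w (Classical.choose h).1 (!(Classical.choose h).2) := dif_pos h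
    have h2 := Classical.choose_spec h
    obtain ⟨h3, h4⟩ := hinj _ _ _ _ h2
    rw [h1, h3, h4]
  refine ⟨W, pr, ?_, ?_, ?_, ?_, ?_, ?_⟩
  · obtain ⟨i, hi, _⟩ := hcov 0 0 (by norm_num)
    exact ⟨w i true, (hW _).2 ⟨i, true, rfl⟩⟩
  · intro v hv
    obtain ⟨i, b, rfl⟩ := (hW v).1 hv
    rw [hpr]
    exact (hW _).2 ⟨i, !b, rfl⟩
  · intro v hv
    obtain ⟨i, b, rfl⟩ := (hW v).1 hv
    rw [hpr]
    intro h
    have := (hinj _ _ _ _ h).2
    cases b <;> simp at this
  · intro v hv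
    obtain ⟨i, b, rfl⟩ := (hW v).1 hv
    rw [hpr, hpr, Bool.not_not]
  · intro v hv
    obtain ⟨i, b, rfl⟩ := (hW v).1 hv
    constructor
    · intro h
      obtain ⟨j, c, hjc⟩ := (hW _).1 h
      exact (hsep i b j c).1 hjc.symm
    · intro h
      obtain ⟨j, c, hjc⟩ := (hW _).1 h
      exact (hsep i b j c).2 hjc.symm
  · intro x
    obtain ⟨i, hi, hix⟩ := hcov x 0 (by norm_num)
    obtain ⟨j, hj, hjx⟩ := hcov x 1 (by norm_num)
    have hij : j ≠ i := by
      rintro rfl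
      omega
    refine ⟨w i true, (hW _).2 ⟨i, true, rfl⟩, w j true, (hW _).2 ⟨j, true, rfl⟩, ?_, ?_,
      hix _, ?_, hjx _, ?_⟩
    · intro h
      exact hij (hinj _ _ _ _ h).1
    · rw [hpr]
      intro h
      exact hij (hinj _ _ _ _ h).1
    · rw [hpr]; exact hix _
    · rw [hpr]; exact hjx _

private lemma one_le_log {n : ℕ} (hn : 3 ≤ n) : 1 ≤ Real.log n := by
  have h3 : (3 : ℝ) ≤ n := by exact_mod_cast hn
  rw [Real.le_log_iff_exp_le (by linarith)]
  have := Real.exp_one_lt_d9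
  linarith

/-- The numbers, with `m = n / 408`. -/
theorem numbers {n d : ℕ} (hn : 3 ≤ n) (hdn : d < n)
    (hd : 66 * Real.sqrt (n * Real.log n) ≤ d) :
    ∃ m : ℕ, 60 ≤ d ∧ (n : ℝ) * (1 + 35 * d / n) ^ (2 * (2 * m)) / 2 ^ (d / 2) +
      ((2 : ℕ) : ℝ) * ((n : ℝ) * (1 - ((d : ℝ) / (3 * n)) ^ 2) ^ m) < 1 := by
  have hn3 : (3 : ℝ) ≤ n := by exact_mod_cast hn
  have hn0 : (0 : ℝ) < n := by linarith
  have hL1 := one_le_log hn
  have hexpL : Real.exp (Real.log n) = n := Real.exp_log hn0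
  set L : ℝ := Real.log n with hL
  have hL0 : (0 : ℝ) ≤ L := by linarith
  have hdn' : (d : ℝ) < n := by exact_mod_cast hdn
  have hd0 : (0 : ℝ) ≤ d := Nat.cast_nonneg d
  -- the square of the hypothesis
  have hd2 : 4356 * ((n : ℝ) * L) ≤ (d : ℝ) ^ 2 := by
    have h1 : (66 * Real.sqrt (n * L)) ^ 2 ≤ (d : ℝ) ^ 2 :=
      pow_le_pow_left₀ (by positivity) hd 2
    rw [mul_pow, Real.sq_sqrt (by positivity)] at h1
    linarith
  have hdL : 4356 * L ≤ d := by
    have h1 : 4356 * L * n ≤ d * n := by nlinarith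
    exact le_of_mul_le_mul_right h1 hn0
  have hnL : 4356 * L < n := by linarith
  have hdR : (4356 : ℝ) ≤ d := by nlinarith
  have hdN : 4356 ≤ d := by exact_mod_cast hdR
  have hnR : (4356 : ℝ) < n := by linarith
  have hL8 : 8 ≤ L := by
    rw [hL, Real.le_log_iff_exp_le hn0]
    have h1 : Real.exp 8 = Real.exp 1 ^ 8 := by
      rw [← Real.exp_nat_mul]; norm_num
    rw [h1]
    have h2 : Real.exp 1 ^ 8 ≤ (2.7182818286 : ℝ) ^ 8 :=
      pow_le_pow_left₀ (Real.exp_pos _).le Real.exp_one_lt_d9.le 8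
    have h4 : (2.7182818286 : ℝ) ^ 8 ≤ 4356 := by norm_num
    linarith
  have hL10 : 10 ≤ L := by
    rw [hL, Real.le_log_iff_exp_le hn0]
    have h1 : Real.exp 10 = Real.exp 1 ^ 10 := by
      rw [← Real.exp_nat_mul]; norm_num
    rw [h1]
    have h2 : Real.exp 1 ^ 10 ≤ (2.7182818286 : ℝ) ^ 10 :=
      pow_le_pow_left₀ (Real.exp_pos _).le Real.exp_one_lt_d9.le 10
    have h4 : (2.7182818286 : ℝ) ^ 10 ≤ 34848 := by norm_num
    linarith
  have hn4 : (43560 : ℝ) ≤ n := by linarith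
  have hnN : 43560 ≤ n := by exact_mod_cast hn4
  refine ⟨n / 408, by omega, ?_⟩
  have hm1 : ((n / 408 : ℕ) : ℝ) * 408 ≤ n := by
    have : n / 408 * 408 ≤ n := Nat.div_mul_le_self n 408
    exact_mod_cast this
  have hm2 : 99 * (n : ℝ) ≤ 40800 * ((n / 408 : ℕ) : ℝ) := by
    have : 99 * n ≤ 40800 * (n / 408) := by omega
    exact_mod_cast this
  set m : ℕ := n / 408
  -- the term of the covering
  have hfirst : ((2 : ℕ) : ℝ) * ((n : ℝ) * (1 - ((d : ℝ) / (3 * n)) ^ 2) ^ m) < 2 / 3 := by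
    set y : ℝ := ((d : ℝ) / (3 * n)) ^ 2 with hy
    have hyv : y = (d : ℝ) ^ 2 / (9 * (n : ℝ) ^ 2) := by
      rw [hy]; field_simp; ring
    have hy0 : 0 ≤ y := by positivity
    have hy1 : y ≤ 1 := by
      rw [hyv, div_le_one (by positivity)]
      have : (d : ℝ) ^ 2 ≤ (n : ℝ) ^ 2 := pow_le_pow_left₀ hd0 hdn'.le 2
      nlinarith [pow_pos hn0 2]
    have hmy : L + 6 / 5 ≤ m * y := by
      rw [hyv, ← mul_div_assoc, le_div_iff₀ (by positivity)]
      have h1 : (m : ℝ) * (4356 * ((n : ℝ) * L)) ≤ m * (d : ℝ) ^ 2 :=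
        mul_le_mul_of_nonneg_left hd2 (Nat.cast_nonneg m)
      have h2 : (99 * (n : ℝ)) * ((n : ℝ) * L) ≤ 40800 * (m : ℝ) * ((n : ℝ) * L) :=
        mul_le_mul_of_nonneg_right hm2 (by positivity)
      have h5 : (n : ℝ) ^ 2 * 10 ≤ (n : ℝ) ^ 2 * L :=
        mul_le_mul_of_nonneg_left hL10 (by positivity)
      nlinarith
    have h1 : (1 - y) ^ m ≤ Real.exp (-(L + 6 / 5)) := by
      calc (1 - y) ^ m ≤ (Real.exp (-y)) ^ m := by
            apply pow_le_pow_left₀ (by linarith)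
            have := Real.add_one_le_exp (-y)
            linarith
        _ = Real.exp ((m : ℝ) * (-y)) := by rw [Real.exp_nat_mul]
        _ ≤ Real.exp (-(L + 6 / 5)) := Real.exp_le_exp.mpr (by nlinarith)
    calc ((2 : ℕ) : ℝ) * ((n : ℝ) * (1 - y) ^ m)
        ≤ 2 * (Real.exp L * Real.exp (-(L + 6 / 5))) := by
          rw [hexpL]
          push_cast
          exact mul_le_mul_of_nonneg_left (mul_le_mul_of_nonneg_left h1 hn0.le) (by norm_num)
      _ = 2 * Real.exp (-(6 / 5)) := by rw [← Real.exp_add]; ring_nf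
      _ < 2 / 3 := by
          rw [Real.exp_neg]
          have h7 : (3 : ℝ) < Real.exp (6 / 5) := by
            have h8 : Real.exp (6 / 5) = Real.exp (1 / 5) ^ 6 := by
              rw [← Real.exp_nat_mul]; norm_num
            have h9 : (1 + 1 / 5 + (1 / 5) ^ 2 / 2 : ℝ) ≤ Real.exp (1 / 5) :=
              Real.quadratic_le_exp_of_nonneg (by norm_num)
            have h10 : ((1 + 1 / 5 + (1 / 5) ^ 2 / 2 : ℝ)) ^ 6 ≤ Real.exp (1 / 5) ^ 6 :=
              pow_le_pow_left₀ (by norm_num) h9 6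
            rw [h8]
            have h11 : (3 : ℝ) < (1 + 1 / 5 + (1 / 5) ^ 2 / 2 : ℝ) ^ 6 := by norm_num
            linarith
          have h12 : (Real.exp (6 / 5))⁻¹ < 3⁻¹ := inv_strictAnti₀ (by norm_num) h7
          linarith
  -- the term of the separation
  have hsecond : (n : ℝ) * (1 + 35 * d / n) ^ (2 * (2 * m)) / 2 ^ (d / 2) ≤ 1 / 3 := by
    have h1 : (1 + 35 * (d : ℝ) / n) ^ (2 * (2 * m)) ≤ Real.exp (140 * d / 408) := by
      have h11 : (1 + 35 * (d : ℝ) / n) ≤ Real.exp (35 * (d : ℝ) / n) := by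
        have := Real.add_one_le_exp (35 * (d : ℝ) / n)
        linarith
      calc (1 + 35 * (d : ℝ) / n) ^ (2 * (2 * m))
          ≤ (Real.exp (35 * (d : ℝ) / n)) ^ (2 * (2 * m)) :=
            pow_le_pow_left₀ (by positivity) h11 _
        _ = Real.exp (((2 * (2 * m) : ℕ) : ℝ) * (35 * (d : ℝ) / n)) := by rw [Real.exp_nat_mul]
        _ ≤ Real.exp (140 * d / 408) := by
            apply Real.exp_le_exp.mpr
            push_cast
            rw [show 2 * (2 * (m : ℝ)) * (35 * (d : ℝ) / n) = (140 * d * m) / n by ring,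
              div_le_div_iff₀ hn0 (by norm_num)]
            nlinarith [mul_le_mul_of_nonneg_left hm1 (by positivity : (0 : ℝ) ≤ 140 * d)]
    have h2 : (2 : ℝ) ^ (d / 2) = Real.exp (((d / 2 : ℕ) : ℝ) * Real.log 2) := by
      rw [Real.exp_nat_mul, Real.exp_log (by norm_num)]
    have hh : ((d : ℝ) - 1) ≤ 2 * ((d / 2 : ℕ) : ℝ) := by
      have : d ≤ 2 * (d / 2) + 1 := by omega
      have : (d : ℝ) ≤ 2 * ((d / 2 : ℕ) : ℝ) + 1 := by exact_mod_cast this
      linarith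
    rw [div_le_iff₀ (by positivity), h2]
    calc (n : ℝ) * (1 + 35 * (d : ℝ) / n) ^ (2 * (2 * m))
        ≤ Real.exp L * Real.exp (140 * d / 408) := by
          rw [hexpL]
          exact mul_le_mul_of_nonneg_left h1 hn0.le
      _ = Real.exp (-2) * Real.exp (2 + L + 140 * d / 408) := by
          rw [← Real.exp_add, ← Real.exp_add]; ring_nf
      _ ≤ 1 / 3 * Real.exp (((d / 2 : ℕ) : ℝ) * Real.log 2) := by
          apply mul_le_mul _ _ (Real.exp_pos _).le (by norm_num)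
          · rw [Real.exp_neg, one_div]
            apply inv_anti₀ (by norm_num)
            have := Real.quadratic_le_exp_of_nonneg (x := 2) (by norm_num)
            linarith
          · apply Real.exp_le_exp.mpr
            have hlog := Real.log_two_gt_d9
            have h6 : ((d : ℝ) - 1) / 2 * 0.6931471803 ≤ ((d / 2 : ℕ) : ℝ) * Real.log 2 := by
              apply mul_le_mul (by linarith) hlog.le (by norm_num) (Nat.cast_nonneg _)
            nlinarith
  linarith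

end Pool.Agent.H10.SF3
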