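import Mathlib
import Pool.Agent.H10.SF2.L
import Pool.Agent.H10.SF3.PF
import Pool.Agent.H10.SF3.PG

/-!
Two-cycle 2-factors: minimum degree `66 sqrt (n log n)` is enough.
-/

namespace Pool.Agent.H10.SF3

open Equiv Equiv.Perm Pool.Agent.H47.TCF Pool.Agent.H10.SF2

/-- A Hamiltonian graph with minimum degree at least `d` has a 2-factor with exactly two cycles,
as soon as the numerical condition of the selection lemma holds for some `m`. -/
theorem two_of_degree {n : ℕ} [NeZero n] (hn : 3 ≤ n) (G : SimpleGraph (Fin n))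
    (hG : G.IsHamiltonian) (d m : ℕ) (hd : 60 ≤ d) (hdeg : ∀ x, d ≤ (G.neighborSet x).ncard)
    (hnum : (n : ℝ) * (1 + 35 * d / n) ^ (2 * (2 * m)) / 2 ^ (d / 2) +
      ((2 : ℕ) : ℝ) * ((n : ℝ) * (1 - ((d : ℝ) / (3 * n)) ^ 2) ^ m) < 1) :
    ∃ F : SimpleGraph (Fin n), F ≤ G ∧ (∀ x, (F.neighborSet x).ncard = 2) ∧
      Nat.card F.ConnectedComponent = 2 := by
  classical
  obtain ⟨v, hv⟩ := exists_cyclic hn G hG
  have hsub : ∀ k : Fin n, ∃ S ⊆ Finset.univ.filter (fun j => G.Adj (v k) (v j)),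
      S.card = d := by
    intro k
    apply Finset.exists_subset_card_eq
    refine (hdeg (v k)).trans ?_
    have h1 : (G.neighborSet (v k)) =
        (((Finset.univ.filter (fun j => G.Adj (v k) (v j))).map v.toEmbedding :
          Finset (Fin n)) : Set (Fin n)) := by
      ext y
      rw [SimpleGraph.mem_neighborSet, Finset.mem_coe, Finset.mem_map]
      constructor
      · intro h
        refine ⟨v.symm y, Finset.mem_filter.2 ⟨Finset.mem_univ _, ?_⟩, Equiv.apply_symm_apply _ _⟩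
        rw [Equiv.apply_symm_apply]
        exact h
      · rintro ⟨j, hj, rfl⟩
        exact (Finset.mem_filter.1 hj).2
    rw [h1, Set.ncard_coe_finset, Finset.card_map]
  choose N hNs hNc using hsub
  obtain ⟨W, pr, hne, hpW, hpn, hpp, hsp, hcov⟩ := exists_pairs N d m hNc hd hnum
  have hs0 : ∀ k, (v * nx n * v⁻¹ : Perm (Fin n)) (v k) = v (k + 1) := by
    intro k
    simp [nx_apply]
  have hmem : ∀ k, v k ∈ W.map v.toEmbedding ↔ k ∈ W := by
    intro k
    rw [Finset.mem_map]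
    constructor
    · rintro ⟨j, hj, hjk⟩
      have h2 : j = k := v.injective hjk
      exact h2 ▸ hj
    · intro h
      exact ⟨k, h, rfl⟩
  have hadj : ∀ k j, j ∈ N k → G.Adj (v k) (v j) := by
    intro k j hj
    exact (Finset.mem_filter.1 (hNs _ hj)).2
  refine two_of_pairs G (v * nx n * v⁻¹) ?_ ?_ (W.map v.toEmbedding) ?_
    (fun x => v (pr (v.symm x))) ?_ ?_ ?_ ?_ ?_ ?_
  · intro x y
    rw [sameCycle_conj]
    exact L_nx _ _
  · intro x
    have h1 := hv (v.symm x)
    rw [Equiv.apply_symm_apply] at h1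
    exact h1
  · obtain ⟨w, hw⟩ := hne
    exact ⟨v w, Finset.mem_map.2 ⟨w, hw, rfl⟩⟩
  · intro w hw
    obtain ⟨k, hk, rfl⟩ := Finset.mem_map.1 hw
    change v (pr (v.symm (v k))) ∈ _
    rw [Equiv.symm_apply_apply, hmem]
    exact hpW k hk
  · intro w hw
    obtain ⟨k, hk, rfl⟩ := Finset.mem_map.1 hw
    change v (pr (v.symm (v k))) ≠ v k
    rw [Equiv.symm_apply_apply]
    exact fun h => hpn k hk (v.injective h)
  · intro w hw
    obtain ⟨k, hk, rfl⟩ := Finset.mem_map.1 hw
    change v (pr (v.symm (v (pr (v.symm (v k)))))) = v k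
    rw [Equiv.symm_apply_apply, Equiv.symm_apply_apply, hpp k hk]
  · intro w hw
    obtain ⟨k, hk, rfl⟩ := Finset.mem_map.1 hw
    change (v * nx n * v⁻¹ : Perm (Fin n)) (v k) ∉ _
    rw [hs0, hmem]
    exact (hsp k hk).1
  · intro w hw
    obtain ⟨k, hk, rfl⟩ := Finset.mem_map.1 hw
    change (v * nx n * v⁻¹ : Perm (Fin n)) ((v * nx n * v⁻¹ : Perm (Fin n)) (v k)) ∉ _
    rw [hs0, hs0, hmem, L_two hn]
    exact (hsp k hk).2
  · intro x _
    obtain ⟨k, rfl⟩ : ∃ k, x = v k := ⟨v.symm x, (Equiv.apply_symm_apply v x).symm⟩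
    obtain ⟨w, hw, w', hw', e1, e2, a1, a2, a3, a4⟩ := hcov k
    refine ⟨v w, (hmem w).2 hw, v w', (hmem w').2 hw', ?_, ?_, hadj _ _ a1, ?_, hadj _ _ a3, ?_⟩
    · exact fun h => e1 (v.injective h)
    · rw [Equiv.symm_apply_apply]
      exact fun h => e2 (v.injective h)
    · rw [Equiv.symm_apply_apply]
      exact hadj _ _ a2
    · rw [Equiv.symm_apply_apply]
      exact hadj _ _ a4

/-- Minimum degree `66 sqrt (n log n)` is enough. -/
theorem two_of_large_degree {n d : ℕ} (hn : 3 ≤ n)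
    (hd : 66 * Real.sqrt (n * Real.log n) ≤ d)
    (G : SimpleGraph (Fin n)) (hG : G.IsHamiltonian) (hdeg : ∀ v, d ≤ (G.neighborSet v).ncard) :
    ∃ F : SimpleGraph (Fin n), F ≤ G ∧ (∀ x, (F.neighborSet x).ncard = 2) ∧
      Nat.card F.ConnectedComponent = 2 := by
  have hdn : d < n := by
    have h1 := hdeg ⟨0, by omega⟩
    have h2 : (G.neighborSet ⟨0, by omega⟩).ncard < (Set.univ : Set (Fin n)).ncard := by
      apply Set.ncard_lt_ncard
      · rw [Set.ssubset_univ_iff]
        intro h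
        have h3 : (⟨0, by omega⟩ : Fin n) ∈ G.neighborSet ⟨0, by omega⟩ := by rw [h]; trivial
        exact G.loopless.irrefl _ h3
      · exact Set.toFinite _
    rw [Set.ncard_univ, Nat.card_eq_fintype_card, Fintype.card_fin] at h2
    omega
  have : NeZero n := ⟨by omega⟩
  obtain ⟨m, h60, hnum⟩ := numbers hn hdn hd
  exact two_of_degree hn G hG d m h60 hdeg hnum

end Pool.Agent.H10.SF3
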